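import Pool.Agent.Q201.SC.Stm

set_option autoImplicit false

namespace Pool.Agent.Q201.SC

private theorem foldl_prod {A S T : Type} (f : S → A → S) (g : T → A → T) (l : List A) (s : S)
    (t : T) : l.foldl (fun (p : S × T) x => (f p.1 x, g p.2 x)) (s, t) =
      (l.foldl f s, l.foldl g t) := by
  induction l generalizing s t with
  | nil => rfl
  | cons a l ih => simp only [List.foldl_cons]; exact ih _ _

theorem andT : S_AND := by
  rintro ι U R R' ⟨S, fin, step, s₀, F, h⟩ ⟨S', fin', step', s₀', F', h'⟩
  refine ⟨S × S', inferInstance, fun p x => (step p.1 x, step' p.2 x), (s₀, s₀'),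
    fun p => F p.1 ∧ F' p.2, fun u N hN => ?_⟩
  rw [foldl_prod]
  exact and_congr (h u N hN) (h' u N hN)

end Pool.Agent.Q201.SC
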