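import Pool.Agent.Q201.SC.Stm

/-!
# Project SC: job SC-18 (helper66): the codes determine the configurations
-/

set_option autoImplicit false

namespace Pool.Agent.Q201.SC

theorem rep_inj (c c' : ℕ) (w w' : List Bool)
    (h : List.replicate c false ++ true :: w = List.replicate c' false ++ true :: w') :
    c = c' ∧ w = w' := by
  induction c generalizing c' with
  | zero =>
    cases c' with
    | zero => simpa using h
    | succ c' => simp [List.replicate_succ] at h
  | succ c ih =>
    cases c' with
    | zero => simp [List.replicate_succ] at h
    | succ c' =>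
      rw [List.replicate_succ, List.replicate_succ, List.cons_append, List.cons_append,
        List.cons.injEq] at h
      obtain ⟨h1, h2⟩ := ih c' h.2
      exact ⟨by rw [h1], h2⟩

theorem hstr_rev (h : List ℕ) : ∃ w, (hstr h).reverse = true :: w := by
  cases h with
  | nil => exact ⟨[], rfl⟩
  | cons c h => exact ⟨_, by rw [hstr, List.reverse_append]; rfl⟩

theorem hstr_inj (h h' : List ℕ) (hh : hstr h = hstr h') : h = h' := by
  induction h generalizing h' with
  | nil =>
    cases h' with
    | nil => rfl
    | cons c h' =>
      exfalso
      have h1 := congrArg List.length hh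
      obtain ⟨w, hw⟩ := hstr_rev h'
      have h2 := congrArg List.length hw
      rw [List.length_reverse, List.length_cons] at h2
      simp only [hstr, List.length_append, List.length_cons, List.length_nil,
        List.length_replicate] at h1
      omega
  | cons c h ih =>
    cases h' with
    | nil =>
      exfalso
      have h1 := congrArg List.length hh
      obtain ⟨w, hw⟩ := hstr_rev h
      have h2 := congrArg List.length hw
      rw [List.length_reverse, List.length_cons] at h2
      simp only [hstr, List.length_append, List.length_cons, List.length_nil,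
        List.length_replicate] at h1
      omega
    | cons c' h' =>
      rw [hstr, hstr] at hh
      have h1 := List.append_cancel_right hh
      have h2 := congrArg List.reverse h1
      rw [List.reverse_append, List.reverse_append, List.reverse_replicate,
        List.reverse_replicate] at h2
      obtain ⟨w, hw⟩ := hstr_rev h
      obtain ⟨w', hw'⟩ := hstr_rev h'
      rw [hw, hw'] at h2
      obtain ⟨h3, h4⟩ := rep_inj c c' w w' h2
      have h5 : (hstr h).reverse = (hstr h').reverse := by rw [hw, hw', h4]
      rw [h3, ih h' (List.reverse_injective h5)]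

theorem un_inj {α : Type} {n m : ℕ} (h : (un n : List (Trk α)) = un m) : n = m := by
  have := congrArg List.length h
  simpa [un] using this

theorem bs_inj {α : Type} {s s' : List Bool} (h : (bs s : List (Trk α)) = bs s') : s = s' :=
  List.map_injective_iff.2 Sum.inr_injective h

theorem zipT_length {α : Type} (d τ : Bool) (t : Fin 4 → List (Trk α)) :
    (zipT d τ t).length = Finset.univ.sup fun j => (t j).length := by
  simp [zipT]

theorem zipT_get {α : Type} (d τ : Bool) (t : Fin 4 → List (Trk α)) (i : ℕ)
    (hi : i < Finset.univ.sup fun j => (t j).length) :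
    (zipT d τ t)[i]? = some (Sum.inr (d, τ, fun j => (t j)[i]?)) := by
  simp [zipT, List.getElem?_map, List.getElem?_range hi]

/-- zipped tracks determine the tracks -/
theorem zipT_inj {α : Type} {d d' τ τ' : Bool} {t t' : Fin 4 → List (Trk α)} (j0 : Fin 4)
    (h0 : 0 < (t j0).length) (h : zipT d τ t = zipT d' τ' t') : d = d' ∧ τ = τ' ∧ t = t' := by
  have hlen := congrArg List.length h
  rw [zipT_length, zipT_length] at hlen
  have hpos : 0 < Finset.univ.sup fun j => (t j).length :=
    lt_of_lt_of_le h0 (Finset.le_sup (f := fun j => (t j).length) (Finset.mem_univ j0))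
  have key : ∀ i, i < (Finset.univ.sup fun j => (t j).length) →
      d = d' ∧ τ = τ' ∧ (fun j => (t j)[i]?) = fun j => (t' j)[i]? := by
    intro i hi
    have h1 : (zipT d τ t)[i]? = (zipT d' τ' t')[i]? := by rw [h]
    rw [zipT_get d τ t i hi, zipT_get d' τ' t' i (by rwa [← hlen])] at h1
    rw [Option.some.injEq, Sum.inr.injEq, Prod.mk.injEq, Prod.mk.injEq] at h1
    exact h1
  refine ⟨(key 0 hpos).1, (key 0 hpos).2.1, ?_⟩
  funext j
  apply List.ext_getElem?
  intro i
  by_cases hi : i < Finset.univ.sup fun j => (t j).length
  · exact congrFun (key i hi).2.2 j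
  · have h1 : (t j).length ≤ Finset.univ.sup fun j => (t j).length :=
      Finset.le_sup (f := fun j => (t j).length) (Finset.mem_univ j)
    have h2 : (t' j).length ≤ Finset.univ.sup fun j => (t' j).length :=
      Finset.le_sup (f := fun j => (t' j).length) (Finset.mem_univ j)
    rw [List.getElem?_eq_none (by omega), List.getElem?_eq_none (by omega)]

theorem tracks_pos {α : Type} (κ : ℕ → List α) (x : Conf) : 0 < (tracks κ x 1).length := by
  have h1 : ∀ h, 0 < (hstr h).length := by
    intro h
    obtain ⟨w, hw⟩ := hstr_rev h
    have h2 := congrArg List.length hw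
    rw [List.length_reverse, List.length_cons] at h2
    omega
  cases x with
  | A h g s c =>
    change 0 < ((hstr h).map Sum.inr).length
    rw [List.length_map]
    exact h1 h
  | B h a b =>
    change 0 < ((hstr h).map Sum.inr).length
    rw [List.length_map]
    exact h1 h

theorem codeInjT : S_CODEINJ := by
  intro α κ hκ d d' x x' hxx
  obtain ⟨h1, h2, h3⟩ := zipT_inj 1 (tracks_pos κ x) hxx
  refine ⟨h1, ?_⟩
  have hmap : ∀ a b : ℕ, ((κ a).map Sum.inl : List (Trk α)) = (κ b).map Sum.inl → a = b :=
    fun a b h => hκ (List.map_injective_iff.2 Sum.inl_injective h)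
  cases x with
  | A h g s c =>
    cases x' with
    | A h' g' s' c' =>
      have e0 := un_inj (congrFun h3 0)
      have e1 := hstr_inj _ _ (bs_inj (congrFun h3 1))
      have e2 := bs_inj (congrFun h3 2)
      have e3 := un_inj (congrFun h3 3)
      subst e1
      have e4 : c = c' := by omega
      rw [e0, e2, e4]
    | B h' a' b' =>
      exact absurd h2 (by simp [phase])
  | B h a b =>
    cases x' with
    | A h' g' s' c' =>
      exact absurd h2 (by simp [phase])
    | B h' a' b' =>
      have e1 := hstr_inj _ _ (bs_inj (congrFun h3 1))
      have e2 := hmap _ _ (congrFun h3 2)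
      have e3 := hmap _ _ (congrFun h3 3)
      rw [e1, e2, e3]

end Pool.Agent.Q201.SC
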