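import Pool.Agent.Q201.SC.Stm

set_option autoImplicit false

namespace Pool.Agent.Q201.SC

theorem comapT : S_COMAP := by
  rintro ι κ U f R ⟨S, fin, step, s₀, F, h⟩
  refine ⟨S, fin, fun s x => step s (fun j => x (f j)), s₀, F, fun u N hN => ?_⟩
  refine (h (fun j => u (f j)) N (fun j => hN (f j))).trans ?_
  have : ((List.range N).map (ltr (fun j => u (f j)))).foldl step s₀ =
      ((List.range N).map (ltr u)).foldl (fun s x => step s (fun j => x (f j))) s₀ := by
    rw [List.foldl_map, List.foldl_map]
    rfl
  rw [this]

end Pool.Agent.Q201.SC
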