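import Pool.Agent.Q201.SC.Stm

set_option autoImplicit false

namespace Pool.Agent.Q201.SC

theorem constT : S_CONST := by
  intro U _ w
  refine ⟨Fin (w.length + 1) × Prop, inferInstance,
    fun p x => (⟨min (p.1.val + 1) w.length, by omega⟩, p.2 ∧ x () = w[p.1.val]?),
    (⟨0, by omega⟩, True), fun p => p.2 ∧ p.1.val = w.length, fun u N hN => ?_⟩
  have key : ∀ N : ℕ, (((List.range N).map (ltr u)).foldl
      (fun (p : Fin (w.length + 1) × Prop) x =>
        ((⟨min (p.1.val + 1) w.length, by omega⟩ : Fin (w.length + 1)), p.2 ∧ x () = w[p.1.val]?))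
      ((⟨0, by omega⟩ : Fin (w.length + 1)), True)) =
      ((⟨min N w.length, by omega⟩ : Fin (w.length + 1)), ∀ i < N, (u ())[i]? = w[i]?) := by
    intro N
    induction N with
    | zero => simp
    | succ N ih =>
      rw [List.range_succ, List.map_append, List.foldl_append, ih]
      simp only [List.map_cons, List.map_nil, List.foldl_cons, List.foldl_nil, Prod.mk.injEq,
        Fin.mk.injEq, eq_iff_iff]
      refine ⟨by omega, ?_⟩
      have e : w[min N w.length]? = w[N]? := by
        rcases le_total N w.length with h | h
        · rw [min_eq_left h]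
        · rw [min_eq_right h, List.getElem?_eq_none (le_refl _), List.getElem?_eq_none h]
      rw [e]
      constructor
      · rintro ⟨h1, h2⟩ i hi
        rcases Nat.lt_succ_iff_lt_or_eq.mp hi with h | h
        · exact h1 i h
        · subst h; exact h2
      · intro h1
        exact ⟨fun i hi => h1 i (by omega), h1 N (by omega)⟩
  rw [key N]
  have hu : (u ()).length ≤ N := hN ()
  constructor
  · intro h
    refine ⟨fun i _ => by rw [h], ?_⟩
    simp only
    rw [h] at hu
    omega
  · rintro ⟨h1, h2⟩
    simp only at h2
    apply List.ext_getElem?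
    intro i
    rcases lt_or_ge i N with h | h
    · exact h1 i h
    · rw [List.getElem?_eq_none (by omega), List.getElem?_eq_none (by omega)]

end Pool.Agent.Q201.SC
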