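import Pool.Agent.Q201.SC.TrkP

set_option autoImplicit false

/-! # The codes form a recognisable set -/

namespace Pool.Agent.Q137.SC
open Pool.Agent.Q201.SC

theorem map_inl_inj {A B : Type} {s t : List A}
    (h : s.map (Sum.inl : A → A ⊕ B) = t.map Sum.inl) : s = t :=
  List.map_injective_iff.2 Sum.inl_injective h

/-- histories and unary strings at least as long -/
theorem hun (tk : TK) {α : Type} [Finite α] :
    Rec2 (fun u v : List (Lt α) => ∃ h c, u = (hstr h).map emb ∧
      v = (List.replicate (ell h + c) false).map emb) := by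
  have := (trk tk α).2.2.2.2.2.2.1
  simpa only [un_map, bs_map] using this

/-- histories and strings of a constant letter of the same length -/
theorem hcst (tk : TK) {α : Type} [Finite α] (b : Bool) :
    Rec2 (fun u v : List (Lt α) => ∃ h, u = (hstr h).map emb ∧
      v = (List.replicate (ell h) b).map emb) := by
  have := (trk tk α).2.2.2.2.2.1 b
  simpa only [un_map, bs_map] using this

theorem recA (tk : TK) {α : Type} [Finite α] (κ : ℕ → List α) :
    Rec (fun u : Fin 4 → List (Lt α) => ∃ h g s c, ∀ j,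
      u j = (tracks κ (Conf.A h g s c) j).map Sum.inl) := by
  have h1 := pull1 tk (ι := Fin 4) (unb tk (α := α) false) 0
  have h2 := pull2 tk (ι := Fin 4) (hun tk (α := α)) 1 3
  have h3 := pull1 tk (ι := Fin 4) (bits tk (α := α)) 2
  refine Rec.congr (and' tk h1 (and' tk h2 h3)) fun u => ?_
  constructor
  · rintro ⟨⟨g, e0⟩, ⟨h, c, e1, e3⟩, s, e2⟩
    refine ⟨h, g, s, c, ?_⟩
    intro j
    fin_cases j
    · exact e0.trans (un_map g).symm
    · exact e1.trans (bs_map _).symm
    · exact e2.trans (bs_map _).symm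
    · exact e3.trans (un_map _).symm
  · rintro ⟨h, g, s, c, e⟩
    exact ⟨⟨g, (e 0).trans (un_map g)⟩, ⟨h, c, (e 1).trans (bs_map _), (e 3).trans (un_map _)⟩,
      s, (e 2).trans (bs_map _)⟩

theorem recB (tk : TK) {α : Type} (κ : ℕ → List α) (e : ℕ ≃ ℕ) (kd : KD α κ e) :
    Rec (fun u : Fin 4 → List (Lt α) => ∃ h a b, ∀ j,
      u j = (tracks κ (Conf.B h a b) j).map Sum.inl) := by
  have := kd.fin
  have h0 := pull1 tk (ι := Fin 4) (tk.const (Lt α) []) 0
  have h1 := pull1 tk (ι := Fin 4) (hist tk (α := α)) 1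
  have h2 := pull1 tk (ι := Fin 4) kd.dom 2
  have h3 := pull1 tk (ι := Fin 4) kd.dom 3
  refine Rec.congr (and' tk h0 (and' tk h1 (and' tk h2 h3))) fun u => ?_
  constructor
  · rintro ⟨e0, ⟨h, e1⟩, ⟨a, e2⟩, b, e3⟩
    refine ⟨h, a, b, ?_⟩
    intro j
    fin_cases j
    · exact e0
    · exact e1.trans (bs_map _).symm
    · exact e2.trans (by simp [tracks])
    · exact e3.trans (by simp [tracks])
  · rintro ⟨h, a, b, e⟩
    exact ⟨e 0, ⟨h, (e 1).trans (bs_map _)⟩, ⟨a, (e 2).trans (by simp [tracks])⟩,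
      b, (e 3).trans (by simp [tracks])⟩

theorem tr_eq {α : Type} {t t' : Fin 4 → List (Trk α)}
    (h : ∀ j, (t j).map (Sum.inl : Trk α → Lt α) = (t' j).map Sum.inl) : t = t' :=
  funext fun j => map_inl_inj (h j)

theorem dom : S_DOM := by
  intro tk _ _ α κ e kd d
  have := kd.fin
  have hA := zip1 tk d true (recA tk κ)
  have hB := zip1 tk d false (recB tk κ e kd)
  refine Rec.congr (or' tk hA hB) fun u => ?_
  constructor
  · rintro (⟨t, ⟨h, g, s, c, ht⟩, hw⟩ | ⟨t, ⟨h, a, b, ht⟩, hw⟩)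
    · exact ⟨Conf.A h g s c, by rw [hw, tr_eq ht]; rfl⟩
    · exact ⟨Conf.B h a b, by rw [hw, tr_eq ht]; rfl⟩
  · rintro ⟨x, hx⟩
    cases x with
    | A h g s c => exact Or.inl ⟨_, ⟨h, g, s, c, fun j => rfl⟩, hx⟩
    | B h a b => exact Or.inr ⟨_, ⟨h, a, b, fun j => rfl⟩, hx⟩

end Pool.Agent.Q137.SC

namespace Pool.Agent.Q201.SC

/-- the codes of one copy form a recognisable set -/
theorem domT : S_DOM := Pool.Agent.Q137.SC.dom

end Pool.Agent.Q201.SC
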