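import Pool.Agent.Q201.SC.Stm

/-!
Project SC: the job SC-11 (enumeration in the shortlex order).
-/

set_option autoImplicit false

namespace Pool.Agent.Q201.SC

theorem slex_trans {U : Type} [LinearOrder U] {a b c : List U}
    (h1 : List.Shortlex (· < ·) a b) (h2 : List.Shortlex (· < ·) b c) :
    List.Shortlex (· < ·) a c := by
  rw [List.shortlex_def] at *
  rcases h1 with h1 | ⟨h1, h1'⟩ <;> rcases h2 with h2 | ⟨h2, h2'⟩
  · exact Or.inl (h1.trans h2)
  · exact Or.inl (h2 ▸ h1)
  · exact Or.inl (h1 ▸ h2)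
  · have e1 : a < b := (List.lt_iff_lex_lt _ _).2 h1'
    have e2 : b < c := (List.lt_iff_lex_lt _ _).2 h2'
    have e3 : a < c := lt_trans e1 e2
    exact Or.inr ⟨h1.trans h2, (List.lt_iff_lex_lt _ _).1 e3⟩

theorem slex_irrefl {U : Type} [LinearOrder U] {a : List U} :
    ¬ List.Shortlex (· < ·) a a := by
  rw [List.shortlex_def]
  rintro (h | ⟨-, h⟩)
  · exact lt_irrefl _ h
  · exact lt_irrefl a ((List.lt_iff_lex_lt _ _).2 h)

theorem slex_total {U : Type} [LinearOrder U] {a b : List U} (h : a ≠ b) :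
    List.Shortlex (· < ·) a b ∨ List.Shortlex (· < ·) b a := by
  rw [List.shortlex_def, List.shortlex_def]
  rcases lt_trichotomy a.length b.length with h1 | h1 | h1
  · exact Or.inl (Or.inl h1)
  · rcases lt_or_gt_of_ne h with h2 | h2
    · exact Or.inl (Or.inr ⟨h1, (List.lt_iff_lex_lt _ _).1 h2⟩)
    · exact Or.inr (Or.inr ⟨h1.symm, (List.lt_iff_lex_lt _ _).1 h2⟩)
  · exact Or.inr (Or.inl h1)

theorem enumT : S_ENUM := by
  classical
  intro C U _ _ _ κ hκ
  have hfin : ∀ c : C, {c' : C | List.Shortlex (· < ·) (κ c') (κ c)}.Finite := by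
    intro c
    have h1 : {l : List U | l.length ≤ (κ c).length}.Finite := List.finite_length_le U _
    refine (h1.preimage (hκ.injOn (s := Set.univ) |>.mono (Set.subset_univ _))).subset ?_
    intro c' hc'
    have h2 : List.Shortlex (· < ·) (κ c') (κ c) := hc'
    rw [List.shortlex_def] at h2
    change (κ c').length ≤ (κ c).length
    rcases h2 with h2 | ⟨h2, -⟩
    · exact h2.le
    · exact h2.le
  let rk : C → ℕ := fun c => {c' : C | List.Shortlex (· < ·) (κ c') (κ c)}.ncard
  have hmono : ∀ c c', List.Shortlex (· < ·) (κ c) (κ c') → rk c < rk c' := by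
    intro c c' h
    apply Set.ncard_lt_ncard _ (hfin c')
    refine ⟨fun x hx => slex_trans hx h, fun hsub => ?_⟩
    exact slex_irrefl (hsub h)
  have hinj : Function.Injective rk := by
    intro c c' h
    by_contra hne
    rcases slex_total (fun h' => hne (hκ h')) with h1 | h1
    · exact absurd h (hmono _ _ h1).ne
    · exact absurd h (hmono _ _ h1).ne'
  have hrefl : ∀ c c', rk c < rk c' → List.Shortlex (· < ·) (κ c) (κ c') := by
    intro c c' h
    have hne : c ≠ c' := fun h' => by rw [h'] at h; exact lt_irrefl _ h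
    rcases slex_total (fun h' => hne (hκ h')) with h1 | h1
    · exact h1
    · exact absurd (hmono _ _ h1) (not_lt.2 h.le)
  have : Infinite (Set.range rk) := by
    rw [Set.infinite_coe_iff]
    exact Set.infinite_range_of_injective hinj
  let E1 : C ≃ Set.range rk := Equiv.ofInjective rk hinj
  let E2 : ℕ ≃o Set.range rk := Nat.Subtype.orderIsoOfNat (Set.range rk)
  refine ⟨E2.toEquiv.trans E1.symm, fun i j hij => ?_⟩
  apply hrefl
  have h1 : ∀ n, rk (E1.symm (E2 n)) = (E2 n : ℕ) := by
    intro n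
    have : ((E1 (E1.symm (E2 n)) : Set.range rk) : ℕ) = (E2 n : ℕ) := by rw [Equiv.apply_symm_apply]
    exact this
  change rk (E1.symm (E2 i)) < rk (E1.symm (E2 j))
  rw [h1, h1]
  exact E2.strictMono hij

end Pool.Agent.Q201.SC
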