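import Pool.Agent.Q201.SC.Stm

set_option autoImplicit false

namespace Pool.Agent.Q201.SC

section

variable {ι U S : Type}

/-- the state after `N` letters -/
private def rn {κ : Type} (step : S → (κ → Option U) → S) (s₀ : S) (w : κ → List U) (N : ℕ) : S :=
  ((List.range N).map (ltr w)).foldl step s₀

private theorem rn_succ {κ : Type} (step : S → (κ → Option U) → S) (s₀ : S) (w : κ → List U)
    (N : ℕ) : rn step s₀ w (N + 1) = step (rn step s₀ w N) (ltr w N) := by
  rw [rn, List.range_succ, List.map_append, List.foldl_append]
  rfl

private theorem rn_congr {κ : Type} (step : S → (κ → Option U) → S) (s₀ : S)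
    (w w' : κ → List U) (N : ℕ) (h : ∀ i < N, ltr w i = ltr w' i) :
    rn step s₀ w N = rn step s₀ w' N := by
  rw [rn, rn]
  congr 1
  apply List.map_congr_left
  intro i hi
  exact h i (List.mem_range.mp hi)

/-- the combined letter -/
private def lt (y : Option U) (x : ι → Option U) : Option ι → Option U := fun o => o.elim y x

private theorem ltr_elim (v : List U) (u : ι → List U) (i : ℕ) :
    ltr (fun o : Option ι => o.elim v u) i = lt (v[i]?) (ltr u i) := by
  funext o
  cases o <;> rfl

/-- the subset automaton -/
private def T (step : S → (Option ι → Option U) → S) (X : Set (S × Bool)) (x : ι → Option U) :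
    Set (S × Bool) :=
  {z | (∃ s, (s, false) ∈ X ∧ ((∃ y : U, z = (step s (lt (some y) x), false)) ∨
      z = (step s (lt none x), true))) ∨
    (∃ s, (s, true) ∈ X ∧ z = (step s (lt none x), true))}

private theorem char (step : S → (Option ι → Option U) → S) (s₀ : S) (u : ι → List U) (N : ℕ) :
    ((List.range N).map (ltr u)).foldl (T step) {(s₀, false)} =
      {z | ∃ v : List U, v.length ≤ N ∧ (z.2 = true ↔ v.length < N) ∧
        z.1 = rn step s₀ (fun o : Option ι => o.elim v u) N} := by
  induction N with
  | zero =>
    ext ⟨s, e⟩
    simp only [List.range_zero, List.map_nil, List.foldl_nil, Set.mem_singleton_iff,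
      Prod.mk.injEq, Set.mem_ofPred_eq]
    constructor
    · rintro ⟨rfl, rfl⟩
      exact ⟨[], by simp, by simp, rfl⟩
    · rintro ⟨v, h1, h2, h3⟩
      refine ⟨h3, ?_⟩
      cases e
      · rfl
      · exact absurd (h2.mp rfl) (by omega)
  | succ N ih =>
    rw [List.range_succ, List.map_append, List.foldl_append, ih]
    simp only [List.map_cons, List.map_nil, List.foldl_cons, List.foldl_nil]
    ext ⟨s, e⟩
    simp only [T, Set.mem_ofPred_eq, Prod.mk.injEq]
    constructor
    · rintro (⟨s', ⟨v, h1, h2, h3⟩, h4⟩ | ⟨s', ⟨v, h1, h2, h3⟩, rfl, rfl⟩)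
      · have hv : v.length = N := by
          have : ¬ v.length < N := fun hh => by simpa using h2.mpr hh
          omega
        rcases h4 with ⟨y, rfl, rfl⟩ | ⟨rfl, rfl⟩
        · refine ⟨v ++ [y], by simp [hv], by simp [hv], ?_⟩
          rw [rn_succ, ltr_elim]
          have e1 : (v ++ [y])[N]? = some y := by
            rw [List.getElem?_append_right (by omega)]
            simp [hv]
          rw [e1]
          rw [h3]
          congr 1
          apply rn_congr
          intro i hi
          rw [ltr_elim, ltr_elim, List.getElem?_append_left (by omega)]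
        · refine ⟨v, by omega, by simp [hv], ?_⟩
          rw [rn_succ, ltr_elim, List.getElem?_eq_none (by omega)]
          rw [h3]
      · have hv : v.length < N := h2.mp (by trivial)
        refine ⟨v, by omega, by simp; omega, ?_⟩
        rw [rn_succ, ltr_elim, List.getElem?_eq_none (by omega)]
        rw [h3]
    · rintro ⟨v, h1, h2, h3⟩
      rw [rn_succ, ltr_elim] at h3
      rcases lt_trichotomy v.length N with hv | hv | hv
      · right
        refine ⟨_, ⟨v, by omega, by simp [hv], rfl⟩, ?_, ?_⟩
        · rw [h3, List.getElem?_eq_none (by omega)]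
        · exact h2.mpr (by omega)
      · left
        refine ⟨_, ⟨v, by omega, by simp [hv], rfl⟩, Or.inr ⟨?_, h2.mpr (by omega)⟩⟩
        rw [h3, List.getElem?_eq_none (by omega)]
      · left
        have hv' : v.length = N + 1 := by omega
        refine ⟨rn step s₀ (fun o : Option ι => o.elim (v.take N) u) N,
          ⟨v.take N, by simp, by simp [hv'], rfl⟩, Or.inl ⟨v[N], ?_, ?_⟩⟩
        · rw [h3, List.getElem?_eq_getElem (by omega)]
          congr 1
          apply rn_congr
          intro i hi
          rw [ltr_elim, ltr_elim, List.getElem?_take_of_lt hi]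
        · cases e
          · rfl
          · exact absurd (h2.mp rfl) (by omega)

private theorem rn_add (step : S → (Option ι → Option U) → S) (s₀ : S) (u : ι → List U) (N : ℕ)
    (hN : ∀ j, (u j).length ≤ N) (v l : List U) (hv : v.length = N) :
    rn step s₀ (fun o : Option ι => o.elim (v ++ l) u) (N + l.length) =
      (l.map (fun y => lt (some y) (fun _ : ι => none))).foldl step
        (rn step s₀ (fun o : Option ι => o.elim v u) N) := by
  rw [rn, List.range_add, List.map_append, List.foldl_append]
  have e1 : ((List.range N).map (ltr (fun o : Option ι => o.elim (v ++ l) u))).foldl step s₀ =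
      rn step s₀ (fun o : Option ι => o.elim v u) N := by
    refine rn_congr step s₀ _ _ N ?_
    intro i hi
    rw [ltr_elim, ltr_elim, List.getElem?_append_left (by omega)]
  rw [e1, List.map_map]
  congr 1
  apply List.ext_getElem
  · simp
  · intro i h1 h2
    simp only [List.getElem_map, List.getElem_range, Function.comp]
    rw [ltr_elim]
    have hi : i < l.length := by simpa using h1
    congr 1
    · rw [List.getElem?_append_right (by omega), hv, Nat.add_sub_cancel_left,
        List.getElem?_eq_getElem hi]
    · funext j
      exact List.getElem?_eq_none (by have := hN j; omega)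

theorem exT : S_EX := by
  rintro ι U R ⟨S, fin, step, s₀, F, h⟩
  refine ⟨Set (S × Bool), inferInstance, T step, {(s₀, false)},
    fun X => ∃ s e, (s, e) ∈ X ∧ (F s ∨ (e = false ∧
      ∃ l : List U, F ((l.map (fun y => lt (some y) (fun _ : ι => none))).foldl step s))),
    fun u N hN => ?_⟩
  rw [char]
  constructor
  · rintro ⟨v, hv⟩
    rcases le_or_gt v.length N with h1 | h1
    · have h2 := (h (fun o => o.elim v u) N (by
        intro j
        cases j
        · exact h1
        · exact hN _)).mp hv
      by_cases h3 : v.length < N
      · exact ⟨_, true, ⟨v, h1, by simp [h3], rfl⟩, Or.inl h2⟩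
      · exact ⟨_, false, ⟨v, h1, by simp [h3], rfl⟩, Or.inl h2⟩
    · have h2 := (h (fun o => o.elim v u) v.length (by
        intro j
        cases j
        · exact le_refl _
        · exact (hN _).trans h1.le)).mp hv
      have hl : (v.take N).length = N := by simp; omega
      refine ⟨_, false, ⟨v.take N, by simp, by simp [h1.le], rfl⟩, Or.inr ⟨rfl, v.drop N, ?_⟩⟩
      have h3 := rn_add step s₀ u N hN (v.take N) (v.drop N) hl
      rw [List.take_append_drop] at h3
      refine Eq.mp (congrArg F h3) ?_
      have : N + (v.drop N).length = v.length := by simp; omega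
      rw [this]
      exact h2
  · rintro ⟨s, e, ⟨v, h1, h2, h3⟩, h4⟩
    change e = true ↔ _ at h2
    change s = _ at h3
    rcases h4 with h4 | ⟨rfl, l, h4⟩
    · refine ⟨v, (h (fun o => o.elim v u) N (by
        intro j
        cases j
        · exact h1
        · exact hN _)).mpr ?_⟩
      rw [h3] at h4
      exact h4
    · have hv : v.length = N := by
        have : ¬ v.length < N := fun hh => by simpa using h2.mpr hh
        omega
      refine ⟨v ++ l, (h (fun o => o.elim (v ++ l) u) (N + l.length) (by
        intro j
        cases j
        · simp [hv]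
        · exact (hN _).trans (by omega))).mpr ?_⟩
      rw [h3, ← rn_add step s₀ u N hN v l hv] at h4
      exact h4

end

end Pool.Agent.Q201.SC
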