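import Pool.Agent.Q201.SC.DomP

set_option autoImplicit false

/-! # Change of the copy -/

namespace Pool.Agent.Q137.SC
open Pool.Agent.Q201.SC

/-- all four tracks are equal -/
theorem eqs (tk : TK) {U : Type} [Finite U] :
    Rec (fun u : Fin 4 ⊕ Fin 4 → List U => ∀ j, u (Sum.inl j) = u (Sum.inr j)) := by
  refine Rec.congr (letw tk (ι := Fin 4 ⊕ Fin 4) (U := U) fun x => ∀ j,
    x (Sum.inl j) = x (Sum.inr j)) fun u => ?_
  constructor
  · exact fun h j => List.ext_getElem? fun i => h i j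
  · intro h i j
    unfold ltr
    rw [h]

theorem flip1 (tk : TK) {α : Type} [Finite α] (τ : Bool) {R : (Fin 4 → List (Lt α)) → Prop}
    (hR : Rec R) : Rec2 (fun w w' : List (Lt α) => ∃ t : Fin 4 → List (Trk α),
      R (fun j => (t j).map Sum.inl) ∧ w = zipT true τ t ∧ w' = zipT false τ t) := by
  have h1 : Rec (fun x : Fin 4 ⊕ Fin 4 → List (Lt α) => R (fun j => x (Sum.inl j))) :=
    tk.comap (Fin 4) (Fin 4 ⊕ Fin 4) _ Sum.inl R hR
  have h2 := zip2 tk true τ false τ (R := fun u v => R u ∧ ∀ j, u j = v j)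
    (and' tk h1 (eqs tk))
  refine Rec2.congr h2 fun w w' => ?_
  constructor
  · rintro ⟨t, t', ⟨h, he⟩, hw, hw'⟩
    have : t = t' := tr_eq he
    subst this
    exact ⟨t, h, hw, hw'⟩
  · rintro ⟨t, h, hw, hw'⟩
    exact ⟨t, t, ⟨h, fun _ => rfl⟩, hw, hw'⟩

theorem flip' : S_FLIP := by
  intro tk _ _ _ α κ e kd
  have := kd.fin
  have hA := flip1 tk true (recA tk κ)
  have hB := flip1 tk false (recB tk κ e kd)
  refine Rec.congr (or' tk hA hB) fun u => ?_
  constructor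
  · rintro (⟨t, ⟨h, g, s, c, ht⟩, hw, hw'⟩ | ⟨t, ⟨h, a, b, ht⟩, hw, hw'⟩)
    · exact ⟨Conf.A h g s c, by rw [hw, tr_eq ht]; rfl, by rw [hw', tr_eq ht]; rfl⟩
    · exact ⟨Conf.B h a b, by rw [hw, tr_eq ht]; rfl, by rw [hw', tr_eq ht]; rfl⟩
  · rintro ⟨x, hx, hx'⟩
    cases x with
    | A h g s c => exact Or.inl ⟨_, ⟨h, g, s, c, fun j => rfl⟩, hx, hx'⟩
    | B h a b => exact Or.inr ⟨_, ⟨h, a, b, fun j => rfl⟩, hx, hx'⟩

end Pool.Agent.Q137.SC

namespace Pool.Agent.Q201.SC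

/-- change of the copy is recognisable -/
theorem flipT : S_FLIP := Pool.Agent.Q137.SC.flip'

end Pool.Agent.Q201.SC
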