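import Pool.Agent.Q201.SC.Stm

/-!
# JOB SC-8
-/

set_option autoImplicit false

namespace Pool.Agent.Q201.SC

theorem conv2_get {α : Type} (u v : List α) (i : ℕ) (hi : i < max u.length v.length) :
    (conv2 u v)[i]? = some (u[i]?, v[i]?) := by
  unfold conv2
  rw [List.getElem?_map, List.getElem?_range hi]
  rfl

theorem conv2_len {α : Type} (u v : List α) : (conv2 u v).length = max u.length v.length := by
  simp [conv2]

theorem conv2_inj {α : Type} {u v u' v' : List α} (h : conv2 u v = conv2 u' v') :
    u = u' ∧ v = v' := by
  have hl : max u.length v.length = max u'.length v'.length := by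
    rw [← conv2_len, ← conv2_len, h]
  have hk : ∀ i : ℕ, u[i]? = u'[i]? ∧ v[i]? = v'[i]? := by
    intro i
    by_cases hi : i < max u.length v.length
    · have h1 := conv2_get u v i hi
      have h2 := conv2_get u' v' i (hl ▸ hi)
      rw [h, h2] at h1
      have h3 := Option.some.inj h1
      exact ⟨(congrArg Prod.fst h3).symm, (congrArg Prod.snd h3).symm⟩
    · have h1 : u.length ≤ i := by omega
      have h2 : v.length ≤ i := by omega
      have h3 : u'.length ≤ i := by omega
      have h4 : v'.length ≤ i := by omega
      rw [List.getElem?_eq_none h1, List.getElem?_eq_none h2, List.getElem?_eq_none h3,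
        List.getElem?_eq_none h4]
      exact ⟨rfl, rfl⟩
  exact ⟨List.ext_getElem? fun i => (hk i).1, List.ext_getElem? fun i => (hk i).2⟩

theorem exists_map {α U : Type} (f : α → U) (u : List U) (h : ∀ y ∈ u, ∃ a, f a = y) :
    ∃ a : List α, u = a.map f := by
  induction u with
  | nil => exact ⟨[], rfl⟩
  | cons y u ih =>
    obtain ⟨a, ha⟩ := h y (by simp)
    obtain ⟨l, hl⟩ := ih fun z hz => h z (by simp [hz])
    exact ⟨a :: l, by rw [List.map_cons, ha, ← hl]⟩

section aut

variable {α U σ : Type} (g : U → Option α) (M : DFA (Option α × Option α) σ)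

/-- decoding of a padded letter -/
def dcd (o : Option U) : Option (Option α) :=
  match o with
  | none => some none
  | some y => (g y).map some

/-- the transition on letters that are not completely padded -/
def stp (s : Option σ) (x y : Option U) : Option σ :=
  match s, dcd g x, dcd g y with
  | some s, some a, some b => some (M.step s (a, b))
  | _, _, _ => none

open Classical in
/-- the transition -/
noncomputable def stp' (s : Option σ) (x : Bool → Option U) : Option σ :=
  if x false = none ∧ x true = none then s else stp g M s (x false) (x true)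

theorem fold_tail (u : Bool → List U) (K m : ℕ) (hK : ∀ j, (u j).length ≤ K) (s : Option σ) :
    ((List.range (K + m)).map (ltr u)).foldl (stp' g M) s =
      ((List.range K).map (ltr u)).foldl (stp' g M) s := by
  induction m with
  | zero => rfl
  | succ m ih =>
    rw [← add_assoc, List.range_succ, List.map_append, List.foldl_append, ih]
    simp only [List.map_cons, List.map_nil, List.foldl_cons, List.foldl_nil]
    unfold stp'
    rw [if_pos]
    have h1 : ∀ j, ltr u (K + m) j = none := fun j => List.getElem?_eq_none (by
      have := hK j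
      omega)
    exact ⟨h1 _, h1 _⟩

theorem fold_alive (u : Bool → List U) (n : ℕ) (hn : n ≤ max (u false).length (u true).length)
    (s₀ s : σ) (h : ((List.range n).map (ltr u)).foldl (stp' g M) (some s₀) = some s) :
    ∀ i < n, (∃ a, dcd g (u false)[i]? = some a) ∧ ∃ b, dcd g (u true)[i]? = some b := by
  induction n generalizing s with
  | zero => intro i hi; omega
  | succ n ih =>
    rw [List.range_succ, List.map_append, List.foldl_append] at h
    simp only [List.map_cons, List.map_nil, List.foldl_cons, List.foldl_nil] at h
    have hne : ¬ (ltr u n false = none ∧ ltr u n true = none) := by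
      rintro ⟨h1, h2⟩
      have h3 := List.getElem?_eq_none_iff.1 h1
      have h4 := List.getElem?_eq_none_iff.1 h2
      omega
    unfold stp' at h
    rw [if_neg hne] at h
    change stp g M (((List.range n).map (ltr u)).foldl (stp' g M) (some s₀)) (ltr u n false)
      (ltr u n true) = some s at h
    obtain ⟨t, ht⟩ : ∃ t, ((List.range n).map (ltr u)).foldl (stp' g M) (some s₀) = t := ⟨_, rfl⟩
    rw [ht] at h
    cases t with
    | none => simp [stp] at h
    | some t =>
      rcases ha : dcd g (ltr u n false) with _ | a
      · simp [stp, ha] at h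
      · rcases hb : dcd g (ltr u n true) with _ | b
        · simp [stp, hb] at h
        · intro i hi
          rcases Nat.lt_succ_iff_lt_or_eq.1 hi with h1 | h1
          · exact ih (by omega) t ht i h1
          · subst h1
            exact ⟨⟨a, ha⟩, ⟨b, hb⟩⟩

theorem fold_dec (f : α → U) (hg : ∀ a, g (f a) = some a) (a b : List α) (u : Bool → List U)
    (hu : u false = a.map f) (hv : u true = b.map f) (n : ℕ) (hn : n ≤ max a.length b.length)
    (s₀ : σ) :
    ((List.range n).map (ltr u)).foldl (stp' g M) (some s₀) =
      some (((List.range n).map fun i => (a[i]?, b[i]?)).foldl M.step s₀) := by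
  induction n with
  | zero => rfl
  | succ n ih =>
    rw [List.range_succ, List.map_append, List.foldl_append, ih (by omega), List.map_append,
      List.foldl_append]
    simp only [List.map_cons, List.map_nil, List.foldl_cons, List.foldl_nil]
    have h1 : ltr u n false = (a[n]?).map f := by
      unfold ltr
      rw [hu, List.getElem?_map]
    have h2 : ltr u n true = (b[n]?).map f := by
      unfold ltr
      rw [hv, List.getElem?_map]
    have hne : ¬ (ltr u n false = none ∧ ltr u n true = none) := by
      rw [h1, h2, Option.map_eq_none_iff, Option.map_eq_none_iff, List.getElem?_eq_none_iff,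
        List.getElem?_eq_none_iff]
      omega
    have hd : ∀ o : Option α, dcd g (o.map f) = some o := by
      intro o
      cases o with
      | none => rfl
      | some y => simp [dcd, hg]
    unfold stp'
    rw [if_neg hne, h1, h2]
    simp [stp, hd]

end aut

theorem fromT : S_FROM := by
  classical
  intro α U _ f hf R ⟨σ, hσ, M, hM⟩
  obtain ⟨g, hg1, hg2⟩ : ∃ g : U → Option α, (∀ a, g (f a) = some a) ∧ ∀ y a, g y = some a → f a = y := by
    refine ⟨fun y => if h : ∃ a, f a = y then some h.choose else none, fun a => ?_, fun y a h => ?_⟩
    · have h1 : ∃ a', f a' = f a := ⟨a, rfl⟩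
      simp only
      rw [dif_pos h1, hf h1.choose_spec]
    · simp only at h
      split_ifs at h with h1
      · rw [← Option.some.inj h]
        exact h1.choose_spec
  refine ⟨Option σ, inferInstance, stp' g M, some M.start,
    fun s => ∃ t, s = some t ∧ t ∈ M.accept, ?_⟩
  intro u N hN
  obtain ⟨K, hK⟩ : ∃ K, K = max (u false).length (u true).length := ⟨_, rfl⟩
  have hKj : ∀ j, (u j).length ≤ K := by
    intro j
    cases j <;> omega
  have hKN : K ≤ N := by
    have h1 := hN false
    have h2 := hN true
    omega
  obtain ⟨m, rfl⟩ := Nat.exists_eq_add_of_le hKN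
  rw [fold_tail g M u K m hKj]
  constructor
  · rintro ⟨a, b, hR, h1, h2⟩
    have hK' : K = max a.length b.length := by
      rw [hK, h1, h2]
      simp
    rw [fold_dec g M f hg1 a b u h1 h2 K hK'.le]
    refine ⟨_, rfl, ?_⟩
    have h3 : conv2 a b ∈ M.accepts := by
      rw [hM]
      exact ⟨a, b, hR, rfl⟩
    rw [DFA.mem_accepts] at h3
    rw [hK']
    exact h3
  · rintro ⟨t, ht, hacc⟩
    have h1 := fold_alive g M u K hK.le M.start t ht
    have h2 : ∀ (o : Option U) (y : U), o = some y → (∃ a, dcd g o = some a) → ∃ a, f a = y := by
      rintro o y rfl ⟨a, ha⟩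
      unfold dcd at ha
      simp only [Option.map_eq_some_iff] at ha
      obtain ⟨c, hc, -⟩ := ha
      exact ⟨c, hg2 y c hc⟩
    obtain ⟨a, ha⟩ := exists_map f (u false) (by
      intro y hy
      obtain ⟨i, hi, hiy⟩ := List.getElem_of_mem hy
      exact h2 _ y (by rw [List.getElem?_eq_getElem hi, hiy]) (h1 i (by omega)).1)
    obtain ⟨b, hb⟩ := exists_map f (u true) (by
      intro y hy
      obtain ⟨i, hi, hiy⟩ := List.getElem_of_mem hy
      exact h2 _ y (by rw [List.getElem?_eq_getElem hi, hiy]) (h1 i (by omega)).2)
    have hK' : K = max a.length b.length := by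
      rw [hK, ha, hb]
      simp
    rw [fold_dec g M f hg1 a b u ha hb K hK'.le] at ht
    have h3 : conv2 a b ∈ M.accepts := by
      rw [DFA.mem_accepts]
      have h4 := Option.some.inj ht
      rw [hK'] at h4
      have h5 : M.eval (conv2 a b) = t := h4
      rw [h5]
      exact hacc
    rw [hM] at h3
    obtain ⟨a', b', hR, h4⟩ := h3
    obtain ⟨h5, h6⟩ := conv2_inj h4
    exact ⟨a, b, by rw [h5, h6]; exact hR, ha, hb⟩

end Pool.Agent.Q201.SC
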