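import Pool.Agent.Q201.SC.Stm

/-!
# Project SC: job SC-12 (helper251): gluing
-/

set_option autoImplicit false

namespace Pool.Agent.Q201.SC

theorem sux_ts {C : Type} {next prev : C → Option C} {nxs : C → C} {c c' : C}
    (h : next c = some c') : sux next prev nxs (true, c) = (true, c') := by
  simp only [sux, h]

theorem sux_tn {C : Type} {next prev : C → Option C} {nxs : C → C} {c : C}
    (h : next c = none) : sux next prev nxs (true, c) = (false, c) := by
  simp only [sux, h]

theorem sux_fs {C : Type} {next prev : C → Option C} {nxs : C → C} {c c' : C}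
    (h : prev c = some c') : sux next prev nxs (false, c) = (false, c') := by
  simp only [sux, h]

theorem sux_fn {C : Type} {next prev : C → Option C} {nxs : C → C} {c : C}
    (h : prev c = none) : sux next prev nxs (false, c) = (true, nxs c) := by
  simp only [sux, h]

section

variable {C : Type} {next prev : C → Option C} {e : ℕ → C} {nxs : C → C}

theorem sux_inj (h1 : ∀ c c', next c = some c' ↔ prev c' = some c) (he : Function.Injective e)
    (hs : ∀ c, prev c = none ↔ ∃ i, e i = c) (hnx : ∀ i, nxs (e i) = e (i + 1)) :
    Function.Injective (sux next prev nxs) := by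
  have key : ∀ c d, sux next prev nxs (true, c) ≠ sux next prev nxs (false, d) := by
    intro c d h
    rcases hc : next c with _ | c'
    · rw [sux_tn hc] at h
      rcases hd : prev d with _ | d'
      · rw [sux_fn hd] at h
        exact absurd (congrArg Prod.fst h) (by simp)
      · rw [sux_fs hd] at h
        have h2 : c = d' := congrArg Prod.snd h
        rw [← h2, ← h1, hc] at hd
        exact absurd hd (by simp)
    · rw [sux_ts hc] at h
      rcases hd : prev d with _ | d'
      · rw [sux_fn hd] at h
        have h2 : c' = nxs d := congrArg Prod.snd h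
        obtain ⟨i, rfl⟩ := (hs d).1 hd
        rw [hnx] at h2
        have h3 := (hs c').2 ⟨i + 1, h2.symm⟩
        rw [(h1 c c').1 hc] at h3
        exact absurd h3 (by simp)
      · rw [sux_fs hd] at h
        exact absurd (congrArg Prod.fst h) (by simp)
  rintro ⟨b, c⟩ ⟨b', d⟩ h
  cases b
  · cases b'
    · rcases hc : prev c with _ | c'
      · rw [sux_fn hc] at h
        rcases hd : prev d with _ | d'
        · rw [sux_fn hd] at h
          have h2 : nxs c = nxs d := congrArg Prod.snd h
          obtain ⟨i, rfl⟩ := (hs c).1 hc
          obtain ⟨j, rfl⟩ := (hs d).1 hd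
          rw [hnx, hnx] at h2
          have h3 := he h2
          have h4 : i = j := by omega
          rw [h4]
        · rw [sux_fs hd] at h
          exact absurd (congrArg Prod.fst h) (by simp)
      · rw [sux_fs hc] at h
        rcases hd : prev d with _ | d'
        · rw [sux_fn hd] at h
          exact absurd (congrArg Prod.fst h) (by simp)
        · rw [sux_fs hd] at h
          have h2 : c' = d' := congrArg Prod.snd h
          rw [← h2, ← h1] at hd
          rw [← h1] at hc
          rw [hc] at hd
          rw [Option.some.inj hd]
    · exact absurd h.symm (key d c)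
  · cases b'
    · exact absurd h (key c d)
    · rcases hc : next c with _ | c'
      · rw [sux_tn hc] at h
        rcases hd : next d with _ | d'
        · rw [sux_tn hd] at h
          have h2 : c = d := congrArg Prod.snd h
          rw [h2]
        · rw [sux_ts hd] at h
          exact absurd (congrArg Prod.fst h) (by simp)
      · rw [sux_ts hc] at h
        rcases hd : next d with _ | d'
        · rw [sux_tn hd] at h
          exact absurd (congrArg Prod.fst h) (by simp)
        · rw [sux_ts hd] at h
          have h2 : c' = d' := congrArg Prod.snd h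
          rw [← h2, h1] at hd
          rw [h1] at hc
          rw [hc] at hd
          rw [Option.some.inj hd]

theorem sux_ne (h1 : ∀ c c', next c = some c' ↔ prev c' = some c) (he : Function.Injective e)
    (hs : ∀ c, prev c = none ↔ ∃ i, e i = c) (hnx : ∀ i, nxs (e i) = e (i + 1))
    (x : Bool × C) : sux next prev nxs x ≠ (true, e 0) := by
  intro h
  obtain ⟨b, c⟩ := x
  cases b
  · rcases hc : prev c with _ | c'
    · rw [sux_fn hc] at h
      have h2 : nxs c = e 0 := congrArg Prod.snd h
      obtain ⟨i, rfl⟩ := (hs c).1 hc
      rw [hnx] at h2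
      exact absurd (he h2) (by omega)
    · rw [sux_fs hc] at h
      exact absurd (congrArg Prod.fst h) (by simp)
  · rcases hc : next c with _ | c'
    · rw [sux_tn hc] at h
      exact absurd (congrArg Prod.fst h) (by simp)
    · rw [sux_ts hc] at h
      have h2 : c' = e 0 := congrArg Prod.snd h
      have h3 := (hs c').2 ⟨0, h2.symm⟩
      rw [(h1 c c').1 hc] at h3
      exact absurd h3 (by simp)

end

theorem glueT : S_GLUE := by
  intro C next prev e h1 hn hp he hs nxs hnx
  have hinj := sux_inj h1 he hs hnx
  have hne := sux_ne h1 he hs hnx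
  set F := sux next prev nxs with hF
  -- the iterates
  have hf1 : Function.Injective fun n : ℕ => F^[n] (true, e 0) := by
    have key : ∀ m k : ℕ, F^[m] (true, e 0) ≠ F^[m + (k + 1)] (true, e 0) := by
      intro m k h
      rw [Function.iterate_add_apply] at h
      have h2 := (hinj.iterate m) h
      rw [Function.iterate_succ_apply'] at h2
      exact hne _ h2.symm
    intro m n h
    rcases lt_trichotomy m n with h2 | h2 | h2
    · obtain ⟨k, rfl⟩ := Nat.exists_eq_add_of_lt h2
      exact absurd h (key m k)
    · exact h2
    · obtain ⟨k, rfl⟩ := Nat.exists_eq_add_of_lt h2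
      exact absurd h.symm (key n k)
  have hV : ∀ x, (∃ n : ℕ, F^[n] (true, e 0) = x) → ∃ n : ℕ, F^[n] (true, e 0) = F x := by
    rintro x ⟨n, rfl⟩
    exact ⟨n + 1, Function.iterate_succ_apply' _ _ _⟩
  have hB : ∀ c, (∃ n : ℕ, F^[n] (true, e 0) = (true, c)) →
      ∃ n : ℕ, F^[n] (true, e 0) = (false, c) := by
    intro c
    induction c using hn.induction with
    | _ c ih =>
      intro hc
      rcases hc' : next c with _ | c'
      · have h2 := hV _ hc
        rwa [hF, sux_tn hc'] at h2
      · have h2 := hV _ hc
        rw [hF, sux_ts hc'] at h2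
        have h3 := hV _ (ih c' hc' h2)
        rwa [hF, sux_fs ((h1 c c').1 hc')] at h3
  have hC : ∀ i, ∃ n : ℕ, F^[n] (true, e 0) = (true, e i) := by
    intro i
    induction i with
    | zero => exact ⟨0, rfl⟩
    | succ i ih =>
      have h2 := hV _ (hB _ ih)
      rwa [hF, sux_fn ((hs (e i)).2 ⟨i, rfl⟩), hnx] at h2
  have hD : ∀ c, ∃ n : ℕ, F^[n] (true, e 0) = (true, c) := by
    intro c
    induction c using hp.induction with
    | _ c ih =>
      rcases hc' : prev c with _ | c'
      · obtain ⟨i, rfl⟩ := (hs c).1 hc'
        exact hC i
      · have h2 := hV _ (ih c' hc')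
        rwa [hF, sux_ts ((h1 c' c).2 hc')] at h2
  have hf2 : Function.Surjective fun n : ℕ => F^[n] (true, e 0) := by
    rintro ⟨b, c⟩
    cases b
    · exact hB c (hD c)
    · exact hD c
  let φ : ℕ ≃ Bool × C := Equiv.ofBijective _ ⟨hf1, hf2⟩
  have hφ : ∀ n, φ n = F^[n] (true, e 0) := fun _ => rfl
  have hψ : ∀ x, φ.symm (F x) = φ.symm x + 1 := by
    intro x
    rw [Equiv.symm_apply_eq, hφ, Function.iterate_succ_apply', ← hφ, Equiv.apply_symm_apply]
  have hlt : ∀ c, φ.symm (true, c) < φ.symm (false, c) := by
    intro c
    induction c using hn.induction with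
    | _ c ih =>
      rcases hc' : next c with _ | c'
      · have h2 := hψ (true, c)
        rw [hF, sux_tn hc'] at h2
        omega
      · have h2 := hψ (true, c)
        rw [hF, sux_ts hc'] at h2
        have h3 := hψ (false, c')
        rw [hF, sux_fs ((h1 c c').1 hc')] at h3
        have h4 := ih c' hc'
        omega
  refine ⟨φ.symm, hψ, fun s c _ hsc => ?_⟩
  have hle : φ.symm (false, c) ≤ φ.symm (false, s) := by
    induction hsc with
    | refl => exact le_rfl
    | tail _ hxy ih =>
      rename_i x y _
      have h3 := hψ (false, y)
      rw [hF, sux_fs ((h1 x y).1 hxy)] at h3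
      omega
  exact lt_of_lt_of_le (hlt c) hle

end Pool.Agent.Q201.SC
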