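import Pool.Agent.Q201.SC.InvP

/-!
# Project SC: job SC-16 (helper66): growth
-/

set_option autoImplicit false

namespace Pool.Agent.Q201.SC

theorem inc_run (n : ℕ) (t : List Bool) : inc (List.replicate n true ++ false :: t) =
    some (List.replicate n false ++ true :: t) := by
  induction n with
  | zero => rfl
  | succ n ih =>
    rw [List.replicate_succ, List.replicate_succ, List.cons_append, List.cons_append, inc, ih]
    rfl

theorem rep_succ (n : ℕ) (b : Bool) (t : List Bool) :
    List.replicate (n + 1) b ++ t = List.replicate n b ++ b :: t := by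
  rw [List.replicate_succ', List.append_assoc]
  rfl

theorem count_run (e : ℕ ≃ ℕ) (lk : ℕ → ℕ) (h : List ℕ) (g : ℕ) (n : ℕ) (t : List Bool) (c : ℕ) :
    Relation.ReflTransGen (fun x y => nextC e lk x = some y)
      (.A h g (List.replicate n false ++ t) c)
      (.A h g (List.replicate n true ++ t) (c + (2 ^ n - 1))) := by
  induction n generalizing t c with
  | zero => exact Relation.ReflTransGen.refl
  | succ n ih =>
    rw [rep_succ, rep_succ]
    have h1 := ih (false :: t) c
    have h2 := ih (true :: t) (c + (2 ^ n - 1) + 1)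
    have h3 : c + (2 ^ n - 1) + 1 + (2 ^ n - 1) = c + (2 ^ (n + 1) - 1) := by
      have := Nat.one_le_two_pow (n := n)
      rw [pow_succ]
      omega
    rw [h3] at h2
    exact (h1.tail (nextA_some e lk (inc_run n t))).trans h2

theorem ell_cons (c : ℕ) (h : List ℕ) : ell (c :: h) = ell h + c + 1 := by
  unfold ell
  rw [List.map_cons, List.sum_cons]
  omega

theorem grow_aux (e : ℕ ≃ ℕ) (lk : ℕ → ℕ) (g : ℕ) : ∀ (h : List ℕ) (m : ℕ), tower m ≤ ell h →
    ∃ h' : List ℕ, tower (m + g + 1) ≤ ell h' ∧
      Relation.ReflTransGen (fun x y => nextC e lk x = some y)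
        (.A h g (List.replicate (ell h) false) 0) (.B h' (e 0) 0) := by
  induction g with
  | zero =>
    intro h m hm
    have h1 := count_run e lk h 0 (ell h) [] 0
    rw [List.append_nil, List.append_nil, Nat.zero_add] at h1
    refine ⟨(2 ^ ell h - 1) :: h, ?_, h1.tail (nextA_zero e lk h _)⟩
    rw [ell_cons]
    have h2 : 2 ^ tower m ≤ 2 ^ ell h := Nat.pow_le_pow_right (by omega) hm
    have h3 : tower (m + 0 + 1) = 2 ^ tower m := rfl
    omega
  | succ g ih =>
    intro h m hm
    have h1 := count_run e lk h (g + 1) (ell h) [] 0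
    rw [List.append_nil, List.append_nil, Nat.zero_add] at h1
    have h2 : 2 ^ tower m ≤ 2 ^ ell h := Nat.pow_le_pow_right (by omega) hm
    obtain ⟨h', h3, h4⟩ := ih ((2 ^ ell h - 1) :: h) (m + 1) (by
      rw [ell_cons]
      have h3 : tower (m + 1) = 2 ^ tower m := rfl
      omega)
    refine ⟨h', ?_, (h1.tail (nextA_succ e lk h g _)).trans h4⟩
    have h5 : m + (g + 1) + 1 = m + 1 + g + 1 := by omega
    rw [h5]
    exact h3

theorem growT : S_GROW := by
  intro e lk g
  obtain ⟨h, h1, h2⟩ := grow_aux e lk g [] 0 le_rfl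
  rw [Nat.zero_add] at h1
  exact ⟨h, h1, h2⟩

end Pool.Agent.Q201.SC
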