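import Pool.Agent.Q201.SC.Stm

/-!
# Project SC: job SC-13 (helper66): the system is reversible
-/

set_option autoImplicit false

namespace Pool.Agent.Q201.SC

theorem inc_dec (s s' : List Bool) : inc s = some s' ↔ dec s' = some s := by
  induction s generalizing s' with
  | nil =>
    cases s' with
    | nil => simp [inc, dec]
    | cons b t => cases b <;> simp [inc, dec]
  | cons b s ih =>
    cases s' with
    | nil => cases b <;> simp [inc, dec]
    | cons b' t =>
      cases b <;> cases b' <;> simp [inc, dec, ih, eq_comm]

theorem inc_ones (n : ℕ) : inc (List.replicate n true) = none := by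
  induction n with
  | zero => rfl
  | succ n ih => rw [List.replicate_succ, inc, ih]; rfl

theorem inc_none {s : List Bool} (h : inc s = none) : s = List.replicate s.length true := by
  induction s with
  | nil => rfl
  | cons b s ih =>
    cases b with
    | false => simp [inc] at h
    | true =>
      rw [inc, Option.map_eq_none_iff] at h
      rw [List.length_cons, List.replicate_succ, ← ih h]

section eqs

variable (e : ℕ ≃ ℕ) (lk : ℕ → ℕ)

theorem nextA_some {h : List ℕ} {g : ℕ} {s s' : List Bool} {c : ℕ} (hs : inc s = some s') :
    nextC e lk (.A h g s c) = some (.A h g s' (c + 1)) := by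
  simp only [nextC, hs]

theorem nextA_succ (h : List ℕ) (g c : ℕ) :
    nextC e lk (.A h (g + 1) (List.replicate (ell h) true) c) =
      some (.A (c :: h) g (List.replicate (ell (c :: h)) false) 0) := by
  simp only [nextC, inc_ones, List.length_replicate, if_true]

theorem nextA_zero (h : List ℕ) (c : ℕ) :
    nextC e lk (.A h 0 (List.replicate (ell h) true) c) = some (.B (c :: h) (e 0) 0) := by
  simp only [nextC, inc_ones, List.length_replicate, if_true]

theorem nextA_none {h : List ℕ} {g : ℕ} {s : List Bool} {c : ℕ} (hs : inc s = none)
    (hl : s.length ≠ ell h) : nextC e lk (.A h g s c) = none := by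
  simp only [nextC, hs, if_neg hl]

theorem nextB_succ (h : List ℕ) (a b : ℕ) :
    nextC e lk (.B h (a + 1) b) = some (.B h a (b + 1)) := rfl

theorem nextB_zero {h : List ℕ} {b : ℕ} (hl : lk (e (e.symm b + 1)) ≤ ell h) :
    nextC e lk (.B h 0 b) = some (.B h (e (e.symm b + 1)) 0) := by
  simp only [nextC, if_pos hl]

theorem nextB_none {h : List ℕ} {b : ℕ} (hl : ¬ lk (e (e.symm b + 1)) ≤ ell h) :
    nextC e lk (.B h 0 b) = none := by
  simp only [nextC, if_neg hl]

theorem prevA_some {h : List ℕ} {g : ℕ} {s s' : List Bool} {c : ℕ} (hs : dec s = some s') :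
    prevC e lk (.A h g s (c + 1)) = some (.A h g s' c) := by
  simp only [prevC, hs]

theorem prevA_none {h : List ℕ} {g : ℕ} {s : List Bool} {c : ℕ} (hs : dec s = none) :
    prevC e lk (.A h g s (c + 1)) = none := by
  simp only [prevC, hs]

theorem prevA_cons (c : ℕ) (h : List ℕ) (g : ℕ) :
    prevC e lk (.A (c :: h) g (List.replicate (ell (c :: h)) false) 0) =
      some (.A h (g + 1) (List.replicate (ell h) true) c) := by
  simp only [prevC, if_true]

theorem prevA_nil (g : ℕ) (s : List Bool) : prevC e lk (.A [] g s 0) = none := by
  simp only [prevC]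
  split_ifs <;> rfl

theorem prevA_ne {h : List ℕ} {g : ℕ} {s : List Bool} (hs : s ≠ List.replicate (ell h) false) :
    prevC e lk (.A h g s 0) = none := by
  simp only [prevC, if_neg hs]

theorem prevB_succ (h : List ℕ) (a b : ℕ) :
    prevC e lk (.B h a (b + 1)) = some (.B h (a + 1) b) := rfl

theorem prevB_cons (c : ℕ) (h : List ℕ) :
    prevC e lk (.B (c :: h) (e 0) 0) = some (.A h 0 (List.replicate (ell h) true) c) := by
  simp only [prevC, Equiv.symm_apply_apply, if_true]

theorem prevB_nil : prevC e lk (.B [] (e 0) 0) = none := by
  simp only [prevC, Equiv.symm_apply_apply, if_true]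

theorem prevB_pos {h : List ℕ} {a : ℕ} (ha : e.symm a ≠ 0) (hl : lk a ≤ ell h) :
    prevC e lk (.B h a 0) = some (.B h 0 (e (e.symm a - 1))) := by
  simp only [prevC, if_neg ha, if_pos hl]

theorem prevB_none {h : List ℕ} {a : ℕ} (ha : e.symm a ≠ 0) (hl : ¬ lk a ≤ ell h) :
    prevC e lk (.B h a 0) = none := by
  simp only [prevC, if_neg ha, if_neg hl]

end eqs

theorem inv_next (e : ℕ ≃ ℕ) (lk : ℕ → ℕ) (x y : Conf) (hxy : nextC e lk x = some y) :
    prevC e lk y = some x := by
  cases x with
  | A h g s c =>
    rcases hs : inc s with _ | s'
    · by_cases hl : s.length = ell h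
      · have hs2 := inc_none hs
        rw [hl] at hs2
        subst hs2
        cases g with
        | zero =>
          rw [nextA_zero, Option.some.injEq] at hxy
          subst hxy
          exact prevB_cons e lk c h
        | succ g' =>
          rw [nextA_succ, Option.some.injEq] at hxy
          subst hxy
          exact prevA_cons e lk c h g'
      · rw [nextA_none e lk hs hl] at hxy
        simp at hxy
    · rw [nextA_some e lk hs, Option.some.injEq] at hxy
      subst hxy
      exact prevA_some e lk ((inc_dec s s').1 hs)
  | B h a b =>
    cases a with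
    | zero =>
      by_cases hl : lk (e (e.symm b + 1)) ≤ ell h
      · rw [nextB_zero e lk hl, Option.some.injEq] at hxy
        subst hxy
        rw [prevB_pos e lk (by rw [Equiv.symm_apply_apply]; omega) hl, Equiv.symm_apply_apply,
          Nat.add_sub_cancel, Equiv.apply_symm_apply]
      · rw [nextB_none e lk hl] at hxy
        simp at hxy
    | succ a =>
      rw [nextB_succ, Option.some.injEq] at hxy
      subst hxy
      rfl

theorem inv_prev (e : ℕ ≃ ℕ) (lk : ℕ → ℕ) (x y : Conf) (hxy : prevC e lk y = some x) :
    nextC e lk x = some y := by
  cases y with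
  | A h g s c =>
    cases c with
    | zero =>
      by_cases hs : s = List.replicate (ell h) false
      · subst hs
        cases h with
        | nil =>
          rw [prevA_nil] at hxy
          simp at hxy
        | cons c h' =>
          rw [prevA_cons, Option.some.injEq] at hxy
          subst hxy
          exact nextA_succ e lk h' g c
      · rw [prevA_ne e lk hs] at hxy
        simp at hxy
    | succ c =>
      rcases hd : dec s with _ | s'
      · rw [prevA_none e lk hd] at hxy
        simp at hxy
      · rw [prevA_some e lk hd, Option.some.injEq] at hxy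
        subst hxy
        exact nextA_some e lk ((inc_dec s' s).2 hd)
  | B h a b =>
    cases b with
    | zero =>
      by_cases h1 : e.symm a = 0
      · have ha : a = e 0 := by rw [← h1, Equiv.apply_symm_apply]
        subst ha
        cases h with
        | nil =>
          rw [prevB_nil] at hxy
          simp at hxy
        | cons c h' =>
          rw [prevB_cons, Option.some.injEq] at hxy
          subst hxy
          exact nextA_zero e lk h' c
      · by_cases h2 : lk a ≤ ell h
        · rw [prevB_pos e lk h1 h2, Option.some.injEq] at hxy
          subst hxy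
          have h3 : e (e.symm (e (e.symm a - 1)) + 1) = a := by
            rw [Equiv.symm_apply_apply, Nat.sub_add_cancel (Nat.pos_of_ne_zero h1),
              Equiv.apply_symm_apply]
          rw [nextB_zero e lk (by rw [h3]; exact h2), h3]
        · rw [prevB_none e lk h1 h2] at hxy
          simp at hxy
    | succ b =>
      rw [prevB_succ, Option.some.injEq] at hxy
      subst hxy
      rfl

theorem invT : S_INV := fun e lk x y => ⟨inv_next e lk x y, inv_prev e lk x y⟩

end Pool.Agent.Q201.SC
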