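import Pool.Agent.Q277.SC.Tools

/-!
# JOB SC-19
-/

set_option autoImplicit false

namespace Pool.Agent.Q201.SC

open Pool.Agent.Q277.SC

theorem slex_tri {U : Type} [LinearOrder U] (u v : List U) :
    List.Shortlex (· < ·) u v ∨ u = v ∨ List.Shortlex (· < ·) v u := by
  by_contra h
  push Not at h
  exact h.2.1 (Std.Trichotomous.trichotomous (r := List.Shortlex ((· < ·) : U → U → Prop)) u v h.1 h.2.2)

theorem slex_len {U : Type} [LinearOrder U] {u v : List U} (h : List.Shortlex (· < ·) u v) :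
    u.length ≤ v.length := by
  rcases List.shortlex_def.1 h with h1 | h1
  · exact h1.le
  · exact h1.1.le

theorem kdT : S_KD := by
  intro tk hfrom henum P
  have := P.fin
  let _ : LinearOrder (Lt P.α) :=
    LinearOrder.lift' (Finite.equivFin (Lt P.α)) (Equiv.injective _)
  obtain ⟨f, hf⟩ : ∃ f : P.α → Lt P.α, f = fun y => Sum.inl (Sum.inl y) := ⟨_, rfl⟩
  have hfinj : Function.Injective f := by
    intro a b h
    rw [hf] at h
    exact Sum.inl_injective (Sum.inl_injective h)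
  have hmap : Function.Injective (List.map f) := List.map_injective_iff.2 hfinj
  have hwf0 : WellFounded ((· < ·) : Lt P.α → Lt P.α → Prop) := wellFounded_lt
  have hwf : WellFounded (InvImage (List.Shortlex ((· < ·) : Lt P.α → Lt P.α → Prop)) (List.map f)) :=
    InvImage.wf _ (List.Shortlex.wf hwf0)
  have hmin : ∀ a : ℕ, ∃ v, (v ∈ P.L ∧ P.ψ v = a) ∧ ∀ w, w ∈ P.L → P.ψ w = a →
      ¬ List.Shortlex (· < ·) (w.map f) (v.map f) := by
    intro a
    obtain ⟨w, hw, hw2⟩ := P.surj a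
    have hne : {v | v ∈ P.L ∧ P.ψ v = a}.Nonempty := ⟨w, hw, hw2⟩
    refine ⟨hwf.min _ hne, hwf.min_mem _ hne, fun w h1 h2 h3 => ?_⟩
    have hw3 : w ∈ {v | v ∈ P.L ∧ P.ψ v = a} := ⟨h1, h2⟩
    exact hwf.not_lt_min _ hw3 h3
  choose κ hκ hκmin using hmin
  have hκinj : Function.Injective κ := by
    intro a b h
    rw [← (hκ a).2, h, (hκ b).2]
  -- a word of the domain is canonical iff it is minimal
  have hcan : ∀ v ∈ P.L, v = κ (P.ψ v) ∨ List.Shortlex (· < ·) ((κ (P.ψ v)).map f) (v.map f) := by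
    intro v hv
    rcases slex_tri (v.map f) ((κ (P.ψ v)).map f) with h | h | h
    · exact absurd h (hκmin _ v hv rfl)
    · exact Or.inl (hmap h)
    · exact Or.inr h
  obtain ⟨e, he⟩ := henum ℕ (Lt P.α) (fun a => (κ a).map f) (hmap.comp hκinj)
  -- the recognisable relations
  have recE : Rec2 (fun u v : List (Lt P.α) => ∃ a b, (a ∈ P.L ∧ b ∈ P.L ∧ P.ψ a = P.ψ b) ∧
      u = a.map f ∧ v = b.map f) := by
    refine hfrom P.α (Lt P.α) f hfinj _ ?_
    refine cast (congrArg Language.IsRegular ?_) P.regEq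
    ext c
    constructor
    · rintro ⟨u, v, h1, h2, h3, h4⟩
      exact ⟨u, v, ⟨h1, h2, h3⟩, h4⟩
    · rintro ⟨u, v, ⟨h1, h2, h3⟩, h4⟩
      exact ⟨u, v, h1, h2, h3, h4⟩
  have recS : Rec2 (fun u v : List (Lt P.α) => ∃ a b, (a ∈ P.L ∧ b ∈ P.L ∧ P.ψ b = P.ψ a + 1) ∧
      u = a.map f ∧ v = b.map f) := by
    refine hfrom P.α (Lt P.α) f hfinj _ ?_
    refine cast (congrArg Language.IsRegular ?_) P.regSucc
    ext c
    constructor
    · rintro ⟨u, v, h1, h2, h3, h4⟩
      exact ⟨u, v, ⟨h1, h2, h3⟩, h4⟩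
    · rintro ⟨u, v, ⟨h1, h2, h3⟩, h4⟩
      exact ⟨u, v, h1, h2, h3, h4⟩
  have hSl := tk.slex (Lt P.α)
  have recD : Rec1 (fun u : List (Lt P.α) => ∃ a, u = (κ a).map f) := by
    have h1 : Rec (fun u : Unit → List (Lt P.α) => ∃ a b, (a ∈ P.L ∧ b ∈ P.L ∧ P.ψ a = P.ψ b) ∧
      u () = a.map f ∧ u () = b.map f) := at2 tk (κ := Unit) recE () ()
    have h2 : Rec (fun u : Unit → List (Lt P.α) => ∃ v, (∃ a b, (a ∈ P.L ∧ b ∈ P.L ∧ P.ψ a = P.ψ b) ∧
      u () = a.map f ∧ v = b.map f) ∧ List.Shortlex (· < ·) v (u ())) :=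
      ex1 tk (tk.and _ _ _ _ (at2 tk (κ := Option Unit) recE (some ()) none)
        (at2 tk (κ := Option Unit) hSl none (some ())))
    refine Rec.congr (tk.and _ _ _ _ h1 (tk.not _ _ _ h2)) fun u => ?_
    constructor
    · rintro ⟨a, ha⟩
      refine ⟨⟨κ a, κ a, ⟨(hκ a).1, (hκ a).1, rfl⟩, ha, ha⟩, ?_⟩
      rintro ⟨v, ⟨a', b', ⟨h3, h4, h5⟩, h6, h7⟩, h8⟩
      rw [ha] at h6 h8
      have h9 : κ a = a' := hmap h6
      rw [h7] at h8
      refine hκmin a b' h4 ?_ h8
      rw [← h5, ← h9, (hκ a).2]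
    · rintro ⟨⟨a, -, ⟨h3, -, -⟩, h6, -⟩, h7⟩
      rcases hcan a h3 with h8 | h8
      · exact ⟨P.ψ a, by rw [h6]; exact congrArg _ h8⟩
      · exact absurd ⟨(κ (P.ψ a)).map f, ⟨a, κ (P.ψ a), ⟨h3, (hκ _).1, (hκ _).2.symm⟩, h6, rfl⟩,
          by rw [h6]; exact h8⟩ h7
  have hltiff : ∀ i j, List.Shortlex (· < ·) ((κ (e i)).map f) ((κ (e j)).map f) → i < j := by
    intro i j hij
    rcases lt_trichotomy i j with h | h | h
    · exact h
    · subst h
      exact absurd hij (irrefl _)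
    · exact absurd (he j i h) (asymm hij)
  refine ⟨κ, e, ?_, hκ, ?_⟩
  · refine ⟨inferInstance, hκinj, ?_, ?_, ?_, ?_, ?_⟩
    · rw [← hf]
      exact recD
    · rw [← hf]
      refine Rec.congr (tk.and _ _ _ _ (at1 tk (κ := Bool) recD false)
        (tk.and _ _ _ _ (at1 tk (κ := Bool) recD true) (at2 tk (κ := Bool) recS false true)))
        fun u => ?_
      constructor
      · rintro ⟨a, h1, h2⟩
        refine ⟨⟨a, h1⟩, ⟨a + 1, h2⟩, κ a, κ (a + 1), ⟨(hκ _).1, (hκ _).1, ?_⟩, h1, h2⟩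
        rw [(hκ _).2, (hκ _).2]
      · rintro ⟨⟨a, h1⟩, ⟨b, h2⟩, a', b', ⟨h3, h4, h5⟩, h6, h7⟩
        have e1 : κ a = a' := hmap (h1.symm.trans h6)
        have e2 : κ b = b' := hmap (h2.symm.trans h7)
        rw [← e1, ← e2, (hκ _).2, (hκ _).2] at h5
        exact ⟨a, h1, by rw [h2, h5]⟩
    · rw [← hf]
      have h4 : Rec (fun u : Bool → List (Lt P.α) => ∃ v, ((∃ a, v = (κ a).map f) ∧
          List.Shortlex (· < ·) (u false) v ∧ List.Shortlex (· < ·) v (u true))) :=
        ex1 tk (tk.and _ _ _ _ (at1 tk (κ := Option Bool) recD none)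
          (tk.and _ _ _ _ (at2 tk (κ := Option Bool) hSl (some false) none)
            (at2 tk (κ := Option Bool) hSl none (some true))))
      refine Rec.congr (tk.and _ _ _ _ (at1 tk (κ := Bool) recD false)
        (tk.and _ _ _ _ (at1 tk (κ := Bool) recD true) (tk.and _ _ _ _
          (at2 tk (κ := Bool) hSl false true) (tk.not _ _ _ h4)))) fun u => ?_
      constructor
      · rintro ⟨a, h1, h2⟩
        obtain ⟨i, rfl⟩ := e.surjective a
        rw [Equiv.symm_apply_apply] at h2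
        refine ⟨⟨_, h1⟩, ⟨_, h2⟩, by rw [h1, h2]; exact he i (i + 1) (by omega), ?_⟩
        rintro ⟨v, ⟨b, rfl⟩, h5, h6⟩
        obtain ⟨j, rfl⟩ := e.surjective b
        rw [h1] at h5
        rw [h2] at h6
        have h7 := hltiff _ _ h5
        have h8 := hltiff _ _ h6
        omega
      · rintro ⟨⟨a, h1⟩, ⟨b, h2⟩, h5, h6⟩
        obtain ⟨i, rfl⟩ := e.surjective a
        obtain ⟨j, rfl⟩ := e.surjective b
        rw [h1, h2] at h5
        have h7 := hltiff _ _ h5
        have h8 : j = i + 1 := by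
          by_contra hne'
          apply h6
          refine ⟨(κ (e (i + 1))).map f, ⟨_, rfl⟩, ?_, ?_⟩
          · rw [h1]
            exact he i (i + 1) (by omega)
          · rw [h2]
            exact he (i + 1) j (by omega)
        refine ⟨e i, h1, ?_⟩
        rw [h2, h8, Equiv.symm_apply_apply]
    · intro i j hij
      rcases hij.eq_or_lt with h | h
      · rw [h]
      · have := slex_len (he i j h)
        simpa using this
    · intro m
      by_contra hcon
      push Not at hcon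
      have hfin : {l : List P.α | l.length ≤ m}.Finite := List.finite_length_le P.α m
      have hsub : Set.range (fun i => κ (e i)) ⊆ {l : List P.α | l.length ≤ m} := by
        rintro _ ⟨i, rfl⟩
        exact hcon i
      exact Set.infinite_range_of_injective (hκinj.comp e.injective) (hfin.subset hsub)
  · intro v hv
    rcases hcan v hv with h | h
    · rw [← h]
    · have := slex_len h
      simpa using this

end Pool.Agent.Q201.SC
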