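import Pool.Agent.Q201.SC.Stm

/-!
# Project SC: job SC-32 (helper66): the length of the code of a start
-/

set_option autoImplicit false

namespace Pool.Agent.Q201.SC

theorem lenTT : S_LEN := by
  intro α κ d g
  have h1 : (code κ d (.A [] g [false] 0)).length =
      Finset.univ.sup fun j => (tracks κ (.A [] g [false] 0) j).length := by
    simp [code, zipT]
  rw [h1]
  have h2 : (fun j => (tracks κ (.A [] g [false] 0) j).length) = ![g, 1, 1, 1] := by
    funext j
    fin_cases j
    · simp [tracks, un]
    · simp [tracks, bs, hstr]
    · simp [tracks, bs]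
    · simp [tracks, un, ell]
  rw [h2]
  apply le_antisymm
  · apply Finset.sup_le
    intro j _
    fin_cases j
    · exact le_max_left _ _
    · exact le_max_right _ _
    · exact le_max_right _ _
    · exact le_max_right _ _
  · apply max_le
    · exact Finset.le_sup (f := ![g, 1, 1, 1]) (Finset.mem_univ 0)
    · exact Finset.le_sup (f := ![g, 1, 1, 1]) (Finset.mem_univ 1)

end Pool.Agent.Q201.SC
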