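import Pool.Agent.Q201.SC.Stm

set_option autoImplicit false

namespace Pool.Agent.Q201.SC

theorem localT : S_LOCAL := by
  intro ι U _ _ P0 P
  have finS : Finite (Option ((ι → Option U) × Prop)) := inferInstance
  refine ⟨Option ((ι → Option U) × Prop), finS,
    fun s x => match s with
      | none => some (x, P0 x)
      | some (y, ok) => some (x, ok ∧ P y x), none,
    fun s => match s with
      | none => P0 (fun _ => none) ∧ P (fun _ => none) (fun _ => none)
      | some (y, ok) => ok ∧ P y (fun _ => none) ∧ P (fun _ => none) (fun _ => none),
    fun u N hN => ?_⟩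
  have hnone : ∀ i, N ≤ i → ltr u i = fun _ => none := by
    intro i hi
    funext j
    exact List.getElem?_eq_none (le_trans (hN j) hi)
  rcases N with _ | N
  · simp only [List.range_zero, List.map_nil, List.foldl_nil]
    rw [hnone 0 (le_refl _)]
    constructor
    · rintro ⟨h1, h2⟩
      refine ⟨h1, ?_⟩
      have := h2 0
      rw [hnone 0 (le_refl _), hnone 1 (by omega)] at this
      exact this
    · rintro ⟨h1, h2⟩
      refine ⟨h1, fun i => ?_⟩
      rw [hnone i (by omega), hnone (i + 1) (by omega)]
      exact h2
  · have key : ∀ N : ℕ, (((List.range (N + 1)).map (ltr u)).foldl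
        (fun (s : Option ((ι → Option U) × Prop)) x => match s with
          | none => some (x, P0 x)
          | some (y, ok) => some (x, ok ∧ P y x)) none) =
        some (ltr u N, P0 (ltr u 0) ∧ ∀ i < N, P (ltr u i) (ltr u (i + 1))) := by
      intro N
      induction N with
      | zero => simp
      | succ N ih =>
        rw [List.range_succ, List.map_append, List.foldl_append, ih]
        simp only [List.map_cons, List.map_nil, List.foldl_cons, List.foldl_nil, Option.some.injEq,
          Prod.mk.injEq, eq_iff_iff, true_and]
        constructor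
        · rintro ⟨⟨h1, h2⟩, h3⟩
          refine ⟨h1, fun i hi => ?_⟩
          rcases Nat.lt_succ_iff_lt_or_eq.mp hi with h | h
          · exact h2 i h
          · subst h; exact h3
        · rintro ⟨h1, h2⟩
          exact ⟨⟨h1, fun i hi => h2 i (by omega)⟩, h2 N (by omega)⟩
    rw [key N]
    simp only
    constructor
    · rintro ⟨h1, h2⟩
      refine ⟨⟨h1, fun i _ => h2 i⟩, ?_, ?_⟩
      · have := h2 N
        rwa [hnone (N + 1) (le_refl _)] at this
      · have := h2 (N + 1)
        rwa [hnone (N + 1) (le_refl _), hnone (N + 1 + 1) (by omega)] at this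
    · rintro ⟨⟨h1, h2⟩, h3, h4⟩
      refine ⟨h1, fun i => ?_⟩
      rcases lt_trichotomy i N with h | h | h
      · exact h2 i h
      · subst h
        rw [hnone (i + 1) (le_refl _)]
        exact h3
      · rw [hnone i (by omega), hnone (i + 1) (by omega)]
        exact h4

end Pool.Agent.Q201.SC
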