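import Pool.Agent.Q201.SC.DomP

set_option autoImplicit false

/-! # Steps of the binary counter -/

namespace Pool.Agent.Q137.SC
open Pool.Agent.Q201.SC

/-- equality of unary strings -/
theorem rep_inj {n m : ℕ} (h : List.replicate n false = List.replicate m false) : n = m := by
  simpa using congrArg List.length h

theorem na : S_NA := by
  intro tk _ _ α κ e kd d
  have := kd.fin
  have h0 := pull1 tk (ι := Fin 4 ⊕ Fin 4) (unb tk (α := α) false) (Sum.inl 0)
  have h0' := eqv tk (ι := Fin 4 ⊕ Fin 4) (U := Lt α) (Sum.inl 0) (Sum.inr 0)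
  have h1 := pull2 tk (ι := Fin 4 ⊕ Fin 4) (hun tk (α := α)) (Sum.inl 1) (Sum.inl 3)
  have h1' := eqv tk (ι := Fin 4 ⊕ Fin 4) (U := Lt α) (Sum.inl 1) (Sum.inr 1)
  have h2 := pull2 tk (ι := Fin 4 ⊕ Fin 4) (incr tk (α := α)) (Sum.inl 2) (Sum.inr 2)
  have h3 := pull2 tk (ι := Fin 4 ⊕ Fin 4) (succu tk (α := α)) (Sum.inl 3) (Sum.inr 3)
  have h := zip2 tk (α := α) d true d true (R := fun u v =>
    (∃ n, u 0 = (List.replicate n false).map emb) ∧ u 0 = v 0 ∧
    (∃ h c, u 1 = (hstr h).map emb ∧ u 3 = (List.replicate (ell h + c) false).map emb) ∧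
    u 1 = v 1 ∧ (∃ s s', inc s = some s' ∧ u 2 = s.map emb ∧ v 2 = s'.map emb) ∧
    (∃ g, u 3 = (List.replicate g false).map emb ∧ v 3 = (List.replicate (g + 1) false).map emb))
    (and' tk h0 (and' tk h0' (and' tk h1 (and' tk h1' (and' tk h2 h3)))))
  refine Rec2.congr h fun w w' => ?_
  constructor
  · rintro ⟨t, t', ⟨⟨g, e0⟩, e0', ⟨h, c, e1, e3⟩, e1', ⟨s, s', hs, e2, e2'⟩, n, e3', e3''⟩, hw, hw'⟩
    have hn : n = ell h + c := rep_inj (map_emb_inj (e3'.symm.trans e3))
    subst hn
    refine ⟨h, g, s, c, s', hs, ?_, ?_⟩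
    · rw [hw]
      have : t = tracks κ (Conf.A h g s c) := by
        apply tr_eq
        intro j
        fin_cases j
        · exact e0.trans (un_map g).symm
        · exact e1.trans (bs_map _).symm
        · exact e2.trans (bs_map _).symm
        · exact e3.trans (un_map _).symm
      rw [this]
      rfl
    · rw [hw']
      have : t' = tracks κ (Conf.A h g s' (c + 1)) := by
        apply tr_eq
        intro j
        fin_cases j
        · exact (e0'.symm.trans e0).trans (un_map g).symm
        · exact (e1'.symm.trans e1).trans (bs_map _).symm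
        · exact e2'.trans (bs_map _).symm
        · exact e3''.trans (un_map _).symm
      rw [this]
      rfl
  · rintro ⟨h, g, s, c, s', hs, hw, hw'⟩
    exact ⟨tracks κ (Conf.A h g s c), tracks κ (Conf.A h g s' (c + 1)),
      ⟨⟨g, un_map g⟩, rfl, ⟨h, c, bs_map _, un_map _⟩, rfl, ⟨s, s', hs, bs_map _, bs_map _⟩,
        ell h + c, un_map _, un_map _⟩, hw, hw'⟩

end Pool.Agent.Q137.SC

namespace Pool.Agent.Q201.SC

/-- steps of the binary counter -/
theorem naT : S_NA := Pool.Agent.Q137.SC.na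

end Pool.Agent.Q201.SC
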