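import Pool.Agent.Q201.SC.NaP

set_option autoImplicit false

/-! # Steps to the next level -/

namespace Pool.Agent.Q137.SC
open Pool.Agent.Q201.SC

theorem nb : S_NB := by
  intro tk _ _ α κ e kd d
  have := kd.fin
  have h0 := pull2 tk (ι := Fin 4 ⊕ Fin 4) (succu tk (α := α)) (Sum.inr 0) (Sum.inl 0)
  have h1 := pull2 tk (ι := Fin 4 ⊕ Fin 4) (hcst tk (α := α) true) (Sum.inl 1) (Sum.inl 2)
  have h2 := tk.comap (Fin 3) (Fin 4 ⊕ Fin 4) _ (fun j => if j = 0 then Sum.inl 1 else
    if j = 1 then Sum.inl 3 else Sum.inr 1) _ (extn tk (α := α))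
  have h3 := pull2 tk (ι := Fin 4 ⊕ Fin 4) (hcst tk (α := α) false) (Sum.inr 1) (Sum.inr 2)
  have h4 := pull2 tk (ι := Fin 4 ⊕ Fin 4) (hcst tk (α := α) false) (Sum.inr 1) (Sum.inr 3)
  have h := zip2 tk (α := α) d true d true (R := fun u v =>
    (∃ g, v 0 = (List.replicate g false).map emb ∧ u 0 = (List.replicate (g + 1) false).map emb) ∧
    (∃ h, u 1 = (hstr h).map emb ∧ u 2 = (List.replicate (ell h) true).map emb) ∧
    (∃ h c, u 1 = (hstr h).map emb ∧ u 3 = (List.replicate (ell h + c) false).map emb ∧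
      v 1 = (hstr (c :: h)).map emb) ∧
    (∃ h, v 1 = (hstr h).map emb ∧ v 2 = (List.replicate (ell h) false).map emb) ∧
    (∃ h, v 1 = (hstr h).map emb ∧ v 3 = (List.replicate (ell h) false).map emb))
    (and' tk h0 (and' tk h1 (and' tk h2 (and' tk h3 h4))))
  refine Rec2.congr h fun w w' => ?_
  constructor
  · rintro ⟨t, t', ⟨⟨g, e0', e0⟩, ⟨h1, a1, a2⟩, ⟨h, c, b1, b3, b1'⟩, ⟨h2, c1, c2⟩, h3, d1, d3⟩,
      hw, hw'⟩
    have q1 : h1 = h := hstr_inj (map_emb_inj (a1.symm.trans b1))
    have q2 : h2 = c :: h := hstr_inj (map_emb_inj (c1.symm.trans b1'))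
    have q3 : h3 = c :: h := hstr_inj (map_emb_inj (d1.symm.trans b1'))
    subst q1 q2 q3
    refine ⟨h1, g, c, ?_, ?_⟩
    · rw [hw]
      have : t = tracks κ (Conf.A h1 (g + 1) (List.replicate (ell h1) true) c) := by
        apply tr_eq
        intro j
        fin_cases j
        · exact e0.trans (un_map _).symm
        · exact b1.trans (bs_map _).symm
        · exact a2.trans (bs_map _).symm
        · exact b3.trans (un_map _).symm
      rw [this]
      rfl
    · rw [hw']
      have : t' = tracks κ (Conf.A (c :: h1) g (List.replicate (ell (c :: h1)) false) 0) := by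
        apply tr_eq
        intro j
        fin_cases j
        · exact e0'.trans (un_map _).symm
        · exact b1'.trans (bs_map _).symm
        · exact c2.trans (bs_map _).symm
        · exact d3.trans (un_map _).symm
      rw [this]
      rfl
  · rintro ⟨h, g, c, hw, hw'⟩
    exact ⟨tracks κ (Conf.A h (g + 1) (List.replicate (ell h) true) c),
      tracks κ (Conf.A (c :: h) g (List.replicate (ell (c :: h)) false) 0),
      ⟨⟨g, un_map _, un_map _⟩, ⟨h, bs_map _, bs_map _⟩, ⟨h, c, bs_map _, un_map _, bs_map _⟩,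
        ⟨c :: h, bs_map _, bs_map _⟩, ⟨c :: h, bs_map _, un_map _⟩⟩, hw, hw'⟩

end Pool.Agent.Q137.SC

namespace Pool.Agent.Q201.SC

/-- steps to the next level -/
theorem nbT : S_NB := Pool.Agent.Q137.SC.nb

end Pool.Agent.Q201.SC
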