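import Pool.Agent.Q277.SC.Tools

/-!
# JOB SC-26
-/

set_option autoImplicit false

namespace Pool.Agent.Q201.SC

open Pool.Agent.Q277.SC

theorem ncT : S_NC := by
  intro tk hz htrk α κ e kd d
  have := kd.fin
  obtain ⟨tUn, tUnS, tBs, tInc, tH, tRep, tHc, tEll, tExt, tLe⟩ := htrk tk α
  have h1 := recZ (κ' := Fin 8 ⊕ Bool) tk hz (α := α) d true
    ![Sum.inl 0, Sum.inl 1, Sum.inl 2, Sum.inl 3] (Sum.inr false)
  have h2 := recZ (κ' := Fin 8 ⊕ Bool) tk hz (α := α) d false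
    ![Sum.inl 4, Sum.inl 5, Sum.inl 6, Sum.inl 7] (Sum.inr true)
  have h3 := at1 tk (κ := Fin 8 ⊕ Bool) (tk.const (Lt α) []) (Sum.inl 0)
  have h4 := at1 tk (κ := Fin 8 ⊕ Bool) (tk.const (Lt α) []) (Sum.inl 4)
  have h5 := at2 tk (κ := Fin 8 ⊕ Bool) (tRep true) (Sum.inl 1) (Sum.inl 2)
  have h6 := at3 tk (κ := Fin 8 ⊕ Bool) tExt ![Sum.inl 1, Sum.inl 3, Sum.inl 5]
  have h7 := at1 tk (κ := Fin 8 ⊕ Bool) (tk.const (Lt α)
    ((κ (e 0)).map fun y => Sum.inl (Sum.inl y))) (Sum.inl 6)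
  have h8 := at1 tk (κ := Fin 8 ⊕ Bool) (tk.const (Lt α)
    ((κ 0).map fun y => Sum.inl (Sum.inl y))) (Sum.inl 7)
  have h := tk.and _ _ _ _ h1 (tk.and _ _ _ _ h2 (tk.and _ _ _ _ h3 (tk.and _ _ _ _ h4
    (tk.and _ _ _ _ h5 (tk.and _ _ _ _ h6 (tk.and _ _ _ _ h7 h8))))))
  refine Rec.congr (exN tk 8 _ h) fun u => ?_
  constructor
  · rintro ⟨h, c, hw, hw'⟩
    refine ⟨![[], (bs (hstr h)).map Sum.inl, (bs (List.replicate (ell h) true)).map Sum.inl,
      (un (ell h + c)).map Sum.inl, [], (bs (hstr (c :: h))).map Sum.inl,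
      (κ (e 0)).map fun y => Sum.inl (Sum.inl y), (κ 0).map fun y => Sum.inl (Sum.inl y)], ?_⟩
    refine ⟨⟨tracks κ (.A h 0 (List.replicate (ell h) true) c), ?_, hw⟩,
      ⟨tracks κ (.B (c :: h) (e 0) 0), ?_, hw'⟩, rfl, rfl, ⟨h, rfl, rfl⟩, ⟨h, c, rfl, rfl, rfl⟩,
      rfl, rfl⟩
    · intro j
      fin_cases j <;> rfl
    · intro j
      fin_cases j
      · rfl
      · rfl
      · exact (List.map_map).symm
      · exact (List.map_map).symm
  · rintro ⟨v, k1, k2, k3, k4, ⟨h, k5, k5'⟩, ⟨h', c, k6, k6', k6''⟩, k7, k8⟩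
    simp only [Sum.elim_inl] at k3 k4 k5 k5' k6 k6' k6'' k7 k8
    have hh : h = h' := by
      have := k5.symm.trans k6
      exact hstr_eq (bs_inj (mapl this))
    subst hh
    refine ⟨h, c, Z_elim k1 rfl ?_, Z_elim k2 rfl ?_⟩
    · intro j
      fin_cases j
      · exact k3
      · exact k5
      · exact k5'
      · exact k6'
    · intro j
      fin_cases j
      · exact k4
      · exact k6''
      · exact k7.trans (List.map_map).symm
      · exact k8.trans (List.map_map).symm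

end Pool.Agent.Q201.SC
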