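import Pool.Agent.Q277.SC.Tools

/-!
# JOB SC-27
-/

set_option autoImplicit false

namespace Pool.Agent.Q201.SC

open Pool.Agent.Q277.SC

theorem ndT : S_ND := by
  intro tk hz htrk α κ e kd d
  have := kd.fin
  obtain ⟨tUn, tUnS, tBs, tInc, tH, tRep, tHc, tEll, tExt, tLe⟩ := htrk tk α
  have h1 := recZ (κ' := Fin 6 ⊕ Bool) tk hz (α := α) d false
    ![Sum.inl 0, Sum.inl 1, Sum.inl 2, Sum.inl 3] (Sum.inr false)
  have h2 := recZ (κ' := Fin 6 ⊕ Bool) tk hz (α := α) d false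
    ![Sum.inl 0, Sum.inl 1, Sum.inl 4, Sum.inl 5] (Sum.inr true)
  have h3 := at1 tk (κ := Fin 6 ⊕ Bool) (tk.const (Lt α) []) (Sum.inl 0)
  have h4 := at1 tk (κ := Fin 6 ⊕ Bool) tH (Sum.inl 1)
  have h5 := at2 tk (κ := Fin 6 ⊕ Bool) kd.suc (Sum.inl 4) (Sum.inl 2)
  have h6 := at2 tk (κ := Fin 6 ⊕ Bool) kd.suc (Sum.inl 3) (Sum.inl 5)
  have h := tk.and _ _ _ _ h1 (tk.and _ _ _ _ h2 (tk.and _ _ _ _ h3 (tk.and _ _ _ _ h4
    (tk.and _ _ _ _ h5 h6))))
  refine Rec.congr (exN tk 6 _ h) fun u => ?_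
  constructor
  · rintro ⟨h, a, b, hw, hw'⟩
    refine ⟨![[], (bs (hstr h)).map Sum.inl, (κ (a + 1)).map fun y => Sum.inl (Sum.inl y),
      (κ b).map fun y => Sum.inl (Sum.inl y),
      (κ a).map fun y => Sum.inl (Sum.inl y), (κ (b + 1)).map fun y => Sum.inl (Sum.inl y)], ?_⟩
    refine ⟨⟨tracks κ (.B h (a + 1) b), ?_, hw⟩,
      ⟨tracks κ (.B h a (b + 1)), ?_, hw'⟩, rfl, ⟨h, rfl⟩, ⟨a, rfl, rfl⟩, ⟨b, rfl, rfl⟩⟩
    · intro j
      fin_cases j
      · rfl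
      · rfl
      · exact (List.map_map).symm
      · exact (List.map_map).symm
    · intro j
      fin_cases j
      · rfl
      · rfl
      · exact (List.map_map).symm
      · exact (List.map_map).symm
  · rintro ⟨v, k1, k2, k3, ⟨h, k4⟩, ⟨a, k5, k5'⟩, ⟨b, k6, k6'⟩⟩
    simp only [Sum.elim_inl] at k3 k4 k5 k5' k6 k6'
    refine ⟨h, a, b, Z_elim k1 rfl ?_, Z_elim k2 rfl ?_⟩
    · intro j
      fin_cases j
      · exact k3
      · exact k4
      · exact k5'.trans (List.map_map).symm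
      · exact k6.trans (List.map_map).symm
    · intro j
      fin_cases j
      · exact k3
      · exact k4
      · exact k5.trans (List.map_map).symm
      · exact k6'.trans (List.map_map).symm

end Pool.Agent.Q201.SC
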