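import Pool.Agent.Q277.SC.Tools

/-!
# JOB SC-28
-/

set_option autoImplicit false

namespace Pool.Agent.Q201.SC

open Pool.Agent.Q277.SC

theorem hstr_len (h : List ℕ) : (hstr h).length = ell h := by
  induction h with
  | nil => rfl
  | cons c h ih =>
    simp only [hstr, ell, List.length_append, List.length_replicate, List.length_singleton, ih,
      List.map_cons, List.sum_cons]
    omega

theorem neT : S_NE := by
  intro tk hz htrk α κ e kd d
  have := kd.fin
  obtain ⟨tUn, tUnS, tBs, tInc, tH, tRep, tHc, tEll, tExt, tLe⟩ := htrk tk α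
  have h1 := recZ (κ' := Fin 5 ⊕ Bool) tk hz (α := α) d false
    ![Sum.inl 0, Sum.inl 1, Sum.inl 2, Sum.inl 3] (Sum.inr false)
  have h2 := recZ (κ' := Fin 5 ⊕ Bool) tk hz (α := α) d false
    ![Sum.inl 0, Sum.inl 1, Sum.inl 4, Sum.inl 2] (Sum.inr true)
  have h3 := at1 tk (κ := Fin 5 ⊕ Bool) (tk.const (Lt α) []) (Sum.inl 0)
  have h4 := at1 tk (κ := Fin 5 ⊕ Bool) tH (Sum.inl 1)
  have h5 := at1 tk (κ := Fin 5 ⊕ Bool) (tk.const (Lt α)
    ((κ 0).map fun y => Sum.inl (Sum.inl y))) (Sum.inl 2)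
  have h6 := at2 tk (κ := Fin 5 ⊕ Bool) kd.nx (Sum.inl 3) (Sum.inl 4)
  have h7 := at2 tk (κ := Fin 5 ⊕ Bool) tLe (Sum.inl 4) (Sum.inl 1)
  have h := tk.and _ _ _ _ h1 (tk.and _ _ _ _ h2 (tk.and _ _ _ _ h3 (tk.and _ _ _ _ h4
    (tk.and _ _ _ _ h5 (tk.and _ _ _ _ h6 h7)))))
  refine Rec.congr (exN tk 5 _ h) fun u => ?_
  constructor
  · rintro ⟨h, b, hl, hw, hw'⟩
    refine ⟨![[], (bs (hstr h)).map Sum.inl, (κ 0).map fun y => Sum.inl (Sum.inl y),
      (κ b).map fun y => Sum.inl (Sum.inl y),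
      (κ (e (e.symm b + 1))).map fun y => Sum.inl (Sum.inl y)], ?_⟩
    refine ⟨⟨tracks κ (.B h 0 b), ?_, hw⟩,
      ⟨tracks κ (.B h (e (e.symm b + 1)) 0), ?_, hw'⟩, rfl, ⟨h, rfl⟩, rfl, ⟨b, rfl, rfl⟩, ?_⟩
    · intro j
      fin_cases j
      · rfl
      · rfl
      · exact (List.map_map).symm
      · exact (List.map_map).symm
    · intro j
      fin_cases j
      · rfl
      · rfl
      · exact (List.map_map).symm
      · exact (List.map_map).symm
    · show ((κ (e (e.symm b + 1))).map fun y => (Sum.inl (Sum.inl y) : Lt α)).length ≤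
        ((bs (hstr h)).map (Sum.inl : Trk α → Lt α)).length
      simp only [bs, List.length_map, hstr_len]
      exact hl
  · rintro ⟨v, k1, k2, k3, ⟨h, k4⟩, k5, ⟨b, k6, k6'⟩, k7⟩
    simp only [Sum.elim_inl] at k3 k4 k5 k6 k6' k7
    refine ⟨h, b, ?_, Z_elim k1 rfl ?_, Z_elim k2 rfl ?_⟩
    · rw [k6', k4] at k7
      simpa only [bs, List.length_map, hstr_len] using k7
    · intro j
      fin_cases j
      · exact k3
      · exact k4
      · exact k5.trans (List.map_map).symm
      · exact k6.trans (List.map_map).symm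
    · intro j
      fin_cases j
      · exact k3
      · exact k4
      · exact k6'.trans (List.map_map).symm
      · exact k5.trans (List.map_map).symm

end Pool.Agent.Q201.SC
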