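import Pool.Agent.Q201.SC.Stm

set_option autoImplicit false

namespace Pool.Agent.Q201.SC

theorem notT : S_NOT := by
  rintro ι U R ⟨S, fin, step, s₀, F, h⟩
  exact ⟨S, fin, step, s₀, fun s => ¬ F s, fun u N hN => not_congr (h u N hN)⟩

end Pool.Agent.Q201.SC
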