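import Pool.Agent.Q277.SC.Tools

/-!
# JOB SC-29
-/

set_option autoImplicit false

namespace Pool.Agent.Q201.SC

open Pool.Agent.Q277.SC

theorem inc_none_iff (s : List Bool) : inc s = none ↔ s = List.replicate s.length true := by
  induction s with
  | nil => simp [inc]
  | cons b s ih =>
    cases b
    · simp [inc, List.replicate_succ]
    · simp only [inc, Option.map_eq_none_iff, ih, List.length_cons, List.replicate_succ,
        List.cons.injEq, true_and]

theorem nxtT : S_NEXT := by
  intro tk hz htrk hna hnb hnc hnd hne α κ e kd d
  have h1 := hna tk hz htrk α κ e kd d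
  have h2 := hnb tk hz htrk α κ e kd d
  have h3 := hnc tk hz htrk α κ e kd d
  have h4 := hnd tk hz htrk α κ e kd d
  have h5 := hne tk hz htrk α κ e kd d
  refine Rec.congr (rec_or tk h1 (rec_or tk h2 (rec_or tk h3 (rec_or tk h4 h5)))) fun u => ?_
  constructor
  · rintro ⟨x, x', hx, hw, hw'⟩
    cases x with
    | A h g s c =>
      cases hs : inc s with
      | some s' =>
        left
        simp only [nextC, hs, Option.some.injEq] at hx
        subst hx
        exact ⟨h, g, s, c, s', hs, hw, hw'⟩
      | none =>
        by_cases hl : s.length = ell h
        · have hrep : s = List.replicate (ell h) true := by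
            rw [← hl]
            exact (inc_none_iff s).1 hs
          simp only [nextC, hs, if_pos hl] at hx
          cases g with
          | zero =>
            right; right; left
            simp only [Option.some.injEq] at hx
            subst hx
            rw [hrep] at hw
            exact ⟨h, c, hw, hw'⟩
          | succ g =>
            right; left
            simp only [Option.some.injEq] at hx
            subst hx
            rw [hrep] at hw
            exact ⟨h, g, c, hw, hw'⟩
        · simp [nextC, hs, if_neg hl] at hx
    | B h a b =>
      cases a with
      | succ a =>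
        right; right; right; left
        simp only [nextC, Option.some.injEq] at hx
        subst hx
        exact ⟨h, a, b, hw, hw'⟩
      | zero =>
        right; right; right; right
        simp only [nextC] at hx
        by_cases hl : (κ (e (e.symm b + 1))).length ≤ ell h
        · rw [if_pos hl, Option.some.injEq] at hx
          subst hx
          exact ⟨h, b, hl, hw, hw'⟩
        · rw [if_neg hl] at hx
          exact absurd hx (by simp)
  · rintro (⟨h, g, s, c, s', hs, hw, hw'⟩ | ⟨h, g, c, hw, hw'⟩ | ⟨h, c, hw, hw'⟩ | ⟨h, a, b, hw, hw'⟩ |
      ⟨h, b, hl, hw, hw'⟩)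
    · refine ⟨_, _, ?_, hw, hw'⟩
      simp [nextC, hs]
    · refine ⟨_, _, ?_, hw, hw'⟩
      have : inc (List.replicate (ell h) true) = none := (inc_none_iff _).2 (by simp)
      simp [nextC, this]
    · refine ⟨_, _, ?_, hw, hw'⟩
      have : inc (List.replicate (ell h) true) = none := (inc_none_iff _).2 (by simp)
      simp [nextC, this]
    · refine ⟨_, _, ?_, hw, hw'⟩
      simp [nextC]
    · refine ⟨_, _, ?_, hw, hw'⟩
      simp [nextC, hl]

end Pool.Agent.Q201.SC
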