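import Pool.Agent.Q201.SC.Stm

/-!
# Project SC: job SC-33 (helper66): the bound for the rate
-/

set_option autoImplicit false

namespace Pool.Agent.Q201.SC

theorem rateTT : S_RATE := by
  intro P P₀ n t w hw hn ht
  refine ht.trans (le_csSup ?_ ⟨w, hw, hn, rfl⟩)
  have hfin := P.fin
  have h1 : {l | ∃ w ∈ P.L, w.length ≤ n ∧ P₀.len (P.ψ w) = l} ⊆
      (fun w => P₀.len (P.ψ w)) '' {w : List P.α | w.length ≤ n} := by
    rintro l ⟨w, _, h2, rfl⟩
    exact ⟨w, h2, rfl⟩
  exact ((List.finite_length_le P.α n).image _).subset h1 |>.bddAbove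

end Pool.Agent.Q201.SC
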