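import Pool.Agent.Q201.SC.Stm

set_option autoImplicit false

namespace Pool.Agent.Q201.SC

/-- the transition of the shortlex automaton -/
private def slStep {U : Type} [LinearOrder U] (s : Ordering × Option Bool) (x : Bool → Option U) :
    Ordering × Option Bool :=
  match s.2 with
  | some _ => s
  | none => match x false, x true with
    | some p, some q => (if s.1 = Ordering.eq then cmp p q else s.1, none)
    | none, some _ => (s.1, some true)
    | some _, none => (s.1, some false)
    | none, none => s

private theorem fold_some {U : Type} [LinearOrder U] (l : List (Bool → Option U)) (a : Ordering)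
    (b : Bool) : l.foldl slStep (a, some b) = (a, some b) := by
  induction l with
  | nil => rfl
  | cons x l ih => rw [List.foldl_cons]; exact ih

private theorem range_fold {ι U S : Type} (step : S → (ι → Option U) → S) (w : ι → List U)
    (N : ℕ) (s : S) : ((List.range (N + 1)).map (ltr w)).foldl step s =
      ((List.range N).map (ltr (fun j => (w j).tail))).foldl step (step s (ltr w 0)) := by
  rw [List.range_succ_eq_map, List.map_cons, List.foldl_cons, List.map_map]
  congr 1
  apply List.map_congr_left
  intro i _
  funext j
  simp [ltr, List.getElem?_tail]

private theorem lex_cc {U : Type} [LinearOrder U] (p q : U) (u v : List U) :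
    List.Lex (· < ·) (p :: u) (q :: v) ↔ p < q ∨ (p = q ∧ List.Lex (· < ·) u v) := by
  constructor
  · intro h
    cases h with
    | rel h => exact Or.inl h
    | cons h => exact Or.inr ⟨rfl, h⟩
  · rintro (h | ⟨rfl, h⟩)
    · exact List.Lex.rel h
    · exact List.Lex.cons h

private theorem main {U : Type} [LinearOrder U] (N : ℕ) : ∀ (w : Bool → List U) (a : Ordering),
    (w false).length ≤ N → (w true).length ≤ N →
    (((((List.range N).map (ltr w)).foldl slStep (a, none)).2 = some true ∨
      (((((List.range N).map (ltr w)).foldl slStep (a, none)).2 = none ∧
        (((List.range N).map (ltr w)).foldl slStep (a, none)).1 = Ordering.lt))) ↔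
      ((w false).length < (w true).length ∨ ((w false).length = (w true).length ∧
        (a = Ordering.lt ∨ (a = Ordering.eq ∧ List.Lex (· < ·) (w false) (w true)))))) := by
  induction N with
  | zero =>
    intro w a h1 h2
    have e1 : w false = [] := List.length_eq_zero_iff.mp (Nat.le_zero.mp h1)
    have e2 : w true = [] := List.length_eq_zero_iff.mp (Nat.le_zero.mp h2)
    rw [e1, e2]
    simp
  | succ N ih =>
    intro w a h1 h2
    rw [range_fold]
    have t1 : ((fun j => (w j).tail) false).length ≤ N := by simp; omega
    have t2 : ((fun j => (w j).tail) true).length ≤ N := by simp; omega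
    rcases e1 : w false with _ | ⟨p, u⟩
    · rcases e2 : w true with _ | ⟨q, v⟩
      · have es : slStep (a, none) (ltr w 0) = (a, none) := by
          simp [slStep, ltr, e1, e2]
        rw [es, ih _ a t1 t2]
        simp [e1, e2]
      · have es : slStep (a, none) (ltr w 0) = (a, some true) := by
          simp [slStep, ltr, e1, e2]
        rw [es, fold_some]
        simp
    · rcases e2 : w true with _ | ⟨q, v⟩
      · have es : slStep (a, none) (ltr w 0) = (a, some false) := by
          simp [slStep, ltr, e1, e2]
        rw [es, fold_some]
        simp
      · have es : slStep (a, none) (ltr w 0) =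
            (if a = Ordering.eq then cmp p q else a, none) := by
          simp [slStep, ltr, e1, e2]
        rw [es, ih _ _ t1 t2]
        simp only [e1, e2, List.tail_cons, List.length_cons]
        rw [lex_cc]
        by_cases ha : a = Ordering.eq
        · subst ha
          simp only [if_true]
          rcases lt_trichotomy p q with h | h | h
          · have hc : cmp p q = Ordering.lt := (cmp_eq_lt_iff p q).mpr h
            rw [hc]
            simp [h]
          · have hc : cmp p q = Ordering.eq := (cmp_eq_eq_iff p q).mpr h
            rw [hc]
            simp [h]
          · have hc : cmp p q = Ordering.gt := (cmp_eq_gt_iff p q).mpr h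
            rw [hc]
            simp [h.not_gt, h.ne']
        · simp [ha]

theorem slexT : S_SLEX := by
  intro U _ _
  refine ⟨Ordering × Option Bool, inferInstance, slStep, (Ordering.eq, none),
    fun s => s.2 = some true ∨ (s.2 = none ∧ s.1 = Ordering.lt), fun w N hN => ?_⟩
  refine Iff.trans ?_ (main N w Ordering.eq (hN false) (hN true)).symm
  simp only [List.Shortlex, InvImage, Prod.lex_def]
  simp

end Pool.Agent.Q201.SC
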