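import Pool.Agent.Q277.SC.Tools

/-!
# JOB SC-30
-/

set_option autoImplicit false

namespace Pool.Agent.Q201.SC

open Pool.Agent.Q277.SC

theorem sucT : S_SUC := by
  intro tk hinv hci hdom hflip hnext hz htrk hna hnb hnc hnd hne α _ κ e kd es nxs hinj hst hsl hnxs
  have := kd.fin
  obtain ⟨lk, hlk⟩ : ∃ lk : ℕ → ℕ, lk = fun a => (κ a).length := ⟨_, rfl⟩
  rw [← hlk] at hst ⊢
  -- basic relations
  have hN : ∀ d, Rec2 (fun w w' => ∃ x x', nextC e lk x = some x' ∧ w = code κ d x ∧
      w' = code κ d x') := by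
    intro d
    rw [hlk]
    exact hnext tk hz htrk hna hnb hnc hnd hne α κ e kd d
  have hD := hdom tk hz htrk α κ e kd
  have hF := hflip tk hdom hz htrk α κ e kd
  have hS := tk.slex (Lt α)
  have hcode : ∀ {d d' x x'}, code κ d x = code κ d' x' → d = d' ∧ x = x' := fun {d d' x x'} h =>
    hci α κ kd.inj d d' x x' h
  -- starts
  have hstart : Rec1 (fun w => ∃ i, w = code κ true (es i)) := by
    have h1 := at1 tk (κ := Unit) (hD true) ()
    have h2 : Rec (fun u : Unit → List (Lt α) => ∃ w, ∃ x x', nextC e lk x = some x' ∧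
        w = code κ true x ∧ u () = code κ true x') :=
      ex1 tk (at2 tk (κ := Option Unit) (hN true) none (some ()))
    refine Rec.congr (tk.and _ _ _ _ h1 (tk.not _ _ _ h2)) fun u => ?_
    constructor
    · rintro ⟨i, hi⟩
      refine ⟨⟨es i, hi⟩, ?_⟩
      rintro ⟨w, x, x', hx, -, hx'⟩
      rw [hi] at hx'
      have h3 := (hcode hx').2
      have h4 := (hinv e lk x x').1 hx
      have h5 := (hst (es i)).2 ⟨i, rfl⟩
      rw [← h3, h5] at h4
      exact absurd h4 (by simp)
    · rintro ⟨⟨x, hx⟩, hno⟩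
      have h3 : prevC e lk x = none := by
        rcases h : prevC e lk x with _ | y
        · rfl
        · exact absurd ⟨code κ true y, y, x, (hinv e lk y x).2 h, rfl, hx⟩ hno
      obtain ⟨i, hi⟩ := (hst x).1 h3
      exact ⟨i, by rw [hi]; exact hx⟩
  -- consecutive starts
  have hcons : Rec2 (fun w w' => ∃ i, w = code κ true (es i) ∧ w' = code κ true (es (i + 1))) := by
    have h1 := at1 tk (κ := Bool) hstart false
    have h2 := at1 tk (κ := Bool) hstart true
    have h3 := at2 tk (κ := Bool) hS false true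
    have h4 : Rec (fun u : Bool → List (Lt α) => ∃ v, ((∃ i, v = code κ true (es i)) ∧
        List.Shortlex (· < ·) (u false) v ∧ List.Shortlex (· < ·) v (u true))) :=
      ex1 tk (tk.and _ _ _ _ (at1 tk (κ := Option Bool) hstart none)
        (tk.and _ _ _ _ (at2 tk (κ := Option Bool) hS (some false) none)
          (at2 tk (κ := Option Bool) hS none (some true))))
    refine Rec.congr (tk.and _ _ _ _ h1 (tk.and _ _ _ _ h2 (tk.and _ _ _ _ h3
      (tk.not _ _ _ h4)))) fun u => ?_
    have hirr : ∀ i j, List.Shortlex (· < ·) (code κ true (es i)) (code κ true (es j)) → i < j := by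
      intro i j hij
      rcases lt_trichotomy i j with h | h | h
      · exact h
      · subst h
        exact absurd hij (irrefl _)
      · exact absurd (hsl j i h) (asymm hij)
    constructor
    · rintro ⟨i, hi, hi'⟩
      refine ⟨⟨i, hi⟩, ⟨i + 1, hi'⟩, by rw [hi, hi']; exact hsl i (i + 1) (by omega), ?_⟩
      rintro ⟨v, ⟨j, rfl⟩, h5, h6⟩
      rw [hi] at h5
      rw [hi'] at h6
      have h7 := hirr _ _ h5
      have h8 := hirr _ _ h6
      omega
    · rintro ⟨⟨i, hi⟩, ⟨j, hj⟩, h5, h6⟩
      rw [hi, hj] at h5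
      have h7 := hirr _ _ h5
      have h8 : j = i + 1 := by
        by_contra hne'
        apply h6
        refine ⟨code κ true (es (i + 1)), ⟨i + 1, rfl⟩, ?_, ?_⟩
        · rw [hi]
          exact hsl i (i + 1) (by omega)
        · rw [hj]
          exact hsl (i + 1) j (by omega)
      exact ⟨i, hi, by rw [hj, h8]⟩
  -- the four cases
  have c1 := hN true
  have c2 : Rec2 (fun w w' => ((∃ x, w = code κ true x ∧ w' = code κ false x) ∧
      ¬ ∃ v, ∃ x x', nextC e lk x = some x' ∧ w = code κ true x ∧ v = code κ true x')) := by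
    have h1 := at2 tk (κ := Bool) hF false true
    have h2 : Rec (fun u : Bool → List (Lt α) => ∃ v, ∃ x x', nextC e lk x = some x' ∧
        u false = code κ true x ∧ v = code κ true x') :=
      ex1 tk (at2 tk (κ := Option Bool) (hN true) (some false) none)
    exact tk.and _ _ _ _ h1 (tk.not _ _ _ h2)
  have c3 : Rec2 (fun w w' => ∃ x x', nextC e lk x = some x' ∧ w' = code κ false x ∧
      w = code κ false x') := at2 tk (κ := Bool) (hN false) true false
  have c4 : Rec2 (fun w w' => ∃ v, ((∃ x, v = code κ true x ∧ w = code κ false x) ∧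
      ∃ i, v = code κ true (es i) ∧ w' = code κ true (es (i + 1)))) :=
    ex1 tk (tk.and _ _ _ _ (at2 tk (κ := Option Bool) hF none (some false))
      (at2 tk (κ := Option Bool) hcons none (some true)))
  refine Rec.congr (rec_or tk c1 (rec_or tk c2 (rec_or tk c3 c4))) fun u => ?_
  constructor
  · rintro ⟨⟨d, x⟩, hw, hw'⟩
    cases d
    · rcases hp : prevC e lk x with _ | y
      · right; right; right
        simp only [sux, hp] at hw'
        obtain ⟨i, hi⟩ := (hst x).1 hp
        refine ⟨code κ true x, ⟨x, rfl, hw⟩, i, by rw [hi], ?_⟩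
        rw [hw', ← hi, hnxs]
      · right; right; left
        simp only [sux, hp] at hw'
        exact ⟨y, x, (hinv e lk y x).2 hp, hw', hw⟩
    · rcases hn : nextC e lk x with _ | y
      · right; left
        simp only [sux, hn] at hw'
        refine ⟨⟨x, hw, hw'⟩, ?_⟩
        rintro ⟨v, x', y, h1, h2, h3⟩
        rw [hw] at h2
        have h4 := (hcode h2).2
        rw [← h4, hn] at h1
        exact absurd h1 (by simp)
      · left
        simp only [sux, hn] at hw'
        exact ⟨x, y, hn, hw, hw'⟩
  · rintro (⟨x, x', h1, h2, h3⟩ | ⟨⟨x, h1, h2⟩, h3⟩ | ⟨x, x', h1, h2, h3⟩ | ⟨v, ⟨x, h1, h2⟩, i, h3, h4⟩)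
    · exact ⟨(true, x), h2, by simp only [sux, h1]; exact h3⟩
    · have hn : nextC e lk x = none := by
        rcases h : nextC e lk x with _ | y
        · rfl
        · exact absurd ⟨code κ true y, x, y, h, h1, rfl⟩ h3
      exact ⟨(true, x), h1, by simp only [sux, hn]; exact h2⟩
    · have hp := (hinv e lk x x').1 h1
      exact ⟨(false, x'), h3, by simp only [sux, hp]; exact h2⟩
    · rw [h1] at h3
      have h5 := (hcode h3).2
      have hp : prevC e lk x = none := (hst x).2 ⟨i, h5.symm⟩
      refine ⟨(false, x), h2, ?_⟩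
      simp only [sux, hp]
      rw [h4, h5, hnxs]

end Pool.Agent.Q201.SC
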