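import Pool.Agent.Q201.SC.Stm

/-!
Project SC: the job SC-9 (from unary recognisable relations to regular languages).
-/

set_option autoImplicit false

namespace Pool.Agent.Q201.SC

theorem range_map_ltr_one {U : Type} (w : List U) :
    (List.range w.length).map (ltr (fun _ : Unit => w)) = w.map (fun x _ => some x) := by
  apply List.ext_getElem
  · simp
  · intro i h1 h2
    simp only [List.getElem_map, List.getElem_range]
    funext j
    simp only [ltr]
    exact List.getElem?_eq_getElem _

theorem to1T : S_TO1 := by
  classical
  intro U _ R hR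
  obtain ⟨S, hS, step, s₀, F, h⟩ := hR
  have := Fintype.ofFinite S
  let M : DFA U S := ⟨fun s x => step s (fun _ => some x), s₀, {s | F s}⟩
  refine ⟨S, inferInstance, M, ?_⟩
  ext w
  change M.eval w ∈ M.accept ↔ R w
  have h1 := h (fun _ => w) w.length (fun _ => le_rfl)
  rw [range_map_ltr_one, List.foldl_map] at h1
  refine Iff.symm (Iff.trans h1 ?_)
  rfl

end Pool.Agent.Q201.SC
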