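import Pool.Agent.Q201.SC.Stm

/-!
Project SC: the job SC-10 (from binary recognisable relations to regular languages of
convolutions).
-/

set_option autoImplicit false

namespace Pool.Agent.Q201.SC

theorem conv2_nil_nil {α : Type} : conv2 ([] : List α) [] = [] := rfl

theorem conv2_cons_cons {α : Type} (x y : α) (u v : List α) :
    conv2 (x :: u) (y :: v) = (some x, some y) :: conv2 u v := by
  simp only [conv2, List.length_cons, Nat.add_max_add_right, List.range_succ_eq_map,
    List.map_cons, List.map_map]
  rfl

theorem conv2_nil_cons {α : Type} (y : α) (v : List α) :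
    conv2 ([] : List α) (y :: v) = (none, some y) :: conv2 [] v := by
  simp only [conv2, List.length_cons, List.length_nil, Nat.zero_max,
    List.range_succ_eq_map, List.map_cons, List.map_map]
  rfl

theorem conv2_cons_nil {α : Type} (x : α) (u : List α) :
    conv2 (x :: u) ([] : List α) = (some x, none) :: conv2 u [] := by
  simp only [conv2, List.length_cons, List.length_nil, Nat.max_zero,
    List.range_succ_eq_map, List.map_cons, List.map_map]
  rfl

/-- validity of a word of pairs, after the first (second) string has ended if `a` (`b`) -/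
def Val {α : Type} : Bool → Bool → List (Option α × Option α) → Prop
  | _, _, [] => True
  | a, b, (x, y) :: c => ((x.isSome || y.isSome) = true) ∧ (a = true → x = none) ∧
      (b = true → y = none) ∧ Val x.isNone y.isNone c

theorem val_iff {α : Type} (c : List (Option α × Option α)) : ∀ a b : Bool,
    Val a b c ↔ ∃ u v : List α, (a = true → u = []) ∧ (b = true → v = []) ∧ c = conv2 u v := by
  induction c with
  | nil =>
    intro a b
    simp only [Val, true_iff]
    exact ⟨[], [], fun _ => rfl, fun _ => rfl, rfl⟩
  | cons p c ih =>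
    obtain ⟨x, y⟩ := p
    intro a b
    simp only [Val]
    rw [ih]
    constructor
    · rintro ⟨h1, h2, h3, u, v, h4, h5, rfl⟩
      rcases x with _ | x <;> rcases y with _ | y
      · simp at h1
      · have hu : u = [] := h4 rfl
        subst hu
        refine ⟨[], y :: v, fun _ => rfl, fun hb => ?_, (conv2_nil_cons y v).symm⟩
        simpa using h3 hb
      · have hv : v = [] := h5 rfl
        subst hv
        refine ⟨x :: u, [], fun ha => ?_, fun _ => rfl, (conv2_cons_nil x u).symm⟩
        simpa using h2 ha
      · refine ⟨x :: u, y :: v, fun ha => ?_, fun hb => ?_, (conv2_cons_cons x y u v).symm⟩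
        · simpa using h2 ha
        · simpa using h3 hb
    · rintro ⟨u, v, h1, h2, h3⟩
      rcases u with _ | ⟨x', u⟩ <;> rcases v with _ | ⟨y', v⟩
      · rw [conv2_nil_nil] at h3
        simp at h3
      · rw [conv2_nil_cons] at h3
        simp only [List.cons.injEq, Prod.mk.injEq] at h3
        obtain ⟨⟨rfl, rfl⟩, rfl⟩ := h3
        refine ⟨rfl, fun _ => rfl, fun hb => ?_, [], v, fun _ => rfl, fun h => ?_, rfl⟩
        · simpa using h2 hb
        · simp at h
      · rw [conv2_cons_nil] at h3
        simp only [List.cons.injEq, Prod.mk.injEq] at h3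
        obtain ⟨⟨rfl, rfl⟩, rfl⟩ := h3
        refine ⟨rfl, fun ha => ?_, fun _ => rfl, u, [], fun h => ?_, fun _ => rfl, rfl⟩
        · simpa using h1 ha
        · simp at h
      · rw [conv2_cons_cons] at h3
        simp only [List.cons.injEq, Prod.mk.injEq] at h3
        obtain ⟨⟨rfl, rfl⟩, rfl⟩ := h3
        refine ⟨rfl, fun ha => ?_, fun hb => ?_, u, v, fun h => ?_, fun h => ?_, rfl⟩
        · simpa using h1 ha
        · simpa using h2 hb
        · simp at h
        · simp at h

/-- the transition of the automaton -/
def stp2 {S U : Type} (step : S → (Bool → Option U) → S) (q : S × Bool × Bool × Bool)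
    (p : Option U × Option U) : S × Bool × Bool × Bool :=
  (step q.1 (fun b => if b then p.2 else p.1), p.1.isNone, p.2.isNone,
    q.2.2.2 && (p.1.isSome || p.2.isSome) && (!q.2.1 || p.1.isNone) &&
      (!q.2.2.1 || p.2.isNone))

theorem stp2_fst {S U : Type} (step : S → (Bool → Option U) → S) (c : List (Option U × Option U)) :
    ∀ q : S × Bool × Bool × Bool, (c.foldl (stp2 step) q).1 =
      (c.map (fun p (b : Bool) => if b then p.2 else p.1)).foldl step q.1 := by
  induction c with
  | nil => intro q; rfl
  | cons p c ih =>
    intro q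
    rw [List.foldl_cons, ih]
    rfl

theorem stp2_false {S U : Type} (step : S → (Bool → Option U) → S)
    (c : List (Option U × Option U)) : ∀ (s : S) (a b : Bool),
      (c.foldl (stp2 step) (s, a, b, false)).2.2.2 = false := by
  induction c with
  | nil => intro s a b; rfl
  | cons p c ih =>
    intro s a b
    rw [List.foldl_cons]
    simp only [stp2, Bool.false_and]
    exact ih _ _ _

theorem stp2_ok {S U : Type} (step : S → (Bool → Option U) → S)
    (c : List (Option U × Option U)) : ∀ (s : S) (a b : Bool),
      (c.foldl (stp2 step) (s, a, b, true)).2.2.2 = true ↔ Val a b c := by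
  induction c with
  | nil => intro s a b; simp [Val]
  | cons p c ih =>
    obtain ⟨x, y⟩ := p
    intro s a b
    rw [List.foldl_cons]
    simp only [stp2, Bool.true_and, Val]
    by_cases h : ((x.isSome || y.isSome) && (!a || x.isNone) && (!b || y.isNone)) = true
    · rw [h, ih]
      simp only [Bool.and_eq_true, Bool.or_eq_true, Bool.not_eq_true', Option.isNone_iff_eq_none]
        at h
      obtain ⟨⟨h1, h2⟩, h3⟩ := h
      constructor
      · intro h4
        refine ⟨by simpa using h1, fun ha => ?_, fun hb => ?_, h4⟩
        · rcases h2 with h2 | h2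
          · rw [ha] at h2; simp at h2
          · exact h2
        · rcases h3 with h3 | h3
          · rw [hb] at h3; simp at h3
          · exact h3
      · exact fun h4 => h4.2.2.2
    · rw [Bool.not_eq_true] at h
      rw [h, stp2_false]
      simp only [Bool.false_eq_true, false_iff]
      rintro ⟨h1, h2, h3, -⟩
      rw [h1] at h
      rcases a with _ | _ <;> rcases b with _ | _ <;> simp_all

theorem range_map_ltr_two {U : Type} (u v : List U) :
    (List.range (max u.length v.length)).map (ltr (fun b : Bool => if b then v else u)) =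
      (conv2 u v).map (fun p (b : Bool) => if b then p.2 else p.1) := by
  simp only [conv2, List.map_map]
  apply List.map_congr_left
  intro i _
  funext b
  rcases b with _ | _ <;> rfl

theorem conv2_inj {U : Type} : ∀ (u v u' v' : List U), conv2 u v = conv2 u' v' → u = u' ∧ v = v' := by
  intro u
  induction u with
  | nil =>
    intro v
    induction v with
    | nil =>
      intro u' v' h
      rcases u' with _ | ⟨x, u'⟩ <;> rcases v' with _ | ⟨y, v'⟩
      · exact ⟨rfl, rfl⟩
      · rw [conv2_nil_nil, conv2_nil_cons] at h; simp at h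
      · rw [conv2_nil_nil, conv2_cons_nil] at h; simp at h
      · rw [conv2_nil_nil, conv2_cons_cons] at h; simp at h
    | cons y v ih =>
      intro u' v' h
      rcases u' with _ | ⟨x', u'⟩ <;> rcases v' with _ | ⟨y', v'⟩
      · rw [conv2_nil_nil, conv2_nil_cons] at h; simp at h
      · rw [conv2_nil_cons, conv2_nil_cons] at h
        simp only [List.cons.injEq, Prod.mk.injEq, Option.some.injEq, true_and] at h
        obtain ⟨rfl, h⟩ := h
        obtain ⟨-, rfl⟩ := ih _ _ h
        exact ⟨rfl, rfl⟩
      · rw [conv2_nil_cons, conv2_cons_nil] at h; simp at h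
      · rw [conv2_nil_cons, conv2_cons_cons] at h; simp at h
  | cons x u ihu =>
    intro v u' v' h
    rcases v with _ | ⟨y, v⟩
    · rcases u' with _ | ⟨x', u'⟩ <;> rcases v' with _ | ⟨y', v'⟩
      · rw [conv2_nil_nil, conv2_cons_nil] at h; simp at h
      · rw [conv2_nil_cons, conv2_cons_nil] at h; simp at h
      · rw [conv2_cons_nil, conv2_cons_nil] at h
        simp only [List.cons.injEq, Prod.mk.injEq, Option.some.injEq, and_true] at h
        obtain ⟨rfl, h⟩ := h
        obtain ⟨rfl, -⟩ := ihu _ _ _ h
        exact ⟨rfl, rfl⟩
      · rw [conv2_cons_nil, conv2_cons_cons] at h; simp at h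
    · rcases u' with _ | ⟨x', u'⟩ <;> rcases v' with _ | ⟨y', v'⟩
      · rw [conv2_nil_nil, conv2_cons_cons] at h; simp at h
      · rw [conv2_nil_cons, conv2_cons_cons] at h; simp at h
      · rw [conv2_cons_nil, conv2_cons_cons] at h; simp at h
      · rw [conv2_cons_cons, conv2_cons_cons] at h
        simp only [List.cons.injEq, Prod.mk.injEq, Option.some.injEq] at h
        obtain ⟨⟨rfl, rfl⟩, h⟩ := h
        obtain ⟨rfl, rfl⟩ := ihu _ _ _ h
        exact ⟨rfl, rfl⟩

theorem to2T : S_TO2 := by
  classical
  intro U _ R hR
  obtain ⟨S, hS, step, s₀, F, h⟩ := hR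
  have := Fintype.ofFinite S
  let M : DFA (Option U × Option U) (S × Bool × Bool × Bool) :=
    ⟨stp2 step, (s₀, false, false, true), {q | F q.1 ∧ q.2.2.2 = true}⟩
  refine ⟨S × Bool × Bool × Bool, inferInstance, M, ?_⟩
  have key : ∀ u v : List U, R u v ↔ F (((conv2 u v).foldl (stp2 step) (s₀, false, false, true)).1) := by
    intro u v
    have h1 := h (fun b : Bool => if b then v else u) (max u.length v.length) (by
      intro b
      rcases b with _ | _
      · exact le_max_left _ _
      · exact le_max_right _ _)
    rw [range_map_ltr_two] at h1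
    rw [stp2_fst]
    exact h1
  ext c
  change (F (c.foldl (stp2 step) (s₀, false, false, true)).1 ∧
    (c.foldl (stp2 step) (s₀, false, false, true)).2.2.2 = true) ↔ ∃ u v, R u v ∧ c = conv2 u v
  rw [stp2_ok, val_iff]
  constructor
  · rintro ⟨h1, u, v, -, -, rfl⟩
    exact ⟨u, v, (key u v).2 h1, rfl⟩
  · rintro ⟨u, v, h1, rfl⟩
    exact ⟨(key u v).1 h1, u, v, by simp, by simp, rfl⟩

end Pool.Agent.Q201.SC
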