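import Pool.Agent.Q137.SC.Kit

set_option autoImplicit false

/-! # Recognisability of the relations between tracks -/

namespace Pool.Agent.Q137.SC
open Pool.Agent.Q201.SC

theorem ell_pos (h : List ℕ) : 0 < ell h := by unfold ell; omega

theorem ell_cons (c : ℕ) (h : List ℕ) : ell (c :: h) = ell h + c + 1 := by
  unfold ell
  simp
  omega

theorem hstr_length (h : List ℕ) : (hstr h).length = ell h := by
  induction h with
  | nil => rfl
  | cons c h ih =>
    rw [ell_cons, hstr]
    simp [ih]
    omega

/-- all strings which begin and end with `true` are histories -/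
theorem hist_surj (t : List Bool) : ∀ c : ℕ, ∃ h, true :: t ++ List.replicate c false ++ [true] =
    hstr h := by
  induction t using List.reverseRecOn with
  | nil => exact fun c => ⟨[c], rfl⟩
  | append_singleton t b ih =>
    intro c
    cases b with
    | true =>
      obtain ⟨h, hh⟩ := ih 0
      refine ⟨c :: h, ?_⟩
      rw [hstr, ← hh]
      simp
    | false =>
      obtain ⟨h, hh⟩ := ih (c + 1)
      refine ⟨h, ?_⟩
      rw [← hh, List.replicate_succ]
      simp

theorem hstr_form (h : List ℕ) : (∃ t, hstr h = true :: t) ∧ ∃ t, hstr h = t ++ [true] := by
  induction h with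
  | nil => exact ⟨⟨[], rfl⟩, ⟨[], rfl⟩⟩
  | cons c h ih =>
    obtain ⟨⟨t, ht⟩, -⟩ := ih
    refine ⟨⟨t ++ List.replicate c false ++ [true], ?_⟩, ⟨_, rfl⟩⟩
    rw [hstr, ht]
    simp

theorem hist_iff (s : List Bool) : (s[0]? = some true ∧
    ∀ i, s[i]? = some false → s[i + 1]? ≠ none) ↔ ∃ h, s = hstr h := by
  constructor
  · rintro ⟨h0, h1⟩
    rcases List.eq_nil_or_concat s with rfl | ⟨t, b, rfl⟩
    · exact absurd h0 (by simp)
    · have hb : b = true := by
        by_contra hb
        have hb' : b = false := by simpa using hb
        subst hb'
        refine h1 t.length (by simp) ?_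
        simp
      subst hb
      cases t with
      | nil => exact ⟨[], rfl⟩
      | cons a t =>
        have ha : a = true := by simpa using h0
        subst ha
        obtain ⟨h, hh⟩ := hist_surj t 0
        exact ⟨h, by rw [← hh]; simp⟩
  · rintro ⟨h, rfl⟩
    obtain ⟨⟨t, ht⟩, ⟨t', ht'⟩⟩ := hstr_form h
    refine ⟨by rw [ht]; rfl, ?_⟩
    intro i hi
    rw [ht'] at hi ⊢
    have h1 : i < t'.length := by
      by_contra hlt
      rcases Nat.lt_or_ge t'.length i with h2 | h2
      · rw [List.getElem?_eq_none (by simp; omega)] at hi
        exact absurd hi (by simp)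
      · have : i = t'.length := by omega
        subst this
        rw [List.getElem?_concat_length] at hi
        exact absurd hi (by simp)
    rw [Ne, List.getElem?_eq_none_iff]
    simp
    omega

theorem hstr_inj : Function.Injective hstr := by
  intro h
  induction h with
  | nil =>
    intro h' e
    cases h' with
    | nil => rfl
    | cons c h' =>
      have := congrArg List.length e
      rw [hstr_length, hstr_length, ell_cons] at this
      have h2 := ell_pos h'
      have h3 : ell [] = 1 := rfl
      omega
  | cons c h ih =>
    intro h' e
    cases h' with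
    | nil =>
      have := congrArg List.length e
      rw [hstr_length, hstr_length, ell_cons] at this
      have h2 := ell_pos h
      have h3 : ell [] = 1 := rfl
      omega
    | cons c' h' =>
      rw [hstr, hstr] at e
      have e1 := List.append_inj_left' e rfl
      obtain ⟨t, ht⟩ := (hstr_form h).2
      obtain ⟨t', ht'⟩ := (hstr_form h').2
      have hr : ∀ (c : ℕ) (t : List Bool), ((t ++ [true]) ++ List.replicate c false).reverse =
          List.replicate c false ++ true :: t.reverse := by
        intro c t
        simp
      have key : ∀ (c c' : ℕ) (r r' : List Bool), List.replicate c false ++ true :: r =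
          List.replicate c' false ++ true :: r' → c = c' := by
        intro c
        induction c with
        | zero =>
          intro c' r r' h
          cases c' with
          | zero => rfl
          | succ c' => simp [List.replicate_succ] at h
        | succ c ihc =>
          intro c' r r' h
          cases c' with
          | zero => simp [List.replicate_succ] at h
          | succ c' =>
            rw [List.replicate_succ, List.replicate_succ, List.cons_append, List.cons_append,
              List.cons.injEq] at h
            rw [ihc _ _ _ h.2]
      have hc : c = c' := by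
        refine key c c' t.reverse t'.reverse ?_
        rw [← hr, ← hr, ← ht, ← ht', e1]
      subst hc
      rw [ih (List.append_inj_left' e1 rfl)]

/-! ### The relations -/

theorem lenle (tk : TK) {U : Type} [Finite U] : Rec2 (fun u v : List U => u.length ≤ v.length) := by
  refine Rec.congr (letw tk (ι := Bool) (U := U) fun x => x true = none → x false = none)
    fun u => ?_
  unfold ltr
  simp only [List.getElem?_eq_none_iff]
  exact ⟨fun h => h _ le_rfl, fun h i hi => h.trans hi⟩

/-- strings of a constant letter -/
theorem unb (tk : TK) {α : Type} [Finite α] (b : Bool) :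
    Rec1 (fun u : List (Lt α) => ∃ n, u = (List.replicate n b).map emb) := by
  refine Rec.congr (bitLoc tk (ι := Unit) (fun x => x () ≠ some (!b)) fun _ y => y () ≠ some (!b))
    fun u => ?_
  constructor
  · rintro ⟨t, ht, h0, h⟩
    refine ⟨(t ()).length, ?_⟩
    rw [ht]
    congr 1
    rw [List.eq_replicate_iff]
    refine ⟨rfl, fun a ha => ?_⟩
    obtain ⟨i, hi⟩ := List.mem_iff_getElem?.1 ha
    have h1 : ∀ i : ℕ, (t ())[i]? ≠ some (!b) := by
      intro i
      cases i with
      | zero => exact h0
      | succ i => exact h i
    have h2 := h1 i
    rw [hi] at h2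
    cases a <;> cases b <;> simp_all
  · rintro ⟨n, hn⟩
    refine ⟨fun _ => List.replicate n b, fun _ => hn, ?_⟩
    have h1 : ∀ i : ℕ, (List.replicate n b)[i]? ≠ some (!b) := by
      intro i hi
      have := List.mem_of_getElem? hi
      have := List.eq_of_mem_replicate this
      cases b <;> simp at this
    exact ⟨h1 0, fun i => h1 (i + 1)⟩

theorem bits (tk : TK) {α : Type} [Finite α] :
    Rec1 (fun u : List (Lt α) => ∃ s : List Bool, u = s.map emb) := by
  refine Rec.congr (bitLoc tk (ι := Unit) (fun _ => True) fun _ _ => True) fun u => ?_
  constructor
  · rintro ⟨t, ht, -⟩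
    exact ⟨t (), ht ()⟩
  · rintro ⟨s, hs⟩
    exact ⟨fun _ => s, fun _ => hs, trivial, fun _ => trivial⟩

theorem hist (tk : TK) {α : Type} [Finite α] :
    Rec1 (fun u : List (Lt α) => ∃ h, u = (hstr h).map emb) := by
  refine Rec.congr (bitLoc tk (ι := Unit) (fun x => x () = some true)
    fun x y => x () = some false → y () ≠ none) fun u => ?_
  constructor
  · rintro ⟨t, ht, h⟩
    obtain ⟨h', hh⟩ := (hist_iff (t ())).1 h
    exact ⟨h', by rw [← hh]; exact ht ()⟩
  · rintro ⟨h, hh⟩
    exact ⟨fun _ => hstr h, fun _ => hh, (hist_iff _).2 ⟨h, rfl⟩⟩

/-- successor of unary strings -/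
theorem succu (tk : TK) {α : Type} [Finite α] :
    Rec2 (fun u v : List (Lt α) => ∃ g, u = (List.replicate g false).map emb ∧
      v = (List.replicate (g + 1) false).map emb) := by
  have h1 := pull1 tk (ι := Bool) (unb tk (α := α) false) false
  have h2 := tk.loc Bool (Lt α) (fun x => x true = some (emb false))
    (fun x y => y true = x false)
  refine Rec.congr (and' tk h1 h2) fun u => ?_
  constructor
  · rintro ⟨⟨g, hg⟩, h0, h⟩
    refine ⟨g, hg, ?_⟩
    rw [List.replicate_succ, List.map_cons, ← hg]
    refine List.ext_getElem? fun i => ?_
    cases i with
    | zero => exact h0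
    | succ i => exact h i
  · rintro ⟨g, hg, hg'⟩
    rw [List.replicate_succ, List.map_cons, ← hg] at hg'
    refine ⟨⟨g, hg⟩, ?_, fun i => ?_⟩
    · show (u true)[0]? = _
      rw [hg']
      rfl
    · show (u true)[i + 1]? = (u false)[i]?
      rw [hg']
      rfl

/-- the start condition of the binary increment -/
def SI (x : Bool → Option Bool) : Prop :=
  (x false = some true ∧ x true = some false) ∨ (x false = some false ∧ x true = some true)

theorem inc_iff (s : List Bool) : ∀ s' : List Bool,
    (SI (ltr (fun b => if b then s' else s) 0) ∧
      ∀ i, ((ltr (fun b => if b then s' else s) i false = some true ∧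
          ltr (fun b => if b then s' else s) i true = some false) →
          SI (ltr (fun b => if b then s' else s) (i + 1))) ∧
        (¬ (ltr (fun b => if b then s' else s) i false = some true ∧
          ltr (fun b => if b then s' else s) i true = some false) →
          ltr (fun b => if b then s' else s) (i + 1) false =
            ltr (fun b => if b then s' else s) (i + 1) true)) ↔ inc s = some s' := by
  have e : ∀ (s s' : List Bool) (i : ℕ), ltr (fun b : Bool => if b then s' else s) i =
      fun b : Bool => if b then s'[i]? else s[i]? := by
    intro s s' i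
    funext b
    cases b <;> rfl
  simp only [e]
  induction s with
  | nil =>
    intro s'
    constructor
    · rintro ⟨h, -⟩
      unfold SI at h
      simp at h
    · intro h
      exact absurd h (by simp [inc])
  | cons a r ih =>
    intro s'
    cases a with
    | false =>
      constructor
      · rintro ⟨h0, h⟩
        unfold SI at h0
        simp only [Bool.false_eq_true, if_false, if_true, List.getElem?_cons_zero,
          Option.some.injEq, false_and, true_and, false_or] at h0
        cases s' with
        | nil => simp at h0
        | cons a' r' =>
          simp only [List.getElem?_cons_zero, Option.some.injEq] at h0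
          subst h0
          have h1 : ∀ i : ℕ, r[i]? = r'[i]? := by
            intro i
            induction i with
            | zero =>
              have := (h 0).2
              simpa using this
            | succ i ihi =>
              have := (h (i + 1)).2
              simp only [Bool.false_eq_true, if_false, if_true, List.getElem?_cons_succ] at this
              apply this
              rw [ihi]
              rintro ⟨h2, h3⟩
              rw [h2] at h3
              simp at h3
          have h2 : r = r' := List.ext_getElem? h1
          subst h2
          rfl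
      · intro h
        have h' : s' = true :: r := by
          simp only [inc, Option.some.injEq] at h
          exact h.symm
        subst h'
        refine ⟨Or.inr (by simp), ?_⟩
        intro i
        refine ⟨?_, fun _ => by simp⟩
        rintro ⟨h1, h2⟩
        cases i with
        | zero => simp at h1
        | succ i =>
          simp only [Bool.false_eq_true, if_false, if_true, List.getElem?_cons_succ] at h1 h2
          rw [h1] at h2
          simp at h2
    | true =>
      have hi : inc (true :: r) = (inc r).map (false :: ·) := rfl
      rw [hi]
      constructor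
      · rintro ⟨h0, h⟩
        unfold SI at h0
        simp only [Bool.false_eq_true, if_false, if_true, List.getElem?_cons_zero,
          Option.some.injEq, true_and, Bool.true_eq_false, false_and, or_false] at h0
        cases s' with
        | nil => simp at h0
        | cons a' r' =>
          simp only [List.getElem?_cons_zero, Option.some.injEq] at h0
          subst h0
          have := (ih r').1 ⟨by
            have := (h 0).1
            simpa using this, fun i => by
            have := h (i + 1)
            simpa using this⟩
          rw [this]
          rfl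
      · intro h
        obtain ⟨r', hr', rfl⟩ := Option.map_eq_some_iff.1 h
        obtain ⟨h0, h1⟩ := (ih r').2 hr'
        refine ⟨Or.inl (by simp), ?_⟩
        intro i
        cases i with
        | zero =>
          refine ⟨fun _ => ?_, fun h2 => ?_⟩
          · simpa using h0
          · exact absurd (by simp) h2
        | succ i =>
          have := h1 i
          simpa using this

theorem incr (tk : TK) {α : Type} [Finite α] :
    Rec2 (fun u v : List (Lt α) => ∃ s s', inc s = some s' ∧ u = s.map emb ∧ v = s'.map emb) := by
  refine Rec.congr (bitLoc tk (ι := Bool) SI fun x y =>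
    ((x false = some true ∧ x true = some false) → SI y) ∧
      (¬ (x false = some true ∧ x true = some false) → y false = y true)) fun u => ?_
  constructor
  · rintro ⟨t, ht, h⟩
    have e : t = fun b => if b then t true else t false := by
      funext b
      cases b <;> rfl
    rw [e] at h
    exact ⟨t false, t true, (inc_iff _ _).1 h, ht _, ht _⟩
  · rintro ⟨s, s', hs, h1, h2⟩
    refine ⟨fun b => if b then s' else s, ?_, (inc_iff _ _).2 hs⟩
    intro b
    cases b
    · exact h1
    · exact h2

/-- the extension of the history -/
theorem ext_iff (t : Fin 3 → List Bool) (h01 : (t 0).length ≤ (t 1).length)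
    (h1 : 0 < (t 1).length) :
    (((∀ b, ltr t 0 0 = some b → ltr t 0 2 = some b) ∧
      (ltr t 0 0 = none → ltr t 0 1 ≠ none → ltr t 0 2 = some false)) ∧
    ∀ i, ((∀ b, ltr t (i + 1) 0 = some b → ltr t (i + 1) 2 = some b) ∧
      (ltr t (i + 1) 0 = none → ltr t (i + 1) 1 ≠ none → ltr t (i + 1) 2 = some false)) ∧
      (ltr t i 1 ≠ none → ltr t (i + 1) 1 = none → ltr t (i + 1) 2 = some true) ∧
      (ltr t i 1 = none → ltr t (i + 1) 2 = none)) ↔
    t 2 = t 0 ++ List.replicate ((t 1).length - (t 0).length) false ++ [true] := by
  unfold ltr
  constructor
  · rintro ⟨h0, h⟩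
    have hb : ∀ i : ℕ, (∀ b, (t 0)[i]? = some b → (t 2)[i]? = some b) ∧
        ((t 0)[i]? = none → (t 1)[i]? ≠ none → (t 2)[i]? = some false) := by
      intro i
      cases i with
      | zero => exact h0
      | succ i => exact (h i).1
    refine List.ext_getElem? fun i => ?_
    rcases Nat.lt_or_ge i (t 0).length with hi | hi
    · rw [List.append_assoc, List.getElem?_append_left hi]
      rw [List.getElem?_eq_getElem hi]
      exact (hb i).1 _ (List.getElem?_eq_getElem hi)
    · rcases Nat.lt_or_ge i (t 1).length with hi1 | hi1
      · rw [List.getElem?_append_left (by simp; omega), List.getElem?_append_right hi,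
          List.getElem?_replicate, if_pos (by omega)]
        exact (hb i).2 (List.getElem?_eq_none hi) (by rw [Ne, List.getElem?_eq_none_iff]; omega)
      · obtain ⟨j, rfl⟩ : ∃ j, i = j + 1 := ⟨i - 1, by omega⟩
        rw [List.getElem?_append_right (by simp; omega)]
        rcases Nat.lt_or_ge j (t 1).length with hj | hj
        · have hj' : j + 1 - (t 0 ++ List.replicate ((t 1).length - (t 0).length) false).length
              = 0 := by
            simp; omega
          rw [hj']
          exact (h j).2.1 (by rw [Ne, List.getElem?_eq_none_iff]; omega)
            (List.getElem?_eq_none hi1)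
        · rw [List.getElem?_eq_none (l := [true]) (by simp; omega)]
          exact (h j).2.2 (List.getElem?_eq_none hj)
  · intro h2
    have hb : ∀ i : ℕ, (∀ b, (t 0)[i]? = some b → (t 2)[i]? = some b) ∧
        ((t 0)[i]? = none → (t 1)[i]? ≠ none → (t 2)[i]? = some false) := by
      intro i
      rw [h2]
      refine ⟨?_, ?_⟩
      · intro b hb
        have hi : i < (t 0).length := by
          by_contra hc
          rw [List.getElem?_eq_none (by omega)] at hb
          simp at hb
        rw [List.append_assoc, List.getElem?_append_left hi]
        exact hb
      · intro h3 h4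
        rw [List.getElem?_eq_none_iff] at h3
        rw [Ne, List.getElem?_eq_none_iff] at h4
        rw [List.getElem?_append_left (by simp; omega), List.getElem?_append_right h3,
          List.getElem?_replicate, if_pos (by omega)]
    refine ⟨hb 0, fun i => ⟨hb (i + 1), ?_, ?_⟩⟩
    · intro h3 h4
      rw [Ne, List.getElem?_eq_none_iff] at h3
      rw [List.getElem?_eq_none_iff] at h4
      rw [h2, List.getElem?_append_right (by simp; omega)]
      have hj' : i + 1 - (t 0 ++ List.replicate ((t 1).length - (t 0).length) false).length
            = 0 := by
        simp; omega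
      rw [hj']
      rfl
    · intro h3
      rw [List.getElem?_eq_none_iff] at h3
      rw [h2, List.getElem?_eq_none_iff]
      simp
      omega

theorem extn (tk : TK) {α : Type} [Finite α] :
    Rec (fun u : Fin 3 → List (Lt α) => ∃ h c, u 0 = (hstr h).map emb ∧
      u 1 = (List.replicate (ell h + c) false).map emb ∧ u 2 = (hstr (c :: h)).map emb) := by
  have h1 := pull1 tk (ι := Fin 3) (hist tk (α := α)) 0
  have h2 := pull1 tk (ι := Fin 3) (unb tk (α := α) false) 1
  have h3 := pull2 tk (ι := Fin 3) (lenle tk (U := Lt α)) 0 1
  have h4 := bitLoc tk (α := α) (ι := Fin 3)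
    (fun x => (∀ b, x 0 = some b → x 2 = some b) ∧ (x 0 = none → x 1 ≠ none → x 2 = some false))
    (fun x y => ((∀ b, y 0 = some b → y 2 = some b) ∧
      (y 0 = none → y 1 ≠ none → y 2 = some false)) ∧
      (x 1 ≠ none → y 1 = none → y 2 = some true) ∧ (x 1 = none → y 2 = none))
  refine Rec.congr (and' tk h1 (and' tk h2 (and' tk h3 h4))) fun u => ?_
  constructor
  · rintro ⟨⟨h, hh⟩, ⟨n, hn⟩, hle, t, ht, hloc⟩
    have e0 : t 0 = hstr h := map_emb_inj ((ht 0).symm.trans hh)
    have e1 : t 1 = List.replicate n false := map_emb_inj ((ht 1).symm.trans hn)
    rw [hh, hn, List.length_map, List.length_map, List.length_replicate, hstr_length] at hle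
    obtain ⟨c, rfl⟩ := Nat.exists_eq_add_of_le hle
    have h01 : (t 0).length ≤ (t 1).length := by
      rw [e0, e1, hstr_length, List.length_replicate]; omega
    have hpos : 0 < (t 1).length := by
      rw [e1, List.length_replicate]
      have := ell_pos h
      omega
    have e2 := (ext_iff t h01 hpos).1 hloc
    refine ⟨h, c, hh, hn, ?_⟩
    rw [ht 2, e2, e0, e1, hstr_length, List.length_replicate, Nat.add_sub_cancel_left, hstr]
  · rintro ⟨h, c, hh, hn, hz⟩
    refine ⟨⟨h, hh⟩, ⟨_, hn⟩, ?_, ?_⟩
    · rw [hh, hn, List.length_map, List.length_map, List.length_replicate, hstr_length]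
      omega
    · refine ⟨![hstr h, List.replicate (ell h + c) false, hstr (c :: h)], ?_, ?_⟩
      · intro j
        fin_cases j
        · exact hh
        · exact hn
        · exact hz
      · refine (ext_iff _ ?_ ?_).2 ?_
        · simp [hstr_length]
        · have := ell_pos h
          simp
          omega
        · simp [hstr_length, hstr]

theorem trk : S_TRK := by
  intro tk α _
  simp only [un_map, bs_map]
  have hh := hist tk (α := α)
  have hle := lenle tk (U := Lt α)
  refine ⟨unb tk false, succu tk, bits tk, incr tk, hh, ?_, ?_, ?_, extn tk, hle⟩
  · intro b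
    refine Rec.congr (and' tk (pull1 tk (ι := Bool) hh false)
      (and' tk (pull1 tk (ι := Bool) (unb tk b) true)
        (and' tk (pull2 tk (ι := Bool) hle false true) (pull2 tk (ι := Bool) hle true false))))
      fun u => ?_
    constructor
    · rintro ⟨⟨h, h1⟩, ⟨n, h2⟩, h3, h4⟩
      rw [h1, h2, List.length_map, List.length_map, hstr_length, List.length_replicate] at h3 h4
      have : n = ell h := by omega
      subst this
      exact ⟨h, h1, h2⟩
    · rintro ⟨h, h1, h2⟩
      refine ⟨⟨h, h1⟩, ⟨_, h2⟩, ?_, ?_⟩
      · rw [h1, h2, List.length_map, List.length_map, hstr_length, List.length_replicate]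
      · rw [h1, h2, List.length_map, List.length_map, hstr_length, List.length_replicate]
  · refine Rec.congr (and' tk (pull1 tk (ι := Bool) hh false)
      (and' tk (pull1 tk (ι := Bool) (unb tk false) true) (pull2 tk (ι := Bool) hle false true)))
      fun u => ?_
    constructor
    · rintro ⟨⟨h, h1⟩, ⟨n, h2⟩, h3⟩
      rw [h1, h2, List.length_map, List.length_map, hstr_length, List.length_replicate] at h3
      obtain ⟨c, rfl⟩ := Nat.exists_eq_add_of_le h3
      exact ⟨h, c, h1, h2⟩
    · rintro ⟨h, c, h1, h2⟩
      refine ⟨⟨h, h1⟩, ⟨_, h2⟩, ?_⟩
      rw [h1, h2, List.length_map, List.length_map, hstr_length, List.length_replicate]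
      omega
  · refine Rec.congr (and' tk (pull1 tk (ι := Bool) hh false)
      (and' tk (pull1 tk (ι := Bool) (unb tk false) true)
        (and' tk (pull2 tk (ι := Bool) hle false true) (pull2 tk (ι := Bool) hle true false))))
      fun u => ?_
    constructor
    · rintro ⟨⟨h, h1⟩, ⟨n, h2⟩, h3, h4⟩
      rw [h1, h2, List.length_map, List.length_map, hstr_length, List.length_replicate] at h3 h4
      have : n = ell h := by omega
      subst this
      exact ⟨h, h1, h2⟩
    · rintro ⟨h, h1, h2⟩
      refine ⟨⟨h, h1⟩, ⟨_, h2⟩, ?_, ?_⟩
      · rw [h1, h2, List.length_map, List.length_map, hstr_length, List.length_replicate]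
      · rw [h1, h2, List.length_map, List.length_map, hstr_length, List.length_replicate]

end Pool.Agent.Q137.SC

namespace Pool.Agent.Q201.SC

/-- recognisability of the relations between tracks -/
theorem trkT : S_TRK := Pool.Agent.Q137.SC.trk

end Pool.Agent.Q201.SC
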