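import Pool.Agent.Q201.SC.InvP

/-!
# Project SC: job SC-17 (helper66): the walk in the second phase
-/

set_option autoImplicit false

namespace Pool.Agent.Q201.SC

theorem diag_run (e : ℕ ≃ ℕ) (lk : ℕ → ℕ) (h : List ℕ) (v j : ℕ) (hj : j ≤ v) :
    Relation.ReflTransGen (fun x y => nextC e lk x = some y) (.B h v 0) (.B h (v - j) j) := by
  induction j with
  | zero => exact Relation.ReflTransGen.refl
  | succ j ih =>
    refine (ih (by omega)).tail ?_
    have h1 : v - j = v - (j + 1) + 1 := by omega
    rw [h1]
    rfl

theorem walkT : S_WALK := by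
  intro e lk hmono h v hv j hj
  have key : ∀ i, lk (e i) ≤ ell h →
      Relation.ReflTransGen (fun x y => nextC e lk x = some y) (.B h (e 0) 0) (.B h (e i) 0) := by
    intro i
    induction i with
    | zero => intro _; exact Relation.ReflTransGen.refl
    | succ i ih =>
      intro hi
      have h1 := ih ((hmono i (i + 1) (by omega)).trans hi)
      have h2 := diag_run e lk h (e i) (e i) le_rfl
      rw [Nat.sub_self] at h2
      refine (h1.trans h2).tail ?_
      have h3 : e (e.symm (e i) + 1) = e (i + 1) := by rw [Equiv.symm_apply_apply]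
      rw [nextB_zero e lk (by rw [h3]; exact hi), h3]
  have h1 := key (e.symm v) (by rwa [Equiv.apply_symm_apply])
  rw [Equiv.apply_symm_apply] at h1
  exact h1.trans (diag_run e lk h v j hj)

end Pool.Agent.Q201.SC
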