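import Pool.Agent.Q201.SC.InvP

/-!
# Project SC: job SC-14 (helper66): the chains are finite in the forward direction
-/

set_option autoImplicit false

namespace Pool.Agent.Q201.SC

/-- the number with the complemented bits -/
def cmpl : List Bool → ℕ
  | [] => 0
  | b :: s => 2 * cmpl s + (if b then 0 else 1)

theorem cmpl_inc (s s' : List Bool) (h : inc s = some s') : cmpl s' < cmpl s := by
  induction s generalizing s' with
  | nil => simp [inc] at h
  | cons b s ih =>
    cases b with
    | false =>
      simp only [inc, Option.some.injEq] at h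
      subst h
      simp [cmpl]
    | true =>
      rw [inc, Option.map_eq_some_iff] at h
      obtain ⟨t, ht, rfl⟩ := h
      have := ih t ht
      simp only [cmpl, if_true, Bool.false_eq_true, if_false]
      omega

/-- the measure -/
noncomputable def muN (e : ℕ ≃ ℕ) (K : List ℕ → ℕ) : Conf → ℕ ×ₗ (ℕ ×ₗ ℕ)
  | .A _ g s _ => toLex (g + 1, toLex (cmpl s, 0))
  | .B h a b => toLex (0, toLex (K h - e.symm (a + b), a))

theorem lex_fst {a b : ℕ} {x y : ℕ ×ₗ ℕ} (h : a < b) :
    (toLex (a, x) : ℕ ×ₗ (ℕ ×ₗ ℕ)) < toLex (b, y) := Prod.Lex.toLex_lt_toLex.2 (Or.inl h)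

theorem lex_snd {a : ℕ} {x y x' y' : ℕ} (h : x < x') :
    (toLex (a, toLex (x, y)) : ℕ ×ₗ (ℕ ×ₗ ℕ)) < toLex (a, toLex (x', y')) :=
  Prod.Lex.toLex_lt_toLex.2 (Or.inr ⟨rfl, Prod.Lex.toLex_lt_toLex.2 (Or.inl h)⟩)

theorem lex_trd {a x : ℕ} {y y' : ℕ} (h : y < y') :
    (toLex (a, toLex (x, y)) : ℕ ×ₗ (ℕ ×ₗ ℕ)) < toLex (a, toLex (x, y')) :=
  Prod.Lex.toLex_lt_toLex.2 (Or.inr ⟨rfl, Prod.Lex.toLex_lt_toLex.2 (Or.inr ⟨rfl, h⟩)⟩)

theorem wfnT : S_WFN := by
  intro e lk hmono hunb
  choose K hK using fun h : List ℕ => hunb (ell h)
  have hK' : ∀ h j, lk (e j) ≤ ell h → j < K h := by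
    intro h j hj
    by_contra h1
    have := hmono (K h) j (by omega)
    have := hK h
    omega
  have hdec : ∀ x y, nextC e lk x = some y → muN e K y < muN e K x := by
    intro x y hxy
    cases x with
    | A h g s c =>
      rcases hs : inc s with _ | s'
      · by_cases hl : s.length = ell h
        · have hs2 := inc_none hs
          rw [hl] at hs2
          subst hs2
          cases g with
          | zero =>
            rw [nextA_zero, Option.some.injEq] at hxy
            subst hxy
            exact lex_fst (by omega)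
          | succ g' =>
            rw [nextA_succ, Option.some.injEq] at hxy
            subst hxy
            exact lex_fst (by omega)
        · rw [nextA_none e lk hs hl] at hxy
          simp at hxy
      · rw [nextA_some e lk hs, Option.some.injEq] at hxy
        subst hxy
        exact lex_snd (cmpl_inc s s' hs)
    | B h a b =>
      cases a with
      | zero =>
        by_cases hl : lk (e (e.symm b + 1)) ≤ ell h
        · rw [nextB_zero e lk hl, Option.some.injEq] at hxy
          subst hxy
          refine lex_snd ?_
          have h1 := hK' h _ hl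
          rw [Nat.add_zero, Equiv.symm_apply_apply, Nat.zero_add]
          omega
        · rw [nextB_none e lk hl] at hxy
          simp at hxy
      | succ a =>
        rw [nextB_succ, Option.some.injEq] at hxy
        subst hxy
        have h1 : a + 1 + b = a + (b + 1) := by omega
        simp only [muN]
        rw [h1]
        exact lex_trd (Nat.lt_succ_self a)
  exact Subrelation.wf (fun {y x} h => hdec x y h)
    (InvImage.wf (muN e K) (wellFounded_lt (α := ℕ ×ₗ (ℕ ×ₗ ℕ))))

end Pool.Agent.Q201.SC
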