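import Pool.Agent.Q137.SC.Kit

set_option autoImplicit false

namespace Pool.Agent.Q201.SC

/-- zipping of tracks is recognisable -/
theorem zipT' : S_ZIP := fun tk α _ d τ => Pool.Agent.Q137.SC.zip_rec tk α d τ

end Pool.Agent.Q201.SC
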