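import Pool.Agent.Q201.SC.Top
import Pool.Agent.Q201.SC.NotP
import Pool.Agent.Q201.SC.AndP
import Pool.Agent.Q201.SC.ComapP
import Pool.Agent.Q201.SC.ExP
import Pool.Agent.Q201.SC.LocalP
import Pool.Agent.Q201.SC.SlexP
import Pool.Agent.Q201.SC.ConstP
import Pool.Agent.Q201.SC.FromP
import Pool.Agent.Q201.SC.To1P
import Pool.Agent.Q201.SC.To2P
import Pool.Agent.Q201.SC.EnumP
import Pool.Agent.Q201.SC.GlueP
import Pool.Agent.Q201.SC.InvP
import Pool.Agent.Q201.SC.WfnP
import Pool.Agent.Q201.SC.WfpP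
import Pool.Agent.Q201.SC.GrowP
import Pool.Agent.Q201.SC.WalkP
import Pool.Agent.Q201.SC.CodeInjP
import Pool.Agent.Q201.SC.KdP
import Pool.Agent.Q201.SC.ZipP
import Pool.Agent.Q201.SC.TrkP
import Pool.Agent.Q201.SC.DomP
import Pool.Agent.Q201.SC.FlipP
import Pool.Agent.Q201.SC.NaP
import Pool.Agent.Q201.SC.NbP
import Pool.Agent.Q201.SC.NcP
import Pool.Agent.Q201.SC.NdP
import Pool.Agent.Q201.SC.NeP
import Pool.Agent.Q201.SC.NxtP
import Pool.Agent.Q201.SC.SucP
import Pool.Agent.Q201.SC.PresP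
import Pool.Agent.Q201.SC.LenTP
import Pool.Agent.Q201.SC.RateTP

/-!
# The main theorem
-/

set_option autoImplicit false

namespace Pool.Agent.Q201.SC

theorem main : S_MAIN :=
  top ⟨notT, andT, comapT, exT, localT, slexT, constT⟩ fromT to1T to2T enumT glueT invT wfnT
    wfpT growT walkT codeInjT kdT zipT' trkT domT flipT naT nbT ncT ndT neT nxtT sucT presT
    lenTT rateTT

end Pool.Agent.Q201.SC
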