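import Pool.Agent.Q277.SC.Tools

/-!
# JOB SC-31
-/

set_option autoImplicit false

namespace Pool.Agent.Q201.SC

open Pool.Agent.Q277.SC

theorem rec_eq (tk : TK) (U : Type) [Finite U] : Rec2 (fun u v : List U => u = v) := by
  have h := tk.loc Bool U (fun a => a false = a true) (fun _ b => b false = b true)
  refine Rec.congr h fun u => ?_
  constructor
  · intro hu
    refine ⟨?_, fun i => ?_⟩
    · simp only [ltr, hu]
    · simp only [ltr, hu]
  · rintro ⟨h0, h1⟩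
    apply List.ext_getElem?
    intro i
    cases i with
    | zero => exact h0
    | succ i => exact h1 i

theorem code_ne {α : Type} (κ : ℕ → List α) (d : Bool) (x : Conf) : code κ d x ≠ [] := by
  intro h
  have h1 : (code κ d x).length = 0 := by rw [h]; rfl
  unfold code zipT at h1
  rw [List.length_map, List.length_range] at h1
  have h2 : (tracks κ x 1).length ≤ Finset.univ.sup fun j => (tracks κ x j).length :=
    Finset.le_sup (f := fun j => (tracks κ x j).length) (Finset.mem_univ 1)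
  rw [h1] at h2
  have h3 : ∀ h : List ℕ, 0 < (hstr h).length := by
    intro h
    cases h with
    | nil => simp [hstr]
    | cons c h => simp [hstr]
  cases x with
  | A k g s c =>
    have h4 : (tracks κ (.A k g s c) 1).length = (hstr k).length := by
      simp [tracks, bs]
    have := h3 k
    omega
  | B k a b =>
    have h4 : (tracks κ (.B k a b) 1).length = (hstr k).length := by
      simp [tracks, bs]
    have := h3 k
    omega

open Classical in
/-- the naming function -/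
noncomputable def psi' {α : Type} (κ : ℕ → List α) (ψ : Bool × Conf ≃ ℕ) (y₀ : Bool × Conf)
    (w : List (Lt α)) : ℕ :=
  if w = [] then ψ y₀ else
    if h : ∃ y : Bool × Conf, w = code κ y.1 y.2 then ψ h.choose else 0

theorem presT : S_PRES := by
  intro tk hto1 hto2 hci hdom hz htrk α κ e kd f ψ hf hsuc y₀
  have := kd.fin
  obtain ⟨cd, hcd⟩ : ∃ cd : Bool × Conf → List (Lt α), cd = fun y => code κ y.1 y.2 := ⟨_, rfl⟩
  have hinj : ∀ y y', cd y = cd y' → y = y' := by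
    intro y y' h
    rw [hcd] at h
    obtain ⟨h1, h2⟩ := hci α κ kd.inj _ _ _ _ h
    exact Prod.ext h1 h2
  have hne : ∀ y, cd y ≠ [] := by
    intro y
    rw [hcd]
    exact code_ne κ _ _
  obtain ⟨Ψ, hΨ⟩ : ∃ Ψ : List (Lt α) → ℕ, Ψ = psi' κ ψ y₀ := ⟨_, rfl⟩
  have hΨ0 : Ψ [] = ψ y₀ := by
    rw [hΨ]
    unfold psi'
    rw [if_pos rfl]
  have hΨc : ∀ y, Ψ (cd y) = ψ y := by
    intro y
    rw [hΨ]
    unfold psi'
    have h1 : ∃ z : Bool × Conf, cd y = code κ z.1 z.2 := ⟨y, by rw [hcd]⟩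
    rw [if_neg (hne y), dif_pos h1]
    congr 1
    exact hinj _ _ ((congrFun hcd h1.choose).trans h1.choose_spec.symm)
  obtain ⟨D, hDdef⟩ : ∃ D : List (Lt α) → Prop, D = fun w => w = [] ∨ ∃ y, w = cd y := ⟨_, rfl⟩
  have hDm : ∀ w, D w ↔ (w = [] ∨ ∃ y, w = cd y) := fun w => by rw [hDdef]
  have recD : Rec1 D := by
    refine Rec.congr (rec_or tk (at1 tk (κ := Unit) (tk.const (Lt α) []) ())
      (rec_or tk (at1 tk (κ := Unit) (hdom tk hz htrk α κ e kd false) ())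
        (at1 tk (κ := Unit) (hdom tk hz htrk α κ e kd true) ()))) fun u => ?_
    rw [hDm]
    constructor
    · rintro (h | ⟨⟨d, x⟩, h⟩)
      · exact Or.inl h
      · cases d
        · exact Or.inr (Or.inl ⟨x, by rw [h, hcd]⟩)
        · exact Or.inr (Or.inr ⟨x, by rw [h, hcd]⟩)
    · rintro (h | ⟨x, h⟩ | ⟨x, h⟩)
      · exact Or.inl h
      · exact Or.inr ⟨(false, x), by rw [h, hcd]⟩
      · exact Or.inr ⟨(true, x), by rw [h, hcd]⟩
  have recE : Rec2 (fun u v => D u ∧ D v ∧ Ψ u = Ψ v) := by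
    have h1 := at1 tk (κ := Bool) recD false
    have h2 := at2 tk (κ := Bool) (rec_eq tk (Lt α)) false true
    have h3 := at1 tk (κ := Bool) (tk.const (Lt α) []) false
    have h4 := at1 tk (κ := Bool) (tk.const (Lt α) (cd y₀)) true
    have h5 := at1 tk (κ := Bool) (tk.const (Lt α) []) true
    have h6 := at1 tk (κ := Bool) (tk.const (Lt α) (cd y₀)) false
    refine Rec.congr (rec_or tk (tk.and _ _ _ _ h1 h2) (rec_or tk (tk.and _ _ _ _ h3 h4)
      (tk.and _ _ _ _ h5 h6))) fun u => ?_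
    constructor
    · rintro ⟨k1, k2, k3⟩
      rw [hDm] at k1 k2
      rcases k1 with k1 | ⟨y, k1⟩
      · rcases k2 with k2 | ⟨z, k2⟩
        · left
          refine ⟨(hDm _).2 (Or.inl k1), by rw [k1, k2]⟩
        · right; left
          refine ⟨k1, ?_⟩
          rw [k1, k2, hΨ0, hΨc] at k3
          rw [k2, ← ψ.injective k3]
      · rcases k2 with k2 | ⟨z, k2⟩
        · right; right
          refine ⟨k2, ?_⟩
          rw [k1, k2, hΨ0, hΨc] at k3
          rw [k1, ψ.injective k3]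
        · left
          refine ⟨(hDm _).2 (Or.inr ⟨y, k1⟩), ?_⟩
          rw [k1, k2, hΨc, hΨc] at k3
          rw [k1, k2, ψ.injective k3]
    · rintro (⟨k1, k2⟩ | ⟨k1, k2⟩ | ⟨k1, k2⟩)
      · exact ⟨k1, k2 ▸ k1, by rw [k2]⟩
      · exact ⟨(hDm _).2 (Or.inl k1), (hDm _).2 (Or.inr ⟨_, k2⟩), by rw [k1, k2, hΨ0, hΨc]⟩
      · exact ⟨(hDm _).2 (Or.inr ⟨_, k2⟩), (hDm _).2 (Or.inl k1), by rw [k1, k2, hΨ0, hΨc]⟩
  have recS : Rec2 (fun u v => D u ∧ D v ∧ Ψ v = Ψ u + 1) := by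
    have h1 := at2 tk (κ := Fin 2 ⊕ Bool) recE (Sum.inr false) (Sum.inl 0)
    have h2 := at2 tk (κ := Fin 2 ⊕ Bool) recE (Sum.inr true) (Sum.inl 1)
    have h3 := at2 tk (κ := Fin 2 ⊕ Bool) hsuc (Sum.inl 0) (Sum.inl 1)
    refine Rec.congr (exN tk 2 _ (tk.and _ _ _ _ h1 (tk.and _ _ _ _ h2 h3))) fun u => ?_
    constructor
    · rintro ⟨k1, k2, k3⟩
      obtain ⟨y, hy⟩ : ∃ y, ψ y = Ψ (u false) := ⟨ψ.symm (Ψ (u false)), ψ.apply_symm_apply _⟩
      refine ⟨![cd y, cd (f y)], ⟨k1, (hDm _).2 (Or.inr ⟨_, rfl⟩), ?_⟩,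
        ⟨k2, (hDm _).2 (Or.inr ⟨_, rfl⟩), ?_⟩, ⟨y, ?_, ?_⟩⟩
      · show Ψ (u false) = Ψ (cd y)
        rw [hΨc, hy]
      · show Ψ (u true) = Ψ (cd (f y))
        rw [hΨc, hf, hy]
        exact k3
      · show cd y = _
        rw [hcd]
      · show cd (f y) = _
        rw [hcd]
    · rintro ⟨v, ⟨k1, -, k2⟩, ⟨k3, -, k4⟩, ⟨y, k5, k6⟩⟩
      refine ⟨k1, k3, ?_⟩
      simp only [Sum.elim_inl, Sum.elim_inr] at k2 k4 k5 k6
      have k5' : v 0 = cd y := by rw [k5, hcd]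
      have k6' : v 1 = cd (f y) := by rw [k6, hcd]
      rw [k2, k4, k5', k6', hΨc, hΨc, hf]
  refine ⟨{ α := Lt α
            fin := inferInstance
            L := ({w | D w} : Language (Lt α))
            regL := hto1 (Lt α) D recD
            ψ := Ψ
            surj := fun x => ⟨cd (ψ.symm x), (hDm _).2 (Or.inr ⟨_, rfl⟩), by rw [hΨc]; simp⟩
            regEq := ?_
            regSucc := ?_ }, rfl, ⟨[], (hDm _).2 (Or.inl rfl), rfl, hΨ0⟩, fun y => ?_⟩
  · have h := hto2 (Lt α) _ recE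
    refine cast (congrArg Language.IsRegular ?_) h
    ext c
    constructor
    · rintro ⟨u, v, ⟨h1, h2, h3⟩, h4⟩
      exact ⟨u, v, h1, h2, h3, h4⟩
    · rintro ⟨u, v, h1, h2, h3, h4⟩
      exact ⟨u, v, ⟨h1, h2, h3⟩, h4⟩
  · have h := hto2 (Lt α) _ recS
    refine cast (congrArg Language.IsRegular ?_) h
    ext c
    constructor
    · rintro ⟨u, v, ⟨h1, h2, h3⟩, h4⟩
      exact ⟨u, v, h1, h2, h3, h4⟩
    · rintro ⟨u, v, h1, h2, h3, h4⟩
      exact ⟨u, v, ⟨h1, h2, h3⟩, h4⟩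
  · exact ⟨cd y, (hDm _).2 (Or.inr ⟨_, rfl⟩), congrArg List.length (congrFun hcd y), hΨc y⟩

end Pool.Agent.Q201.SC
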