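import Mathlib

/-!
# Automatic presentations of `(ℕ; S)` that are tower-fast relative to a given one

Definitions and the statements of the steps.  Full plan of the proof of Q1 of MP_0022d4_lc
(positive answer).

*Idea.*  Given `ψ₀`, build a reversible system (`Conf`, `nextC`, `prevC`) all of whose chains are
finite, in which the chain of the start `A [] g [false] 0` (which has a code of length
`max g 1`) runs first through configurations whose length grows like the tower function and then
through all pairs `(a, b)` with `a + b = ψ₀ v`, for all strings `v` of length at most `tower (g+1)`.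
Then traverse all chains one after the other, every chain first forwards (in the copy `true`) and
then backwards (in the copy `false`); after the return to the start of a chain, go on with the next
start in the shortlex order.  This is one chain of order type `ω` and the successor relation is
recognisable.  The element `(false, start)` comes after the whole chain of `start`.
-/

set_option autoImplicit false

namespace Pool.Agent.Q201.SC

/-! ### The notions of the problem -/

/-- the convolution of two strings; `none` is the padding symbol -/
def conv2 {α : Type} (u v : List α) : List (Option α × Option α) :=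
  (List.range (max u.length v.length)).map fun i => (u[i]?, v[i]?)

/-- FA-presentations of `(ℕ; S)` -/
structure Presentation where
  /-- the alphabet -/
  α : Type
  /-- it is finite -/
  fin : Finite α
  /-- the domain -/
  L : Language α
  /-- the domain is regular -/
  regL : L.IsRegular
  /-- the map to the natural numbers (only its values on `L` matter) -/
  ψ : List α → ℕ
  /-- it is onto -/
  surj : ∀ x : ℕ, ∃ w ∈ L, ψ w = x
  /-- equality is synchronously recognisable -/
  regEq : Language.IsRegular
    ({c | ∃ u v, u ∈ L ∧ v ∈ L ∧ ψ u = ψ v ∧ c = conv2 u v} : Language (Option α × Option α))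
  /-- the successor relation is synchronously recognisable -/
  regSucc : Language.IsRegular
    ({c | ∃ u v, u ∈ L ∧ v ∈ L ∧ ψ v = ψ u + 1 ∧ c = conv2 u v} : Language (Option α × Option α))

/-- the length of a shortest normal form -/
noncomputable def Presentation.len (P : Presentation) (x : ℕ) : ℕ :=
  sInf {m | ∃ v ∈ P.L, P.ψ v = x ∧ v.length = m}

/-- the compressibility rate of `P` relative to `P₀` -/
noncomputable def rate (P P₀ : Presentation) (n : ℕ) : ℕ :=
  sSup {l | ∃ w ∈ P.L, w.length ≤ n ∧ P₀.len (P.ψ w) = l}

/-- the tower function `T` -/
def tower : ℕ → ℕ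
  | 0 => 1
  | n + 1 => 2 ^ tower n

/-! ### Recognisable relations in padded form -/

/-- the letters of a tuple of strings at position `i` -/
def ltr {ι U : Type} (u : ι → List U) (i : ℕ) : ι → Option U := fun j => (u j)[i]?

/-- A relation on tuples of strings is recognisable: a finite automaton decides it by reading the
padded tuple up to any position beyond all the lengths. -/
def Rec {ι U : Type} (R : (ι → List U) → Prop) : Prop :=
  ∃ (S : Type) (_ : Finite S) (step : S → (ι → Option U) → S) (s₀ : S) (F : S → Prop),
    ∀ (u : ι → List U) (N : ℕ), (∀ j, (u j).length ≤ N) →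
      (R u ↔ F (((List.range N).map (ltr u)).foldl step s₀))

/-- unary recognisable relations -/
def Rec1 {U : Type} (R : List U → Prop) : Prop := Rec (fun u : Unit → List U => R (u ()))

/-- binary recognisable relations -/
def Rec2 {U : Type} (R : List U → List U → Prop) : Prop :=
  Rec (fun u : Bool → List U => R (u false) (u true))

/-- JOB SC-1. Complement `F`. -/
def S_NOT : Prop := ∀ (ι U : Type) (R : (ι → List U) → Prop), Rec R → Rec (fun u => ¬ R u)

/-- JOB SC-2. Product of the automata. -/
def S_AND : Prop := ∀ (ι U : Type) (R R' : (ι → List U) → Prop), Rec R → Rec R' →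
  Rec (fun u => R u ∧ R' u)

/-- JOB SC-3. Change of variables: the automaton reads `x ∘ f`.  (The lengths: if all `u j` have
length at most `N` then so have all `u (f i)`.) -/
def S_COMAP : Prop := ∀ (ι κ U : Type) (f : ι → κ) (R : (ι → List U) → Prop), Rec R →
  Rec (fun u : κ → List U => R (fun j => u (f j)))

/-- JOB SC-4. Projection.  Let `(S, step, s₀, F)` be an automaton for `R`.  Take the subset automaton
on `Set (S × Bool)`; after `N` letters of `u` its state is the set of all `(s, e)` such that for some
`v` with `v.length ≤ N` (and `e = true` iff `v.length < N`, that is: `v` has ended) the state of the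
given automaton after `N` letters of `(v, u)` is `s`.  Transition on a letter `x`: from `(s, false)`
to `(step s (x, some y), false)` for all `y : U` and to `(step s (x, none), true)`; from `(s, true)`
to `(step s (x, none), true)`.  Final: the sets that contain some `(s, e)` with `F s`, or some
`(s, false)` for which there is a list `l : List U` with `F` of the state reached from `s` by the
letters `(none, some y)`, `y ∈ l` (use the definition of `Rec` with `N = max` of the lengths
including `v`, when `v` is longer than `N`). -/
def S_EX : Prop := ∀ (ι U : Type) (R : (Option ι → List U) → Prop), Rec R →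
  Rec (fun u : ι → List U => ∃ v : List U, R (fun o => o.elim v u))

/-- JOB SC-5. Local relations.  State: `none` at the start, then `some (last letter, ok)`; finally
also check `P last none` and `P none none` (for `N = 0` check `P0 none` and `P none none`), where
`none` is the all-`none` letter.  Letters beyond `N` are all-`none`. -/
def S_LOCAL : Prop := ∀ (ι U : Type) [Finite ι] [Finite U] (P0 : (ι → Option U) → Prop)
  (P : (ι → Option U) → (ι → Option U) → Prop),
  Rec (fun u => P0 (ltr u 0) ∧ ∀ i, P (ltr u i) (ltr u (i + 1)))

/-- JOB SC-6. The shortlex order is recognisable: remember whether the words read so far are equal,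
`<` or `>` in the lexicographic order, and whether one of them has ended before the other one
(then it is decided). -/
def S_SLEX : Prop := ∀ (U : Type) [Finite U] [LinearOrder U],
  Rec2 (fun u v : List U => List.Shortlex (· < ·) u v)

/-- JOB SC-7. A fixed word (or: an instance of a finite language). -/
def S_CONST : Prop := ∀ (U : Type) [Finite U] (w : List U), Rec1 (fun u : List U => u = w)

/-- the closure properties, as one assumption for the later jobs -/
structure TK : Prop where
  /-- complement -/
  not : S_NOT
  /-- intersection -/
  and : S_AND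
  /-- change of variables -/
  comap : S_COMAP
  /-- projection -/
  ex : S_EX
  /-- local relations -/
  loc : S_LOCAL
  /-- shortlex -/
  slex : S_SLEX
  /-- constants -/
  const : S_CONST

/-- JOB SC-8. From a regular language of convolutions to a recognisable relation.  The automaton
for the regular language (Mathlib: `Language.IsRegular`, `DFA`) is frozen on the letter
`(none, none)`; letters not of the form `(Option.map f x, Option.map f y)` lead to a dead state.
`conv2` is injective. -/
def S_FROM : Prop := ∀ (α U : Type) [Finite U] (f : α → U), Function.Injective f →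
  ∀ R : List α → List α → Prop,
  Language.IsRegular ({c | ∃ u v, R u v ∧ c = conv2 u v} : Language (Option α × Option α)) →
  Rec2 (fun u v : List U => ∃ a b, R a b ∧ u = a.map f ∧ v = b.map f)

/-- JOB SC-9. From unary `Rec1` to a regular language (`N = w.length`). -/
def S_TO1 : Prop := ∀ (U : Type) [Finite U] (R : List U → Prop), Rec1 R →
  Language.IsRegular ({w | R w} : Language U)

/-- JOB SC-10. From `Rec2` to the regular language of convolutions: it is the intersection of the
language accepted by the given automaton (letter `(x, y)` read as `fun b => if b then y else x`)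
with the regular language of all words of the form `conv2 u v` (no letter `(none, none)`, and in
every coordinate `none` is followed by `none` only). -/
def S_TO2 : Prop := ∀ (U : Type) [Finite U] (R : List U → List U → Prop), Rec2 R →
  Language.IsRegular ({c | ∃ u v, R u v ∧ c = conv2 u v} : Language (Option U × Option U))

/-! ### Enumeration and gluing -/

/-- JOB SC-11. An infinite set of words over a finite alphabet has order type `ω` in the shortlex
order (every word has finitely many predecessors). -/
def S_ENUM : Prop := ∀ (C U : Type) [Infinite C] [Finite U] [LinearOrder U] (κ : C → List U),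
  Function.Injective κ →
  ∃ e : ℕ ≃ C, ∀ i j, i < j → List.Shortlex (· < ·) (κ (e i)) (κ (e j))

/-- The successor map of the glued chain: forwards in the copy `true`, at the end of the chain to
the copy `false`, then backwards, and from the start of the chain to the next start. -/
def sux {C : Type} (next prev : C → Option C) (nxs : C → C) : Bool × C → Bool × C
  | (true, c) => match next c with
    | some c' => (true, c')
    | none => (false, c)
  | (false, c) => match prev c with
    | some c' => (false, c')
    | none => (true, nxs c)

/-- JOB SC-12. Gluing.  Put `f n = sux^n (true, e 0)`.  `sux` is injective and `(true, e 0)` is not a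
value of it, hence `f` is injective.  `f` is onto: by induction on `i` all of `(true, e i)` are
values; if `(true, s)` is a value for the start `s` of a chain then so is `(true, c)` for all `c` in
the chain (every `c` lies in the chain of a start, by well-foundedness of `prev`), in particular for
the last element `c` of the chain (well-foundedness of `next`), then `(false, c)` for this last
element, and then all `(false, c)` back to `(false, s)`, and then `(true, nxs s)`.  For an
arbitrary `c`, both `(true, c)` and `(false, c)` are obtained in this way.  `ψ` is the inverse of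
`f`.  The last claim: on the way from `(true, s)` to `(false, s)` all the `(true, c)` with `c` in the
chain of `s` are met before (let `t` be the end of the chain;
`ψ (true, c) ≤ ψ (true, t) < ψ (false, t) ≤ ψ (false, s)`). -/
def S_GLUE : Prop := ∀ (C : Type) (next prev : C → Option C) (e : ℕ → C),
  (∀ c c', next c = some c' ↔ prev c' = some c) →
  WellFounded (fun c' c => next c = some c') →
  WellFounded (fun c' c => prev c = some c') →
  Function.Injective e → (∀ c, prev c = none ↔ ∃ i, e i = c) →
  ∀ nxs : C → C, (∀ i, nxs (e i) = e (i + 1)) →
  ∃ ψ : Bool × C ≃ ℕ, (∀ x, ψ (sux next prev nxs x) = ψ x + 1) ∧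
    (∀ s c, prev s = none → Relation.ReflTransGen (fun x y => next x = some y) s c →
      ψ (true, c) < ψ (false, s))

/-! ### The reversible system -/

/-- Configurations.  `A h g s c`: `h` is the history, `g` the number of remaining levels, `s` a
binary counter, `c` counts its steps.  `B h a b`: the pair `(a, b)` with the history `h`. -/
inductive Conf : Type
  /-- first phase -/
  | A (h : List ℕ) (g : ℕ) (s : List Bool) (c : ℕ)
  /-- second phase -/
  | B (h : List ℕ) (a b : ℕ)

/-- the length of the code of the history -/
def ell (h : List ℕ) : ℕ := 1 + (h.map (· + 1)).sum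

/-- binary increment, least significant bit first; undefined on `1…1` -/
def inc : List Bool → Option (List Bool)
  | [] => none
  | false :: s => some (true :: s)
  | true :: s => (inc s).map (false :: ·)

/-- binary decrement, undefined on `0…0` -/
def dec : List Bool → Option (List Bool)
  | [] => none
  | true :: s => some (false :: s)
  | false :: s => (dec s).map (true :: ·)

/-- The next configuration.  `e` enumerates the natural numbers in some order, `lk` is a length
function. -/
def nextC (e : ℕ ≃ ℕ) (lk : ℕ → ℕ) : Conf → Option Conf
  | .A h g s c => match inc s with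
    | some s' => some (.A h g s' (c + 1))
    | none => if s.length = ell h then
        match g with
        | g' + 1 => some (.A (c :: h) g' (List.replicate (ell (c :: h)) false) 0)
        | 0 => some (.B (c :: h) (e 0) 0)
      else none
  | .B h (a + 1) b => some (.B h a (b + 1))
  | .B h 0 b => if lk (e (e.symm b + 1)) ≤ ell h then some (.B h (e (e.symm b + 1)) 0) else none

/-- The previous configuration. -/
def prevC (e : ℕ ≃ ℕ) (lk : ℕ → ℕ) : Conf → Option Conf
  | .A h g s (c + 1) => match dec s with
    | some s' => some (.A h g s' c)
    | none => none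
  | .A h g s 0 => if s = List.replicate (ell h) false then
      match h with
      | [] => none
      | c :: h' => some (.A h' (g + 1) (List.replicate (ell h') true) c)
    else none
  | .B h a (b + 1) => some (.B h (a + 1) b)
  | .B h a 0 => if e.symm a = 0 then
      match h with
      | [] => none
      | c :: h' => some (.A h' 0 (List.replicate (ell h') true) c)
    else if lk a ≤ ell h then some (.B h 0 (e (e.symm a - 1))) else none

/-- JOB SC-13. `inc s' = some s ↔ dec s = some s'`; `inc s = none ↔ s` consists of `true`. -/
def S_INV : Prop := ∀ (e : ℕ ≃ ℕ) (lk : ℕ → ℕ) (x y : Conf),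
  nextC e lk x = some y ↔ prevC e lk y = some x

/-- JOB SC-14. All chains are finite in the forward direction.  In the first phase `(g, the number
with the complemented bits of s)` decreases lexicographically (with `g` as the first coordinate).
In the second phase: `e.symm (a + b)` does not change in a step `(a + 1, b) → (a, b + 1)` and
increases by `1` in a step to the next antidiagonal, which is allowed only if
`lk (e (e.symm b + 1)) ≤ ell h`; as `lk (e i)` is monotone and unbounded, such indices are bounded
by a number `K h`; so `(K h + 1 - e.symm (a + b), a)` decreases lexicographically. -/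
def S_WFN : Prop := ∀ (e : ℕ ≃ ℕ) (lk : ℕ → ℕ), (∀ i j, i ≤ j → lk (e i) ≤ lk (e j)) →
  (∀ m, ∃ i, m < lk (e i)) → WellFounded (fun y x => nextC e lk x = some y)

/-- JOB SC-15. All chains are finite in the backward direction.  Second phase:
`(e.symm (a + b), b)` decreases lexicographically; first phase: `(h.length, c)` decreases. -/
def S_WFP : Prop := ∀ (e : ℕ ≃ ℕ) (lk : ℕ → ℕ), WellFounded (fun y x => prevC e lk x = some y)

/-- JOB SC-16. Growth.  From `A h g 0…0 0` (with `ell h` zeros) the chain reaches
`A h g 1…1 c` with `c = 2 ^ ell h - 1` (induction on the number of steps, or on the value of the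
binary number), then the next level with history `c :: h`, `ell (c :: h) = ell h + c + 1 ≥ 2 ^ ell h`.
So if `tower m ≤ ell h` then `tower (m + 1) ≤ ell (c :: h)`.  Start: `ell [] = 1 = tower 0`;
after `g + 1` levels the second phase is reached. -/
def S_GROW : Prop := ∀ (e : ℕ ≃ ℕ) (lk : ℕ → ℕ) (g : ℕ), ∃ h : List ℕ, tower (g + 1) ≤ ell h ∧
  Relation.ReflTransGen (fun x y => nextC e lk x = some y) (.A [] g [false] 0) (.B h (e 0) 0)

/-- JOB SC-17. The walk in the second phase: by induction on `i`, `B h (e i) 0` is reached if
`lk (e i) ≤ ell h` (for `i = 0` nothing is to be shown). -/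
def S_WALK : Prop := ∀ (e : ℕ ≃ ℕ) (lk : ℕ → ℕ), (∀ i j, i ≤ j → lk (e i) ≤ lk (e j)) →
  ∀ (h : List ℕ) (v : ℕ), lk v ≤ ell h → ∀ j ≤ v,
  Relation.ReflTransGen (fun x y => nextC e lk x = some y) (.B h (e 0) 0) (.B h (v - j) j)

/-! ### Codes -/

/-- letters of the tracks -/
abbrev Trk (α : Type) : Type := α ⊕ Bool

/-- All letters: letters of the tracks (left), letters of the codes (right): copy, phase, the four
letters on the tracks. -/
abbrev Lt (α : Type) : Type := Trk α ⊕ (Bool × Bool × (Fin 4 → Option (Trk α)))

/-- the code of the history -/
def hstr : List ℕ → List Bool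
  | [] => [true]
  | c :: h => hstr h ++ List.replicate c false ++ [true]

/-- unary strings -/
def un {α : Type} (n : ℕ) : List (Trk α) := List.replicate n (Sum.inr false)

/-- bit strings -/
def bs {α : Type} (s : List Bool) : List (Trk α) := s.map Sum.inr

/-- the tracks of a configuration; `κ` gives the strings of the numbers -/
def tracks {α : Type} (κ : ℕ → List α) : Conf → Fin 4 → List (Trk α)
  | .A h g s c => ![un g, bs (hstr h), bs s, un (ell h + c)]
  | .B h a b => ![un 0, bs (hstr h), (κ a).map Sum.inl, (κ b).map Sum.inl]

/-- the phase -/
def phase : Conf → Bool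
  | .A _ _ _ _ => true
  | .B _ _ _ => false

/-- the string over `Lt α` with the given tracks -/
def zipT {α : Type} (d τ : Bool) (t : Fin 4 → List (Trk α)) : List (Lt α) :=
  (List.range (Finset.univ.sup fun j => (t j).length)).map
    fun i => Sum.inr (d, τ, fun j => (t j)[i]?)

/-- the code of a configuration in the copy `d` -/
def code {α : Type} (κ : ℕ → List α) (d : Bool) (x : Conf) : List (Lt α) :=
  zipT d (phase x) (tracks κ x)

/-- JOB SC-18. Codes determine the configuration and the copy (the tracks have a track `1` of
positive length, so the code is not empty; `hstr`, `un` are injective). -/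
def S_CODEINJ : Prop := ∀ (α : Type) (κ : ℕ → List α), Function.Injective κ →
  ∀ d d' x x', code κ d x = code κ d' x' → d = d' ∧ x = x'

/-- The recognisability facts about `κ` and the enumeration `e` of the natural numbers. -/
structure KD (α : Type) (κ : ℕ → List α) (e : ℕ ≃ ℕ) : Prop where
  /-- the alphabet is finite -/
  fin : Finite α
  /-- `κ` is injective -/
  inj : Function.Injective κ
  /-- the domain -/
  dom : Rec1 (fun u : List (Lt α) => ∃ a, u = (κ a).map (fun y => Sum.inl (Sum.inl y)))
  /-- the successor relation -/
  suc : Rec2 (fun u v : List (Lt α) => ∃ a, u = (κ a).map (fun y => Sum.inl (Sum.inl y)) ∧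
    v = (κ (a + 1)).map (fun y => Sum.inl (Sum.inl y)))
  /-- the next number in the order of `e` -/
  nx : Rec2 (fun u v : List (Lt α) => ∃ a, u = (κ a).map (fun y => Sum.inl (Sum.inl y)) ∧
    v = (κ (e (e.symm a + 1))).map (fun y => Sum.inl (Sum.inl y)))
  /-- the lengths are monotone -/
  mono : ∀ i j, i ≤ j → (κ (e i)).length ≤ (κ (e j)).length
  /-- the lengths are unbounded -/
  unb : ∀ m, ∃ i, m < (κ (e i)).length

/-- JOB SC-19. The canonical representatives of a presentation.  `κ a` is the shortlex-least
`v ∈ P.L` with `P.ψ v = a` (choose a linear order on `P.α`), `e` is given by `S_ENUM` for `κ`.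
By `S_FROM`, equality and successor of `P` are recognisable over the alphabet `Lt P.α`
(`f y = inl (inl y)`); order `Lt P.α` so that `f` is strictly monotone, or apply `S_FROM` to get the
shortlex order through any linear order on `Lt P.α` pulled back to `P.α`.  Then
`∃ a, u = f (κ a)` iff `E(u, u)` and there is no `u'` with `E(u, u')`, `u' < u` in shortlex;
the successor relation: both canonical and `S(u, v)`; next in the order of `e`: both canonical,
`u < v`, and no canonical word in between.  The lengths: shortlex-increasing words have
nondecreasing lengths; unbounded as there are finitely many words of length at most `m`. -/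
def S_KD : Prop := TK → S_FROM → S_ENUM → ∀ P : Presentation, ∃ (κ : ℕ → List P.α) (e : ℕ ≃ ℕ),
  KD P.α κ e ∧ (∀ a, κ a ∈ P.L ∧ P.ψ (κ a) = a) ∧
  (∀ v ∈ P.L, (κ (P.ψ v)).length ≤ v.length)

/-- JOB SC-20. Zipping of tracks is recognisable (it is a local relation, even letterwise). -/
def S_ZIP : Prop := TK → ∀ (α : Type) [Finite α] (d τ : Bool),
  Rec (fun u : Option (Fin 4) → List (Lt α) => ∃ t : Fin 4 → List (Trk α),
    (∀ j, u (some j) = (t j).map Sum.inl) ∧ u none = zipT d τ t)

/-- JOB SC-21. Recognisability of the relations between tracks: unary strings with equal length or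
length plus one; histories; `inc`; zeros and ones of the length of a history; `ell h + c`; the
extension of the history (`u` the code of `h`, `v` the unary `ell h + c`, `w` the code of `c :: h`).
All of them are local relations. -/
def S_TRK : Prop := TK → ∀ (α : Type) [Finite α],
  Rec1 (fun u : List (Lt α) => ∃ g, u = (un g).map Sum.inl) ∧
  Rec2 (fun u v : List (Lt α) => ∃ g, u = (un g).map Sum.inl ∧ v = (un (g + 1)).map Sum.inl) ∧
  Rec1 (fun u : List (Lt α) => ∃ s, u = (bs s).map Sum.inl) ∧
  Rec2 (fun u v : List (Lt α) => ∃ s s', inc s = some s' ∧ u = (bs s).map Sum.inl ∧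
    v = (bs s').map Sum.inl) ∧
  Rec1 (fun u : List (Lt α) => ∃ h, u = (bs (hstr h)).map Sum.inl) ∧
  (∀ b : Bool, Rec2 (fun u v : List (Lt α) => ∃ h, u = (bs (hstr h)).map Sum.inl ∧
    v = (bs (List.replicate (ell h) b)).map Sum.inl)) ∧
  Rec2 (fun u v : List (Lt α) => ∃ h c, u = (bs (hstr h)).map Sum.inl ∧
    v = (un (ell h + c)).map Sum.inl) ∧
  Rec2 (fun u v : List (Lt α) => ∃ h, u = (bs (hstr h)).map Sum.inl ∧
    v = (un (ell h)).map Sum.inl) ∧
  Rec (fun u : Fin 3 → List (Lt α) => ∃ h c, u 0 = (bs (hstr h)).map Sum.inl ∧
    u 1 = (un (ell h + c)).map Sum.inl ∧ u 2 = (bs (hstr (c :: h))).map Sum.inl) ∧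
  Rec2 (fun u v : List (Lt α) => u.length ≤ v.length)

/-- JOB SC-22. The codes of one copy form a recognisable set (existential quantifiers over the
tracks; the conditions on the tracks from `S_TRK` and `KD`). -/
def S_DOM : Prop := TK → S_ZIP → S_TRK → ∀ (α : Type) (κ : ℕ → List α) (e : ℕ ≃ ℕ), KD α κ e →
  ∀ d, Rec1 (fun w => ∃ x, w = code κ d x)

/-- JOB SC-23. Change of the copy is recognisable (letterwise, and the first word is a code). -/
def S_FLIP : Prop := TK → S_DOM → S_ZIP → S_TRK → ∀ (α : Type) (κ : ℕ → List α) (e : ℕ ≃ ℕ),
  KD α κ e → Rec2 (fun w w' => ∃ x, w = code κ true x ∧ w' = code κ false x)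

/-- JOB SC-24. Steps of the binary counter. -/
def S_NA : Prop := TK → S_ZIP → S_TRK → ∀ (α : Type) (κ : ℕ → List α) (e : ℕ ≃ ℕ), KD α κ e →
  ∀ d, Rec2 (fun w w' => ∃ h g s c s', inc s = some s' ∧ w = code κ d (.A h g s c) ∧
    w' = code κ d (.A h g s' (c + 1)))

/-- JOB SC-25. Steps to the next level. -/
def S_NB : Prop := TK → S_ZIP → S_TRK → ∀ (α : Type) (κ : ℕ → List α) (e : ℕ ≃ ℕ), KD α κ e →
  ∀ d, Rec2 (fun w w' => ∃ h g c, w = code κ d (.A h (g + 1) (List.replicate (ell h) true) c) ∧
    w' = code κ d (.A (c :: h) g (List.replicate (ell (c :: h)) false) 0))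

/-- JOB SC-26. Steps to the second phase. -/
def S_NC : Prop := TK → S_ZIP → S_TRK → ∀ (α : Type) (κ : ℕ → List α) (e : ℕ ≃ ℕ), KD α κ e →
  ∀ d, Rec2 (fun w w' => ∃ h c, w = code κ d (.A h 0 (List.replicate (ell h) true) c) ∧
    w' = code κ d (.B (c :: h) (e 0) 0))

/-- JOB SC-27. Steps of the second phase. -/
def S_ND : Prop := TK → S_ZIP → S_TRK → ∀ (α : Type) (κ : ℕ → List α) (e : ℕ ≃ ℕ), KD α κ e →
  ∀ d, Rec2 (fun w w' => ∃ h a b, w = code κ d (.B h (a + 1) b) ∧ w' = code κ d (.B h a (b + 1)))

/-- JOB SC-28. Steps to the next antidiagonal. -/
def S_NE : Prop := TK → S_ZIP → S_TRK → ∀ (α : Type) (κ : ℕ → List α) (e : ℕ ≃ ℕ), KD α κ e →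
  ∀ d, Rec2 (fun w w' => ∃ h b, (κ (e (e.symm b + 1))).length ≤ ell h ∧
    w = code κ d (.B h 0 b) ∧ w' = code κ d (.B h (e (e.symm b + 1)) 0))

/-- JOB SC-29. The step relation on codes: union of the five cases. -/
def S_NEXT : Prop := TK → S_ZIP → S_TRK → S_NA → S_NB → S_NC → S_ND → S_NE →
  ∀ (α : Type) (κ : ℕ → List α) (e : ℕ ≃ ℕ), KD α κ e → ∀ d,
  Rec2 (fun w w' => ∃ x x', nextC e (fun a => (κ a).length) x = some x' ∧ w = code κ d x ∧
    w' = code κ d x')

/-- JOB SC-30. The successor relation of the glued chain.  `N_d` is the step relation on the codes of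
the copy `d`, `D_d` the set of the codes of the copy `d`, `F` the change of the copy.
`Suc(w, w')` iff `N_true(w, w')`, or `D_true(w)`, no `w₁` with `N_true(w, w₁)`, and `F(w, w')`, or
`N_false(w', w)`, or: `D_false(w)`, no `w₁` with `N_false(w₁, w)`, and with `F(w₂, w)`: `w₂ < w'` are
both starts (codes in `D_true` without predecessor in `N_true`) and there is no start between them
in the shortlex order.  Here `es` enumerates the starts in the shortlex order of their codes in the
copy `true` and `nxs (es i) = es (i + 1)`.  (`S_INV` gives that `prevC x = none` iff there is no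
predecessor.) -/
def S_SUC : Prop := TK → S_INV → S_CODEINJ → S_DOM → S_FLIP → S_NEXT → S_ZIP → S_TRK →
  S_NA → S_NB → S_NC → S_ND → S_NE →
  ∀ (α : Type) [LinearOrder (Lt α)] (κ : ℕ → List α) (e : ℕ ≃ ℕ), KD α κ e →
  ∀ (es : ℕ → Conf) (nxs : Conf → Conf), Function.Injective es →
  (∀ c, prevC e (fun a => (κ a).length) c = none ↔ ∃ i, es i = c) →
  (∀ i j, i < j → List.Shortlex (· < ·) (code κ true (es i)) (code κ true (es j))) →
  (∀ i, nxs (es i) = es (i + 1)) →
  Rec2 (fun w w' => ∃ y : Bool × Conf, w = code κ y.1 y.2 ∧
    w' = code κ (sux (nextC e fun a => (κ a).length) (prevC e fun a => (κ a).length) nxs y).1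
      (sux (nextC e fun a => (κ a).length) (prevC e fun a => (κ a).length) nxs y).2)

/-- JOB SC-31. From a bijection `ψ` with recognisable successor to a presentation with an additional
name `[]` of the element `y₀`.  `L = {w | w = [] ∨ ∃ y, w = code y}`, `ψ' [] = ψ y₀`,
`ψ' (code y) = ψ y`.  Equality: `u = v` in the domain, or one of them is `[]` and the other one is
`[]` or `code y₀`.  Successor: `Suc` for the words with `[]` replaced by `code y₀`.  Then `S_TO1`,
`S_TO2`.  The codes are not empty (track `1` has positive length). -/
def S_PRES : Prop := TK → S_TO1 → S_TO2 → S_CODEINJ → S_DOM → S_ZIP → S_TRK →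
  ∀ (α : Type) (κ : ℕ → List α) (e : ℕ ≃ ℕ), KD α κ e →
  ∀ (f : Bool × Conf → Bool × Conf) (ψ : Bool × Conf ≃ ℕ), (∀ y, ψ (f y) = ψ y + 1) →
  Rec2 (fun w w' => ∃ y : Bool × Conf, w = code κ y.1 y.2 ∧ w' = code κ (f y).1 (f y).2) →
  ∀ y₀ : Bool × Conf, ∃ P : Presentation, P.α = Lt α ∧
    (∃ w ∈ P.L, w.length = 0 ∧ P.ψ w = ψ y₀) ∧
    ∀ y : Bool × Conf, ∃ w ∈ P.L, w.length = (code κ y.1 y.2).length ∧ P.ψ w = ψ y

/-- JOB SC-32. The length of the code of the start number `g`. -/
def S_LEN : Prop := ∀ (α : Type) (κ : ℕ → List α) (d : Bool) (g : ℕ),
  (code κ d (.A [] g [false] 0)).length = max g 1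

/-- JOB SC-33. The bound for the rate: the set in the definition of `rate` is finite (finitely many
words of length at most `n` over a finite alphabet), so a member `l ≥ t` gives `t ≤ rate`. -/
def S_RATE : Prop := ∀ (P P₀ : Presentation) (n t : ℕ) (w : List P.α), w ∈ P.L → w.length ≤ n →
  t ≤ P₀.len (P.ψ w) → t ≤ rate P P₀ n

/-- The final statement. -/
def S_MAIN : Prop := ∀ P₀ : Presentation, ∃ P : Presentation, ∀ n : ℕ, tower n ≤ rate P P₀ n

end Pool.Agent.Q201.SC
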