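import Pool.Agent.Q201.SC.Stm

/-!
# Assembly
-/

set_option autoImplicit false

namespace Pool.Agent.Q201.SC

open Relation

theorem tower_le_succ (n : ℕ) : tower n ≤ tower (n + 1) := by
  rw [tower]
  exact (Nat.lt_two_pow_self).le

/-- The assembly of the steps. -/
theorem top (tk : TK) (hfrom : S_FROM) (hto1 : S_TO1) (hto2 : S_TO2) (henum : S_ENUM)
    (hglue : S_GLUE) (hinv : S_INV) (hwfn : S_WFN) (hwfp : S_WFP) (hgrow : S_GROW)
    (hwalk : S_WALK) (hci : S_CODEINJ) (hkd : S_KD) (hzip : S_ZIP) (htrk : S_TRK)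
    (hdom : S_DOM) (hflip : S_FLIP) (hna : S_NA) (hnb : S_NB) (hnc : S_NC) (hnd : S_ND)
    (hne : S_NE) (hnext : S_NEXT) (hsuc : S_SUC) (hpres : S_PRES) (hlen : S_LEN)
    (hrate : S_RATE) : S_MAIN := by
  intro P₀
  obtain ⟨κ, e, kd, hκ, hκ2⟩ := hkd tk hfrom henum P₀
  have hfin := kd.fin
  let _ : LinearOrder (Lt P₀.α) :=
    LinearOrder.lift' (Finite.equivFin (Lt P₀.α)) (Equiv.injective _)
  let lk : ℕ → ℕ := fun a => (κ a).length
  have hmono : ∀ i j, i ≤ j → lk (e i) ≤ lk (e j) := kd.mono
  have hunb : ∀ m, ∃ i, m < lk (e i) := kd.unb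
  -- the starts
  let C' := {c : Conf // prevC e lk c = none}
  let st : ℕ → C' := fun g => ⟨.A [] g [false] 0, by simp [prevC, ell]⟩
  have : Infinite C' := Infinite.of_injective st (by
    intro g g' h
    have h2 := congrArg Subtype.val h
    simpa [st] using h2)
  have hinjC : Function.Injective (fun c : C' => code κ true c.1) := by
    intro c c' h
    exact Subtype.ext (hci _ κ kd.inj _ _ _ _ h).2
  obtain ⟨es', hes'⟩ := henum C' (Lt P₀.α) (fun c => code κ true c.1) hinjC
  let es : ℕ → Conf := fun i => (es' i).1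
  have hes_inj : Function.Injective es := fun i j h => es'.injective (Subtype.ext h)
  have hes_start : ∀ c, prevC e lk c = none ↔ ∃ i, es i = c := by
    intro c
    constructor
    · intro h
      exact ⟨es'.symm ⟨c, h⟩, by simp [es]⟩
    · rintro ⟨i, rfl⟩
      exact (es' i).2
  classical
  let nxs : Conf → Conf := fun c =>
    if h : prevC e lk c = none then (es' (es'.symm ⟨c, h⟩ + 1)).1 else c
  have hnxs : ∀ i, nxs (es i) = es (i + 1) := by
    intro i
    have h : prevC e lk (es i) = none := (es' i).2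
    have h2 : (⟨es i, h⟩ : C') = es' i := rfl
    simp only [nxs, dif_pos h, h2, Equiv.symm_apply_apply]
    rfl
  obtain ⟨ψ, hψ, hψ2⟩ := hglue Conf (nextC e lk) (prevC e lk) es (hinv e lk)
    (hwfn e lk hmono hunb) (hwfp e lk) hes_inj hes_start nxs hnxs
  have hS := hsuc tk hinv hci hdom hflip hnext hzip htrk hna hnb hnc hnd hne P₀.α κ e kd es nxs
    hes_inj hes_start hes' hnxs
  obtain ⟨P, hPα, hP0, hP⟩ := hpres tk hto1 hto2 hci hdom hzip htrk P₀.α κ e kd
    (sux (nextC e lk) (prevC e lk) nxs) ψ hψ hS (false, .A [] 0 [false] 0)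
  -- the key estimate
  have key : ∀ n, tower n ≤ P₀.len (ψ (false, .A [] n [false] 0)) := by
    intro n
    unfold Presentation.len
    apply le_csInf
    · obtain ⟨v, hv, hv2⟩ := P₀.surj (ψ (false, .A [] n [false] 0))
      exact ⟨v.length, v, hv, hv2, rfl⟩
    · rintro m ⟨v, hv, hv2, rfl⟩
      by_contra hlt
      rw [not_le] at hlt
      obtain ⟨h, hh1, hh2⟩ := hgrow e lk n
      set x := ψ (false, Conf.A [] n [false] 0) with hx
      have hlx : lk x ≤ ell h := by
        have h1 := hκ2 v hv
        rw [hv2] at h1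
        have h2 := tower_le_succ n
        change (κ x).length ≤ ell h
        omega
      have hb : ∀ j, j ≤ x → ψ (true, .B h (x - j) j) < x := by
        intro j hj
        apply hψ2 _ _ (st n).2
        exact hh2.trans (hwalk e lk hmono h x hlx j hj)
      have hinj : Set.InjOn (fun j => ψ (true, Conf.B h (x - j) j))
          (Finset.range (x + 1) : Set ℕ) := by
        intro j _ j' _ hjj
        have := ψ.injective hjj
        simp at this
        exact this.2
      have hcard := Finset.card_le_card_of_injOn (s := Finset.range (x + 1))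
        (t := Finset.range x) (fun j => ψ (true, Conf.B h (x - j) j)) (by
          intro j hj
          simp only [Finset.coe_range, Set.mem_Iio] at hj ⊢
          exact hb j (by omega)) hinj
      simp at hcard
  refine ⟨P, fun n => ?_⟩
  rcases Nat.eq_zero_or_pos n with rfl | hn
  · obtain ⟨w, hw, hw1, hw2⟩ := hP0
    refine hrate P P₀ 0 _ w hw (by omega) ?_
    rw [hw2]
    exact key 0
  · obtain ⟨w, hw, hw1, hw2⟩ := hP (false, .A [] n [false] 0)
    refine hrate P P₀ n _ w hw ?_ ?_
    · rw [hw1, hlen]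
      omega
    · rw [hw2]
      exact key n

end Pool.Agent.Q201.SC
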