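import Pool.Agent.Q201.SC.WfnP

/-!
# Project SC: job SC-15 (helper66): the chains are finite in the backward direction
-/

set_option autoImplicit false

namespace Pool.Agent.Q201.SC

/-- the measure -/
noncomputable def muP (e : ℕ ≃ ℕ) : Conf → ℕ ×ₗ (ℕ ×ₗ ℕ)
  | .A h _ _ c => toLex (0, toLex (h.length, c))
  | .B _ a b => toLex (1, toLex (e.symm (a + b), b))

theorem wfpT : S_WFP := by
  intro e lk
  have hdec : ∀ x y, prevC e lk x = some y → muP e y < muP e x := by
    intro y x hxy
    cases y with
    | A h g s c =>
      cases c with
      | zero =>
        by_cases hs : s = List.replicate (ell h) false
        · subst hs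
          cases h with
          | nil =>
            rw [prevA_nil] at hxy
            simp at hxy
          | cons c h' =>
            rw [prevA_cons, Option.some.injEq] at hxy
            subst hxy
            exact lex_snd (by simp)
        · rw [prevA_ne e lk hs] at hxy
          simp at hxy
      | succ c =>
        rcases hd : dec s with _ | s'
        · rw [prevA_none e lk hd] at hxy
          simp at hxy
        · rw [prevA_some e lk hd, Option.some.injEq] at hxy
          subst hxy
          exact lex_trd (Nat.lt_succ_self c)
    | B h a b =>
      cases b with
      | zero =>
        by_cases h1 : e.symm a = 0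
        · have ha : a = e 0 := by rw [← h1, Equiv.apply_symm_apply]
          subst ha
          cases h with
          | nil =>
            rw [prevB_nil] at hxy
            simp at hxy
          | cons c h' =>
            rw [prevB_cons, Option.some.injEq] at hxy
            subst hxy
            exact lex_fst (by omega)
        · by_cases h2 : lk a ≤ ell h
          · rw [prevB_pos e lk h1 h2, Option.some.injEq] at hxy
            subst hxy
            refine lex_snd ?_
            rw [Nat.add_zero, Nat.zero_add, Equiv.symm_apply_apply]
            omega
          · rw [prevB_none e lk h1 h2] at hxy
            simp at hxy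
      | succ b =>
        rw [prevB_succ, Option.some.injEq] at hxy
        subst hxy
        have h1 : a + 1 + b = a + (b + 1) := by omega
        simp only [muP]
        rw [h1]
        exact lex_trd (Nat.lt_succ_self b)
  exact Subrelation.wf (fun {y x} h => hdec x y h)
    (InvImage.wf (muP e) (wellFounded_lt (α := ℕ ×ₗ (ℕ ×ₗ ℕ))))

end Pool.Agent.Q201.SC
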